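import Pool.Agent.Lib.MP_c73c36_mp.Glue

/-!
The array that checks the state of the simulated cell is balanced.
-/

set_option autoImplicit false
set_option linter.unusedSimpArgs false
set_option linter.unnecessarySeqFocus false

namespace Pool.Agent.Lib.MP_c73c36_mp

def Arr : Finset (ℕ × ℕ) :=
  (Finset.range 16 ×ˢ Finset.range 9).image (fun p => (410 + p.1, 65485 + p.2))

theorem mem_Arr (x y : ℕ) : (x, y) ∈ Arr ↔ 410 ≤ x ∧ x ≤ 425 ∧ 65485 ≤ y ∧ y ≤ 65493 := by
  simp only [Arr, Finset.mem_image, Finset.mem_product, Finset.mem_range, Prod.mk.injEq,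
    Prod.exists]
  constructor
  · rintro ⟨a, b, ⟨h1, h2⟩, h3, h4⟩
    omega
  · intro h
    exact ⟨x - 410, y - 65485, ⟨by omega, by omega⟩, by omega, by omega⟩

theorem arrB (p : ℕ × ℕ) (hp : p ∈ Arr) : p.1 < 512 ∧ p.2 < 65536 := by
  obtain ⟨x, y⟩ := p
  have := (mem_Arr x y).1 hp
  simp only
  omega

theorem sum_Arr (F : ℕ → ℕ → ℝ) : ∑ p ∈ Arr, F p.1 p.2 =
    ∑ k ∈ Finset.range 9, ∑ w ∈ Finset.range 16, F (410 + w) (65485 + k) := by
  unfold Arr
  rw [Finset.sum_image, Finset.sum_product_right]
  rintro ⟨a, b⟩ - ⟨c, d⟩ - h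
  simp only [Prod.mk.injEq] at h ⊢
  omega

/-- The labels in the upper eight rows of the array. -/
def albl (β : St) (w k : ℕ) : St :=
  (HP 0 0 β (154 + w) (462 + k), HP 0 0 β (154 + w + 1) (462 + k), evec β w (462 + k),
    evec β w (462 + k + 1))

theorem lab_arr (qx qy : ℕ) (β : St) (w k : ℕ) (hw : w < 16) (hk : k < 8) :
    labOf HH VV qx qy β (410 + w) (65485 + (k + 1)) = albl β w k := by
  rw [show 410 + w = 256 + (154 + w) by omega, show 65485 + (k + 1) = 65024 + (462 + k) by omega,
    lab_P _ _ _ _ _ (by omega) (by omega)]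
  unfold albl
  refine Prod.ext ?_ (Prod.ext ?_ (Prod.ext ?_ ?_)) <;>
    simp (disch := omega) only [HP, VP, if_pos, if_neg, if_true, Nat.add_sub_cancel_left]

theorem arrT (p : ℕ × ℕ) (hp : p ∈ Arr) (qx qy qx' qy' : ℕ) (β : St) (h1 : qx < 512)
    (h2 : qy < 65536) (h3 : qx' < 512) (h4 : qy' < 65536) (h : Tb qx qy = Tb qx' qy') :
    labOf HH VV qx qy β p.1 p.2 = labOf HH VV qx' qy' β p.1 p.2 := by
  obtain ⟨x, y⟩ := p
  have hm := (mem_Arr x y).1 hp
  obtain ⟨w, rfl⟩ : ∃ w, x = 410 + w := ⟨x - 410, by omega⟩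
  simp only
  by_cases hy : y = 65485
  · rw [hy, lab_imp _ _ _ _ h1 h2 (by omega), lab_imp _ _ _ _ h3 h4 (by omega), h]
  · obtain ⟨k, rfl⟩ : ∃ k, y = 65485 + (k + 1) := ⟨y - 65486, by omega⟩
    rw [lab_arr _ _ _ _ _ (by omega) (by omega), lab_arr _ _ _ _ _ (by omega) (by omega)]

/-- The parameter of the rule in the upper eight rows of the array. -/
def abit (w k : ℕ) : Bool :=
  if k = 3 then w.testBit 1 ^^ w.testBit 0 else if k = 5 then w.testBit 2 ^^ w.testBit 0
  else if k = 7 then w.testBit 3 ^^ w.testBit 0 else false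

def arule (k : ℕ) (b : Bool) : Rule :=
  if k % 2 = 0 then (.pass, .neg) else if k = 7 then (.neg, .tap0 b) else (.neg, .tap b)

theorem rule_arr (w k : ℕ) (hw : w < 16) (hk : k < 8) :
    rule (410 + w) (65485 + (k + 1)) = arule k (abit w k) := by
  rw [show 410 + w = 256 + (154 + w) by omega, show 65485 + (k + 1) = 65024 + (462 + k) by omega,
    rule_P _ _ (by omega) (by omega)]
  have : k = 0 ∨ k = 1 ∨ k = 2 ∨ k = 3 ∨ k = 4 ∨ k = 5 ∨ k = 6 ∨ k = 7 := by omega
  rcases this with g | g | g | g | g | g | g | g <;>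
    simp (disch := omega) only [hP, vP, vA, arule, abit, if_pos, if_neg, if_true,
      Nat.add_sub_cancel_left]

set_option synthInstance.maxSize 4096 in
theorem arr_multiset : ∀ k < 8, ∀ β : St,
    (Finset.range 16).val.map (fun w => (abit w k, albl β w k)) =
    (Finset.range 16).val.map (fun w => (abit w k, albl (false, false, false, false) w k)) := by
  decide +kernel

theorem arr_row (G : Bool × St → ℝ) (k : ℕ) (hk : k < 8) (β β' : St) :
    ∑ w ∈ Finset.range 16, G (abit w k, albl β w k) =
    ∑ w ∈ Finset.range 16, G (abit w k, albl β' w k) := by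
  have key : ∀ γ : St, ∑ w ∈ Finset.range 16, G (abit w k, albl γ w k) =
      (((Finset.range 16).val.map
        (fun w => (abit w k, albl (false, false, false, false) w k))).map G).sum := by
    intro γ
    rw [← arr_multiset k hk γ, Multiset.map_map]
    rfl
  rw [key β, key β']

theorem exists_decw : ∀ β : St, ∃ w < 16, decw w = β := by decide

theorem decw_inj : ∀ w < 16, ∀ w' < 16, decw w = decw w' → w = w' := by decide +kernel

theorem imp_row (G : St → ℝ) (τ : St → Bool) (β : St) (h : τ β = true) :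
    ∑ w ∈ Finset.range 16, G (false, false, !τ (decw w), !m1 β w) =
    ∑ w ∈ Finset.range 16, G (false, false, !τ (decw w), true) +
      (G (false, false, false, false) - G (false, false, false, true)) := by
  obtain ⟨w0, hw0, e⟩ := exists_decw β
  have hm : w0 ∈ Finset.range 16 := Finset.mem_range.2 hw0
  rw [← Finset.add_sum_erase _ _ hm, ← Finset.add_sum_erase _ _ hm]
  have e1 : m1 β w0 = true := (m1_iff β w0).2 e
  have e2 : ∑ w ∈ (Finset.range 16).erase w0, G (false, false, !τ (decw w), !m1 β w) =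
      ∑ w ∈ (Finset.range 16).erase w0, G (false, false, !τ (decw w), true) := by
    refine Finset.sum_congr rfl (fun w hw => ?_)
    rw [Finset.mem_erase, Finset.mem_range] at hw
    have : m1 β w = false := by
      by_contra hc
      rw [Bool.not_eq_false, m1_iff] at hc
      exact hw.1 (decw_inj w hw.2 w0 hw0 (hc.trans e.symm))
    rw [this]; rfl
  rw [e1, e2, e, h]
  simp only [Bool.not_true]
  ring

theorem arrSum (G : (St → Bool) → St → ℝ) (qx qy : ℕ) (β β' : St) (hx : qx < 512)
    (hy : qy < 65536) (h : Tb qx qy β = true) (h' : Tb qx qy β' = true) :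
    ∑ p ∈ Arr, G (Tb p.1 p.2) (labOf HH VV qx qy β p.1 p.2) =
      ∑ p ∈ Arr, G (Tb p.1 p.2) (labOf HH VV qx qy β' p.1 p.2) := by
  rw [sum_Arr (fun x y => G (Tb x y) (labOf HH VV qx qy β x y)),
    sum_Arr (fun x y => G (Tb x y) (labOf HH VV qx qy β' x y))]
  refine Finset.sum_congr rfl (fun k hk => ?_)
  rw [Finset.mem_range] at hk
  cases k with
  | zero =>
    have key : ∀ γ : St, Tb qx qy γ = true →
        ∑ w ∈ Finset.range 16, G (Tb (410 + w) (65485 + 0))
          (labOf HH VV qx qy γ (410 + w) (65485 + 0)) =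
        ∑ w ∈ Finset.range 16, G (sat (.pass, .imp)) (false, false, !Tb qx qy (decw w), true) +
          (G (sat (.pass, .imp)) (false, false, false, false) -
            G (sat (.pass, .imp)) (false, false, false, true)) := by
      intro γ hγ
      rw [← imp_row (G (sat (.pass, .imp))) (Tb qx qy) γ hγ]
      refine Finset.sum_congr rfl (fun w hw => ?_)
      rw [Finset.mem_range] at hw
      rw [Nat.add_zero, lab_imp _ _ _ _ hx hy hw]
      have : Tb (410 + w) 65485 = sat (.pass, .imp) := by
        funext s; unfold Tb; rw [rule_imp w hw]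
      rw [this]
    rw [key β h, key β' h']
  | succ k =>
    have key : ∀ γ : St,
        ∑ w ∈ Finset.range 16, G (Tb (410 + w) (65485 + (k + 1)))
          (labOf HH VV qx qy γ (410 + w) (65485 + (k + 1))) =
        ∑ w ∈ Finset.range 16, (fun p : Bool × St => G (sat (arule k p.1)) p.2)
          (abit w k, albl γ w k) := by
      intro γ
      refine Finset.sum_congr rfl (fun w hw => ?_)
      rw [Finset.mem_range] at hw
      rw [lab_arr _ _ _ _ _ hw (by omega)]
      have : Tb (410 + w) (65485 + (k + 1)) = sat (arule k (abit w k)) := by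
        funext s; unfold Tb; rw [rule_arr w k hw (by omega)]
      rw [this]
    rw [key β, key β']
    exact arr_row (fun p : Bool × St => G (sat (arule k p.1)) p.2) k (by omega) β β'

end Pool.Agent.Lib.MP_c73c36_mp
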