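import Pool.Agent.Lib.MP_c73c36_mp.Glue

/-!
How the canonical labelling depends on the state of the simulated cell.
-/

set_option autoImplicit false
set_option linter.unusedSimpArgs false
set_option linter.unnecessarySeqFocus false

namespace Pool.Agent.Lib.MP_c73c36_mp

/-- Horizontal bits that depend on the state of the simulated cell. -/
def bH (x y : ℕ) : Prop :=
  (y = 65489 ∧ (x ≤ 427 ∨ 430 ≤ x)) ∨ (y = 65487 ∧ 410 ≤ x ∧ x ≤ 431) ∨
  (y = 65491 ∧ 410 ≤ x ∧ x ≤ 429) ∨ (y = 65493 ∧ 410 ≤ x ∧ x ≤ 431)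

/-- Vertical bits that depend on the state of the simulated cell. -/
def bV (x y : ℕ) : Prop :=
  (x = 431 ∧ (y ≤ 65487 ∨ 65494 ≤ y)) ∨ (410 ≤ x ∧ x ≤ 425 ∧ 65486 ≤ y ∧ y ≤ 65493) ∨
  (x = 429 ∧ (y = 65490 ∨ y = 65491))

theorem par_sub256 (x : ℕ) (h : 256 ≤ x) : par (x - 256) = par x := by
  unfold par
  simp only [Nat.testBit_zero, decide_eq_decide]
  omega

theorem par_mod512 (y : ℕ) : par (y % 512) = par y := by
  unfold par
  simp only [Nat.testBit_zero, decide_eq_decide]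
  omega

theorem HH_ind (qx qy : ℕ) (β β' : St) (x y : ℕ) (hy : y < 65536) (h : ¬ bH x y) :
    HH qx qy β x y = HH qx qy β' x y := by
  unfold bH at h
  have : y < 512 ∨ (512 ≤ y ∧ y < 65024) ∨ (65024 ≤ y ∧ y < 65484) ∨ y = 65487 ∨ y = 65489 ∨
    y = 65491 ∨ y = 65493 ∨ y = 65535 ∨
    (65484 ≤ y ∧ y ≠ 65487 ∧ y ≠ 65489 ∧ y ≠ 65491 ∧ y ≠ 65493 ∧ y ≠ 65535) := by omega
  by_cases hx : x < 256 <;> rcases this with g | g | g | g | g | g | g | g | g <;>
    first
    | omega
    | simp (disch := omega) only [HH, Hb, HE, HP, if_pos, if_neg, if_true]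

theorem VP_ind (qx qy : ℕ) (β β' : St) (c j : ℕ)
    (h : ¬ ((c = 175 ∧ (j ≤ 463 ∨ 470 ≤ j)) ∨ (154 ≤ c ∧ c ≤ 169 ∧ 462 ≤ j ∧ j ≤ 469) ∨
      (c = 173 ∧ (j = 466 ∨ j = 467)))) : VP qx qy β c j = VP qx qy β' c j := by
  have : (1 ≤ c ∧ c ≤ 16) ∨ c = 25 ∨ c = 175 ∨ (17 ≤ c ∧ c ≤ 151 ∧ c ≠ 25) ∨ c = 152 ∨ c = 173 ∨
      (154 ≤ c ∧ c ≤ 169 ∧ j ≤ 460) ∨ (154 ≤ c ∧ c ≤ 169 ∧ j = 461) ∨
      (154 ≤ c ∧ c ≤ 169 ∧ 470 ≤ j) ∨
      (c = 0 ∨ c = 153 ∨ (170 ≤ c ∧ c ≠ 173 ∧ c ≠ 175)) := by omega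
  rcases this with k | k | k | k | k | k | k | k | k | k <;>
    simp (disch := omega) only [VP, evec, if_pos, if_neg, if_true]

theorem VV_ind (qx qy : ℕ) (β β' : St) (x y : ℕ) (hx : x < 512) (hy : y ≤ 65536) (h : ¬ bV x y) :
    VV qx qy β x y = VV qx qy β' x y := by
  unfold bV at h
  have : y < 512 ∨ (512 ≤ y ∧ y < 65024) ∨ (65024 ≤ y ∧ y < 65536) ∨ y = 65536 := by omega
  by_cases hx' : x < 256
  · rcases this with g | g | g | g <;>
      simp (disch := omega) only [VV, Vb, if_pos, if_neg, if_true]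
  rcases this with g | g | g | g
  · simp (disch := omega) only [VV, Vb, VQ, if_pos, if_neg, if_true]
  · simp (disch := omega) only [VV, Vb, VL, if_pos, if_neg, if_true]
  · simp (disch := omega) only [VV, Vb, if_pos, if_neg, if_true]
    exact VP_ind _ _ _ _ _ _ (by omega)
  · simp (disch := omega) only [VV, Vb, if_pos, if_neg, if_true]
    exact VP_ind _ _ _ _ _ _ (by omega)

theorem HH_l (qx qy : ℕ) (β : St) (x : ℕ) (h : x ≤ 427) :
    HH qx qy β x 65489 = (β.1 ^^ par x) := by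
  by_cases hx : x < 256 <;>
    simp (disch := omega) only [HH, Hb, HE, HP, if_pos, if_neg, if_true, par_sub256]

theorem HH_r (qx qy : ℕ) (β : St) (x : ℕ) (h : 430 ≤ x) :
    HH qx qy β x 65489 = (β.2.1 ^^ par x) := by
  simp (disch := omega) only [HH, Hb, HP, if_pos, if_neg, if_true, par_sub256]

theorem HH_d (qx qy : ℕ) (β : St) (x : ℕ) (h : 410 ≤ x) (h' : x ≤ 431) :
    HH qx qy β x 65487 = (β.2.2.1 ^^ par x) := by
  simp (disch := omega) only [HH, Hb, HP, if_pos, if_neg, if_true, par_sub256]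

theorem HH_r2 (qx qy : ℕ) (β : St) (x : ℕ) (h : 410 ≤ x) (h' : x ≤ 429) :
    HH qx qy β x 65491 = (β.2.1 ^^ par x) := by
  simp (disch := omega) only [HH, Hb, HP, if_pos, if_neg, if_true, par_sub256]

theorem HH_u (qx qy : ℕ) (β : St) (x : ℕ) (h : 410 ≤ x) (h' : x ≤ 431) :
    HH qx qy β x 65493 = (β.2.2.2 ^^ par x) := by
  simp (disch := omega) only [HH, Hb, HP, if_pos, if_neg, if_true, par_sub256]

theorem HH_top0 (qx qy : ℕ) (β : St) (x y : ℕ) (h1 : 274 ≤ x) (h2 : 65484 ≤ y) (h3 : y < 65536)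
    (h : ¬ bH x y) : HH qx qy β x y = false := by
  unfold bH at h
  have : y = 65487 ∨ y = 65489 ∨ y = 65491 ∨ y = 65493 ∨ y = 65535 ∨
    (y ≠ 65487 ∧ y ≠ 65489 ∧ y ≠ 65491 ∧ y ≠ 65493 ∧ y ≠ 65535) := by omega
  rcases this with g | g | g | g | g | g <;>
    simp (disch := omega) only [HH, Hb, HP, if_pos, if_neg, if_true]

theorem VV_d (qx qy : ℕ) (β : St) (y : ℕ) (h : y ≤ 65487) :
    VV qx qy β 431 y = (β.2.2.1 ^^ par y) := by
  have : y < 512 ∨ (512 ≤ y ∧ y < 65024) ∨ 65024 ≤ y := by omega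
  rcases this with g | g | g <;>
    simp (disch := omega) only [VV, Vb, VQ, VL, VP, if_pos, if_neg, if_true, par_mod512]

theorem VV_u (qx qy : ℕ) (β : St) (y : ℕ) (h : 65494 ≤ y) (h' : y ≤ 65536) :
    VV qx qy β 431 y = (β.2.2.2 ^^ par y) := by
  by_cases g : y < 65536
  · simp (disch := omega) only [VV, Vb, VP, if_pos, if_neg, if_true, par_mod512]
  · simp (disch := omega) only [VV, Vb, VP, if_pos, if_neg, if_true, par_even]

theorem VV_e (qx qy : ℕ) (β : St) (w j : ℕ) (hw : w < 16) (h : 462 ≤ j) (h' : j < 512) :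
    VV qx qy β (410 + w) (65024 + j) = evec β w j := by
  simp (disch := omega) only [VV, Vb, VP, if_pos, if_neg, if_true]
  rw [show (410 + w) % 256 - 154 = w by omega, show (65024 + j) % 512 = j by omega]

theorem VV_j1 (qx qy : ℕ) (β : St) : VV qx qy β 429 65490 = β.2.1 := by
  simp (disch := omega) only [VV, Vb, VP, if_pos, if_neg, if_true]

theorem VV_j2 (qx qy : ℕ) (β : St) : VV qx qy β 429 65491 = !β.2.1 := by
  simp (disch := omega) only [VV, Vb, VP, if_pos, if_neg, if_true]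

theorem VV_top0 (qx qy : ℕ) (β : St) (x y : ℕ) (h1 : 282 ≤ x) (h1' : x < 512) (h2 : 65486 ≤ y)
    (h3 : y ≤ 65536) (h : ¬ bV x y) : VV qx qy β x y = false := by
  unfold bV at h
  have : x = 431 ∨ x = 429 ∨ x ≤ 407 ∨ x = 408 ∨ (410 ≤ x ∧ x ≤ 425) ∨
    (x = 409 ∨ (426 ≤ x ∧ x ≠ 429 ∧ x ≠ 431)) := by omega
  by_cases g : y < 65536 <;> rcases this with k | k | k | k | k | k <;>
    first
    | omega
    | simp (disch := omega) only [VV, Vb, VP, evec, if_pos, if_neg, if_true]

theorem VV_row (qx qy : ℕ) (β : St) (x y : ℕ) (h1 : x ≤ 409) (h2 : y = 65489 ∨ y = 65490) :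
    VV qx qy β x y = if 257 ≤ x ∧ x ≤ 272 then qy.testBit (x - 257)
      else if x = 281 then qx.testBit 8 else false := by
  have : x < 256 ∨ (257 ≤ x ∧ x ≤ 272) ∨ x = 281 ∨ (273 ≤ x ∧ x ≤ 407 ∧ x ≠ 281) ∨ x = 408 ∨
    (x = 256 ∨ x = 409) := by omega
  rcases this with k | k | k | k | k | k <;>
    simp (disch := omega) only [VV, Vb, VE, VP, if_pos, if_neg, if_true]
  rw [show x % 256 - 1 = x - 257 by omega]

theorem HH_col (qx qy : ℕ) (β : St) (x y : ℕ) (h1 : x = 431 ∨ x = 432) (h2 : y ≤ 65486) :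
    HH qx qy β x y = if 1 ≤ y ∧ y ≤ 9 then qx.testBit (y - 1)
      else if y = 10 then qy.testBit 15 else false := by
  have : (1 ≤ y ∧ y ≤ 9) ∨ y = 10 ∨ (y = 0 ∨ (11 ≤ y ∧ y < 512)) ∨ (512 ≤ y ∧ y < 65024) ∨
    (65024 ≤ y ∧ y < 65484) ∨ 65484 ≤ y := by omega
  rcases this with k | k | k | k | k | k <;>
    simp (disch := omega) only [HH, Hb, HQ, HD, HL, HP, if_pos, if_neg, if_true]
  rw [show y % 512 = y by omega]

theorem xor_pair (a b : Bool) (n : ℕ) :
    (a ^^ par n).toNat + (a ^^ par (n + 1)).toNat = (b ^^ par n).toNat + (b ^^ par (n + 1)).toNat := by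
  rw [par_succ]
  cases a <;> cases b <;> cases par n <;> rfl

theorem pairH (qx qy : ℕ) (β β' : St) (i y : ℕ) (hy : y < 65536) :
    (HH qx qy β (2 * i) y).toNat + (HH qx qy β (2 * i + 1) y).toNat =
    (HH qx qy β' (2 * i) y).toNat + (HH qx qy β' (2 * i + 1) y).toNat := by
  by_cases h : bH (2 * i) y
  · unfold bH at h
    rcases h with ⟨rfl, h | h⟩ | ⟨rfl, h⟩ | ⟨rfl, h⟩ | ⟨rfl, h⟩
    · simp (disch := omega) only [HH_l]; exact xor_pair _ _ _
    · simp (disch := omega) only [HH_r]; exact xor_pair _ _ _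
    · simp (disch := omega) only [HH_d]; exact xor_pair _ _ _
    · simp (disch := omega) only [HH_r2]; exact xor_pair _ _ _
    · simp (disch := omega) only [HH_u]; exact xor_pair _ _ _
  · have h' : ¬ bH (2 * i + 1) y := by unfold bH at h ⊢; omega
    rw [HH_ind qx qy β β' _ y hy h, HH_ind qx qy β β' _ y hy h']

theorem not_pair (a b : Bool) : (!a).toNat + a.toNat = (!b).toNat + b.toNat := by
  cases a <;> cases b <;> rfl

theorem pairV (qx qy : ℕ) (β β' : St) (x j : ℕ) (hx : x < 512) (hj : j < 32768) :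
    (VV qx qy β x (2 * j)).toNat + (VV qx qy β x (2 * j + 1)).toNat =
    (VV qx qy β' x (2 * j)).toNat + (VV qx qy β' x (2 * j + 1)).toNat := by
  by_cases h : bV x (2 * j)
  · unfold bV at h
    rcases h with ⟨rfl, h | h⟩ | h | ⟨rfl, h⟩
    · simp (disch := omega) only [VV_d]; exact xor_pair _ _ _
    · simp (disch := omega) only [VV_u]; exact xor_pair _ _ _
    · obtain ⟨w, rfl⟩ : ∃ w, x = 410 + w := ⟨x - 410, by omega⟩
      obtain ⟨k, hk⟩ : ∃ k, 2 * j = 65024 + k := ⟨2 * j - 65024, by omega⟩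
      rw [hk, add_assoc]
      simp (disch := omega) only [VV_e]
      have : k = 462 ∨ k = 464 ∨ k = 466 ∨ k = 468 := by omega
      rcases this with g | g | g | g <;>
        simp (disch := omega) only [evec, if_pos, if_neg] <;> exact not_pair _ _
    · have : 2 * j = 65490 := by omega
      rw [this, show 65490 + 1 = 65491 by norm_num]
      simp only [VV_j1, VV_j2]
      cases β.2.1 <;> cases β'.2.1 <;> rfl
  · have h' : ¬ bV x (2 * j + 1) := by unfold bV at h ⊢; omega
    rw [VV_ind qx qy β β' x _ hx (by omega) h, VV_ind qx qy β β' x _ hx (by omega) h']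

theorem f1 (qx qy : ℕ) (β β' : St) (h : β.1 = β'.1) (y : ℕ) (hy : y < 65536) :
    labOf HH VV qx qy β 0 y = labOf HH VV qx qy β' 0 y := by
  unfold labOf
  rw [VV_ind qx qy β β' 0 y (by omega) (by omega) (by unfold bV; omega),
    VV_ind qx qy β β' 0 (y + 1) (by omega) (by omega) (by unfold bV; omega)]
  by_cases g : y = 65489
  · subst g
    simp (disch := omega) only [HH_l, h]
  · rw [HH_ind qx qy β β' 0 y hy (by unfold bH; omega),
      HH_ind qx qy β β' (0 + 1) y hy (by unfold bH; omega)]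

theorem f2 (qx qy : ℕ) (β β' : St) (h : β.2.2.1 = β'.2.2.1) (x : ℕ) (hx : x < 512) :
    labOf HH VV qx qy β x 0 = labOf HH VV qx qy β' x 0 := by
  unfold labOf
  rw [HH_ind qx qy β β' x 0 (by omega) (by unfold bH; omega),
    HH_ind qx qy β β' (x + 1) 0 (by omega) (by unfold bH; omega)]
  by_cases g : x = 431
  · subst g
    simp (disch := omega) only [VV_d, h]
  · rw [VV_ind qx qy β β' x 0 hx (by omega) (by unfold bV; omega),
      VV_ind qx qy β β' x (0 + 1) hx (by omega) (by unfold bV; omega)]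

theorem testBit_half {a b : ℕ} (h : a / 2 = b / 2) (i : ℕ) :
    a.testBit (i + 1) = b.testBit (i + 1) := by
  rw [Nat.testBit_add_one, Nat.testBit_add_one, h]

theorem cls_cases (x y : ℕ) (ha : ¬ (410 ≤ x ∧ x ≤ 425 ∧ 65485 ≤ y ∧ y ≤ 65493))
    (h0 : ¬ (¬ bH x y ∧ ¬ bH (x + 1) y ∧ ¬ bV x y ∧ ¬ bV x (y + 1))) :
    (y = 65489 ∧ x ≤ 409) ∨ (y = 65489 ∧ x = 426) ∨ (y = 65489 ∧ x = 427) ∨
      (x = 431 ∧ y ≤ 65486) ∨ (y = 65487 ∧ x = 409) ∨ (y = 65487 ∧ 426 ≤ x ∧ x ≤ 430) ∨
      (y = 65487 ∧ x = 431) ∨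
      (y = 65489 ∧ x = 429) ∨ (y = 65489 ∧ 430 ≤ x) ∨ (y = 65490 ∧ x = 429) ∨
      (y = 65491 ∧ x = 409) ∨ (y = 65491 ∧ 426 ≤ x ∧ x ≤ 428) ∨ (y = 65491 ∧ x = 429) ∨
      (y = 65493 ∧ x = 409) ∨ (y = 65493 ∧ 426 ≤ x ∧ x ≤ 430) ∨ (y = 65493 ∧ x = 431) ∨
      (x = 431 ∧ 65494 ≤ y) := by
  have h1 : bH x y ∨ bH (x + 1) y ∨ bV x y ∨ bV x (y + 1) := by
    by_contra hc
    simp only [not_or] at hc
    exact h0 hc
  clear h0
  unfold bH bV at h1
  have hy : y ≤ 65486 ∨ y = 65487 ∨ y = 65488 ∨ y = 65489 ∨ y = 65490 ∨ y = 65491 ∨ y = 65492 ∨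
    y = 65493 ∨ 65494 ≤ y := by omega
  have hx : x ≤ 408 ∨ x = 409 ∨ (410 ≤ x ∧ x ≤ 425) ∨ x = 426 ∨ x = 427 ∨ x = 428 ∨ x = 429 ∨
    x = 430 ∨ x = 431 ∨ 432 ≤ x := by omega
  rcases hy with g | g | g | g | g | g | g | g | g <;>
    rcases hx with k | k | k | k | k | k | k | k | k | k <;>
    first
    | (exfalso; omega)
    | (clear h1 ha
       first
       | (left; omega)
       | (iterate 1 right
          left; omega)
       | (iterate 2 right
          left; omega)
       | (iterate 3 right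
          left; omega)
       | (iterate 4 right
          left; omega)
       | (iterate 5 right
          left; omega)
       | (iterate 6 right
          left; omega)
       | (iterate 7 right
          left; omega)
       | (iterate 8 right
          left; omega)
       | (iterate 9 right
          left; omega)
       | (iterate 10 right
          left; omega)
       | (iterate 11 right
          left; omega)
       | (iterate 12 right
          left; omega)
       | (iterate 13 right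
          left; omega)
       | (iterate 14 right
          left; omega)
       | (iterate 15 right
          left; omega)
       | (iterate 16 right
          omega))

theorem cls (x y : ℕ) (hx : x < 512) (hy : y < 65536)
    (ha : ¬ (410 ≤ x ∧ x ≤ 425 ∧ 65485 ≤ y ∧ y ≤ 65493)) :
    (∀ qx qy (β β' : St), labOf HH VV qx qy β x y = labOf HH VV qx qy β' x y) ∨
    (∀ qx qx' qy (β β' : St), qx / 2 = qx' / 2 → β.1 = β'.1 →
      labOf HH VV qx qy β x y = labOf HH VV qx' qy β' x y) ∨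
    (∀ qx qy qy' (β β' : St), qy / 2 = qy' / 2 → β.2.2.1 = β'.2.2.1 →
      labOf HH VV qx qy β x y = labOf HH VV qx qy' β' x y) ∨
    (∀ qx qy qx' qy' (β β' : St), β.2.1 = β'.2.1 →
      labOf HH VV qx qy β x y = labOf HH VV qx' qy' β' x y) ∨
    (∀ qx qy qx' qy' (β β' : St), β.2.2.2 = β'.2.2.2 →
      labOf HH VV qx qy β x y = labOf HH VV qx' qy' β' x y) := by
  by_cases h0 : ¬ bH x y ∧ ¬ bH (x + 1) y ∧ ¬ bV x y ∧ ¬ bV x (y + 1)
  · left
    intro qx qy β β'
    unfold labOf
    rw [HH_ind qx qy β β' x y hy h0.1, HH_ind qx qy β β' (x + 1) y hy h0.2.1,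
      VV_ind qx qy β β' x y hx (by omega) h0.2.2.1,
      VV_ind qx qy β β' x (y + 1) hx (by omega) h0.2.2.2]
  right
  have := cls_cases x y ha h0
  rcases this with k | k | k | k | k | k | k | k | k | k | k | k | k | k | k | k | k
  · left
    intro qx qx' qy β β' h1 h2
    obtain ⟨rfl, k⟩ := k
    simp (disch := omega) only [labOf, HH_l, VV_row, h2, testBit_half h1 7]
  · left
    intro qx qx' qy β β' h1 h2
    obtain ⟨rfl, rfl⟩ := k
    simp (disch := first | omega | (unfold bV; omega)) only [labOf, HH_l, VV_top0, h2]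
  · left
    intro qx qx' qy β β' h1 h2
    obtain ⟨rfl, rfl⟩ := k
    simp (disch := first | omega | (unfold bV; omega) | (unfold bH; omega)) only
      [labOf, HH_l, HH_top0, VV_top0, h2]
  · right; left
    intro qx qy qy' β β' h1 h2
    obtain ⟨rfl, k⟩ := k
    simp (disch := omega) only [labOf, HH_col, VV_d, h2, testBit_half h1 14]
  · right; left
    intro qx qy qy' β β' h1 h2
    obtain ⟨rfl, rfl⟩ := k
    simp (disch := first | omega | (unfold bV; omega) | (unfold bH; omega)) only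
      [labOf, HH_d, HH_top0, VV_top0, h2]
  · right; left
    intro qx qy qy' β β' h1 h2
    obtain ⟨rfl, k⟩ := k
    simp (disch := first | omega | (unfold bV; omega) | (unfold bH; omega)) only
      [labOf, HH_d, VV_top0, h2]
  · right; left
    intro qx qy qy' β β' h1 h2
    obtain ⟨rfl, rfl⟩ := k
    simp (disch := first | omega | (unfold bV; omega) | (unfold bH; omega)) only
      [labOf, HH_d, HH_top0, VV_d, VV_top0, h2]
  · right; right; left
    intro qx qy qx' qy' β β' h2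
    obtain ⟨rfl, rfl⟩ := k
    simp (disch := first | omega | (unfold bV; omega) | (unfold bH; omega)) only
      [labOf, Nat.reduceAdd, HH_r, HH_top0, VV_j1, VV_top0, h2]
  · right; right; left
    intro qx qy qx' qy' β β' h2
    obtain ⟨rfl, k⟩ := k
    simp (disch := first | omega | (unfold bV; omega) | (unfold bH; omega)) only
      [labOf, HH_r, VV_top0, h2]
  · right; right; left
    intro qx qy qx' qy' β β' h2
    obtain ⟨rfl, rfl⟩ := k
    simp (disch := first | omega | (unfold bV; omega) | (unfold bH; omega)) only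
      [labOf, Nat.reduceAdd, HH_top0, VV_j1, VV_j2, h2]
  · right; right; left
    intro qx qy qx' qy' β β' h2
    obtain ⟨rfl, rfl⟩ := k
    simp (disch := first | omega | (unfold bV; omega) | (unfold bH; omega)) only
      [labOf, HH_r2, HH_top0, VV_top0, h2]
  · right; right; left
    intro qx qy qx' qy' β β' h2
    obtain ⟨rfl, k⟩ := k
    simp (disch := first | omega | (unfold bV; omega) | (unfold bH; omega)) only
      [labOf, HH_r2, VV_top0, h2]
  · right; right; left
    intro qx qy qx' qy' β β' h2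
    obtain ⟨rfl, rfl⟩ := k
    simp (disch := first | omega | (unfold bV; omega) | (unfold bH; omega)) only
      [labOf, Nat.reduceAdd, HH_r2, HH_top0, VV_j2, VV_top0, h2]
  · right; right; right
    intro qx qy qx' qy' β β' h2
    obtain ⟨rfl, rfl⟩ := k
    simp (disch := first | omega | (unfold bV; omega) | (unfold bH; omega)) only
      [labOf, HH_u, HH_top0, VV_top0, h2]
  · right; right; right
    intro qx qy qx' qy' β β' h2
    obtain ⟨rfl, k⟩ := k
    simp (disch := first | omega | (unfold bV; omega) | (unfold bH; omega)) only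
      [labOf, HH_u, VV_top0, h2]
  · right; right; right
    intro qx qy qx' qy' β β' h2
    obtain ⟨rfl, rfl⟩ := k
    simp (disch := first | omega | (unfold bV; omega) | (unfold bH; omega)) only
      [labOf, HH_u, HH_top0, VV_u, VV_top0, h2]
  · right; right; right
    intro qx qy qx' qy' β β' h2
    obtain ⟨rfl, k⟩ := k
    simp (disch := first | omega | (unfold bV; omega) | (unfold bH; omega)) only
      [labOf, HH_top0, VV_u, h2]

end Pool.Agent.Lib.MP_c73c36_mp
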