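import Pool.Agent.Lib.MP_c73c36_mp.Defs

/-!
The canonical labelling satisfies the rules: blocks `D E R Q L`.
-/

set_option autoImplicit false

namespace Pool.Agent.Lib.MP_c73c36_mp

theorem agree_succ' (a b j : ℕ) (h : 1 ≤ j) :
    agree a b j = (agree a b (j - 1) && (a.testBit (j - 1) == b.testBit (j - 1))) := by
  obtain ⟨m, rfl⟩ : ∃ m, j = m + 1 := ⟨j - 1, by omega⟩
  rfl

theorem carry_succ' (a j : ℕ) (h : 1 ≤ j) :
    carry a j = (carry a (j - 1) && a.testBit (j - 1)) := by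
  obtain ⟨m, rfl⟩ : ∃ m, j = m + 1 := ⟨j - 1, by omega⟩
  rfl

theorem agree8 (qx c : ℕ) (hc : c < 256) : agree qx c 8 = decide (qx % 256 = c) := by
  rw [Bool.eq_iff_iff, agree_iff]
  simp only [decide_eq_true_eq]
  omega

theorem agree9 (qy j : ℕ) (hj : j < 512) : agree qy j 9 = decide (qy % 512 = j) := by
  rw [Bool.eq_iff_iff, agree_iff]
  simp only [decide_eq_true_eq]
  omega

theorem compD (qx qy c j : ℕ) (hj : j < 512) :
    sat (.pass, vD c j) (HD qx qy j, HD qx qy j, VD qx c j, VD qx c (j + 1)) = true := by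
  have : j = 0 ∨ (1 ≤ j ∧ j ≤ 8) ∨ j = 9 ∨ 10 ≤ j := by omega
  rcases this with h | h | h | h
  · subst h; simp [sat, hsat, vsat, vD, VD, agree]
  · simp (disch := omega) only [sat, hsat, vsat, vD, VD, HD, if_pos, if_neg, Nat.add_sub_cancel]
    rw [agree_succ' qx c j h.1]; simp
  · subst h; simp [sat, hsat, vsat, vD, VD]
  · simp (disch := omega) only [sat, hsat, vsat, vD, VD, if_neg]
    simp

theorem compE (qx : ℕ) (β : St) (c j : ℕ) :
    sat (hE j, .zero) (HE β c j, HE β (c + 1) j, VE qx c j, VE qx c (j + 1)) = true := by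
  by_cases h : j = 465
  · subst h; simp [sat, hsat, vsat, hE, HE, VE, par_succ]
  · simp [sat, hsat, vsat, hE, HE, VE, h]

theorem compR (qx Y c j : ℕ) (hc : c < 256) :
    sat (romRule (rom (Y - 1) c j))
      (HRm qx Y c j, HRm qx Y (c + 1) j, agree qx c 8, agree qx c 8) = true := by
  rw [agree8 qx c hc]
  rcases Nat.lt_trichotomy (qx % 256) c with h | h | h
  · have h' : qx % 256 ≠ c := by omega
    simp (disch := omega) only [HRm, if_pos]
    cases rom (Y - 1) c j <;> simp [romRule, rORL, cross, sat, hsat, vsat, h']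
  · simp (disch := omega) only [HRm, if_pos, if_neg]
    rw [h]
    cases rom (Y - 1) c j <;> simp [romRule, rORL, cross, sat, hsat, vsat]
  · have h' : qx % 256 ≠ c := by omega
    simp (disch := omega) only [HRm, if_neg]
    cases rom (Y - 1) c j <;> simp [romRule, rORL, cross, sat, hsat, vsat, h']

theorem compQ_h (qx qy : ℕ) (β : St) (c j : ℕ) (hc : c < 256) (u : Bool) :
    hsat (hQ c j) (HQ qx qy c j) (HQ qx qy (c + 1) j) (VQ qx qy β c j) u = true := by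
  have : (c = 255 ∧ 1 ≤ j ∧ j ≤ 9) ∨ (c = 255 ∧ j = 10) ∨ (c = 255 ∧ (j = 0 ∨ 11 ≤ j)) ∨
    (c = 16 ∧ j = 10) ∨ (c ≠ 255 ∧ ¬ (c = 16 ∧ j = 10)) := by omega
  rcases this with h | h | h | h | h <;>
    simp (disch := omega) only [hsat, hQ, HQ, HD, VQ, if_pos, if_neg]
  · simp [testBit_succ_carry]
  · simp
  · simp
  · simp [h.1]
  · simp

theorem compQ_v (qx qy : ℕ) (β : St) (c j : ℕ) (hc : c < 256) (r : Bool) :
    vsat (vQ c j) (HQ qx qy c j) r (VQ qx qy β c j) (VQ qx qy β c (j + 1)) = true := by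
  have : c = 175 ∨ (c = 255 ∧ j = 0) ∨ (c = 255 ∧ 1 ≤ j ∧ j ≤ 9) ∨ (c = 255 ∧ j = 10) ∨
    (c = 255 ∧ 11 ≤ j) ∨ (c = 25 ∧ j = 9) ∨ (c = 25 ∧ j ≠ 9) ∨ (1 ≤ c ∧ c ≤ 16) ∨
    (17 ≤ c ∧ c ≤ 24 ∧ j + 16 = c) ∨ (17 ≤ c ∧ c ≤ 24 ∧ j + 16 < c) ∨
    (17 ≤ c ∧ c ≤ 24 ∧ c < j + 16) ∨ (c = 0 ∨ (26 ≤ c ∧ c ≠ 175 ∧ c ≠ 255)) := by omega
  rcases this with h | h | h | h | h | h | h | h | h | h | h | h <;>
    simp (disch := omega) only [vsat, vQ, HQ, HD, VQ, if_pos, if_neg, Nat.add_sub_cancel]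
  · simp [par_succ]
  · simp [h.2, carry]
  · rw [carry_succ' qx j h.2.1]; simp
  · simp
  · simp
  · simp [h.2]
  · simp
  · simp
  · rw [show c - 17 = j - 1 by omega]; simp
  · simp
  · simp
  · simp

theorem compL_h (qx qy : ℕ) (β : St) (Y c j : ℕ) (hc : c < 256) (hY : 1 ≤ Y) (hY' : Y ≤ 126)
    (hne : c ≠ 25 + Y) (u : Bool) :
    hsat (hL c j) (HL qx qy Y c j) (HL qx qy Y (c + 1) j) (VL qx qy β Y c j) u = true := by
  have : c = 0 ∨ (1 ≤ c ∧ c ≤ 9) ∨ c = 10 ∨ (11 ≤ c ∧ c < 25 + Y) ∨ (25 + Y < c ∧ c ≠ 255) ∨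
    c = 255 := by omega
  rcases this with h | h | h | h | h | h <;>
    simp (disch := omega) only [hsat, hL, HL, VL, inp, if_pos, if_neg, Nat.add_sub_cancel]
  · simp [h, agree]
  · rw [agree_succ' qy j c h.1]; simp [Bool.and_assoc]
  · simp [h]
  · simp
  · simp
  · simp

theorem compL_v (qx qy : ℕ) (β : St) (Y c j : ℕ) (hne : c ≠ 25 + Y) (l r : Bool) :
    vsat (vL c) l r (VL qx qy β Y c j) (VL qx qy β Y c (j + 1)) = true := by
  have : c = 175 ∨ (c ≤ 25) ∨ (c ≠ 175 ∧ 25 < c ∧ c < 25 + Y) ∨ (c ≠ 175 ∧ 25 + Y < c) := by omega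
  rcases this with h | h | h | h <;>
    simp (disch := omega) only [vsat, vL, VL, if_pos, if_neg]
  · simp [par_succ]
  · simp
  · simp
  · simp

theorem compORT (qx qy : ℕ) (β : St) (Y j : ℕ) (hj : j < 512) (hY : 1 ≤ Y) (hY' : Y ≤ 126) :
    sat rORT (HL qx qy Y (25 + Y) j, HL qx qy Y (25 + Y + 1) j, VL qx qy β Y (25 + Y) j,
      VL qx qy β Y (25 + Y) (j + 1)) = true := by
  have e : 25 + Y - 26 = Y - 1 := by omega
  rcases Nat.lt_trichotomy (qy % 512) j with h | h | h <;>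
    simp (disch := omega) only [sat, rORT, hsat, vsat, HL, VL, inp, if_pos, if_neg, agree9, e]
  · have : qy % 512 ≠ j := by omega
    simp [this, h, h.le]
  · simp [h]
  · have : qy % 512 ≠ j := by omega
    simp [this]

end Pool.Agent.Lib.MP_c73c36_mp
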