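import Pool.Agent.Lib.MP_c73c36_mp.Pla

/-!
The canonical labelling satisfies the rules: block `P`.
-/

set_option autoImplicit false
set_option linter.unusedSimpArgs false
set_option linter.unnecessarySeqFocus false

namespace Pool.Agent.Lib.MP_c73c36_mp

theorem hsat_litRule (o : Option Bool) (l d a u : Bool) (h : o = none ∨ d = a) :
    hsat (litRule o) l (l && litOk o a) d u = true := by
  cases o with
  | none => simp [litRule, hsat, litOk]
  | some b =>
    rcases h with h | h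
    · cases h
    · subst h; simp [litRule, hsat, litOk]

theorem VP_colIn (qx qy : ℕ) (β : St) (c j : ℕ) (hx : qx < 512) (hy : qy < 65536)
    (hj : j < 460) : lit j c = none ∨ VP qx qy β c j = colIn qx qy c := by
  have ho := ocol_lt hj
  have : (c = 0 ∨ 153 ≤ c ∨ (c = 152 ∧ j < 128)) ∨ (1 ≤ c ∧ c ≤ 16) ∨ c = 25 ∨
    (17 ≤ c ∧ c ≤ 151 ∧ c ≠ 25) ∨ (c = 152 ∧ 128 ≤ j) := by omega
  rcases this with h | h | h | h | h
  · left; simp (disch := omega) only [lit, if_neg]
  · right; simp (disch := omega) only [VP, colIn, inp, if_pos, if_neg]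
  · right; simp (disch := omega) only [VP, colIn, inp, if_pos, if_neg]; rw [h]
  · right; simp (disch := omega) only [VP, colIn, if_pos, if_neg]
  · right; simp (disch := omega) only [VP, colIn, if_pos, if_neg]
    rw [h.1, val_flag qx qy j hx hy h.2]

theorem compP_h1 (qx qy : ℕ) (β : St) (c j : ℕ) (hx : qx < 512) (hy : qy < 65536) (hc : c < 256)
    (hj : j < 460) (u : Bool) :
    hsat (hP c j) (HP qx qy β c j) (HP qx qy β (c + 1) j) (VP qx qy β c j) u = true := by
  have : c = 0 ∨ (1 ≤ c ∧ c ≤ 169) ∨ c = 170 ∨ (171 ≤ c ∧ c ≠ 255) ∨ c = 255 := by omega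
  rcases this with h | h | h | h | h <;>
    simp (disch := omega) only [hP, HP, if_pos, if_neg]
  · subst h
    have ho := ocol_lt hj
    simp (disch := omega) only [hsat, rowv, lit, if_neg, litOk]; rfl
  · exact hsat_litRule _ _ _ _ _ (VP_colIn qx qy β c j hx hy hj)
  all_goals simp [hsat]

theorem compP_h2 (qx qy : ℕ) (β : St) (c j : ℕ) (hc : c < 256) (hj : 460 ≤ j) (hj' : j < 512) :
    hsat (hP c j) (HP qx qy β c j) (HP qx qy β (c + 1) j) (VP qx qy β c j)
      (VP qx qy β c (j + 1)) = true := by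
  have : j = 463 ∨ j = 465 ∨ j = 467 ∨ j = 469 ∨ j = 511 ∨
    (j ≠ 463 ∧ j ≠ 465 ∧ j ≠ 467 ∧ j ≠ 469 ∧ j ≠ 511) := by omega
  rcases this with g | g | g | g | g | g
  · have : c ≤ 152 ∨ c = 153 ∨ (154 ≤ c ∧ c ≤ 174) ∨ c = 175 ∨ (176 ≤ c ∧ c ≠ 255) ∨ c = 255 := by
      omega
    rcases this with h | h | h | h | h | h <;>
      simp (disch := omega) only [hP, HP, VP, if_pos, if_neg, hsat, par_succ, par_odd] <;> simp
  · have : c ≤ 170 ∨ c = 171 ∨ c = 172 ∨ c = 173 ∨ 174 ≤ c := by omega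
    rcases this with h | h | h | h | h <;>
      simp (disch := omega) only [hP, HP, VP, if_pos, if_neg, hsat, par_succ, par_odd] <;> simp
  · have : c ≤ 152 ∨ c = 153 ∨ (154 ≤ c ∧ c ≤ 172) ∨ c = 173 ∨ (174 ≤ c ∧ c ≠ 255) ∨ c = 255 := by
      omega
    rcases this with h | h | h | h | h | h <;>
      simp (disch := omega) only [hP, HP, VP, if_pos, if_neg, hsat, par_succ, par_odd] <;> simp
  · have : c ≤ 152 ∨ c = 153 ∨ (154 ≤ c ∧ c ≤ 174) ∨ c = 175 ∨ (176 ≤ c ∧ c ≠ 255) ∨ c = 255 := by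
      omega
    rcases this with h | h | h | h | h | h <;>
      simp (disch := omega) only [hP, HP, VP, if_pos, if_neg, hsat, par_succ, par_odd] <;> simp
  · have : c = 0 ∨ (1 ≤ c ∧ c ≤ 16) ∨ c = 17 ∨ (18 ≤ c ∧ c ≠ 255) ∨ c = 255 := by omega
    rcases this with h | h | h | h | h <;>
      simp (disch := omega) only [hP, HP, VP, if_pos, if_neg, hsat, Nat.add_sub_cancel]
    · simp [h, carry]
    · rw [carry_succ' qy c h.1]; simp
    all_goals simp
  · by_cases h : c = 255 <;> simp (disch := omega) only [hP, HP, if_pos, if_neg, hsat] <;> simp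

theorem vsat_orRule (o l r d : Bool) : vsat (orRule o) l r d (d || (o && l)) = true := by
  cases o <;> simp [orRule, vsat]

theorem compP_v1 (qx qy : ℕ) (β : St) (c j : ℕ) (hc : c < 256) (hj : j < 460) (r : Bool) :
    vsat (vP c j) (HP qx qy β c j) r (VP qx qy β c j) (VP qx qy β c (j + 1)) = true := by
  have : c = 175 ∨ (1 ≤ c ∧ c ≤ 16) ∨ c = 25 ∨ (17 ≤ c ∧ c ≤ 151 ∧ c ≠ 25) ∨ c = 152 ∨
    (154 ≤ c ∧ c ≤ 169) ∨ c = 173 ∨ (c = 0 ∨ c = 153 ∨ (170 ≤ c ∧ c ≠ 173 ∧ c ≠ 175)) := by omega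
  rcases this with h | h | h | h | h | h | h | h
  · simp (disch := omega) only [vP, VP, if_pos, if_neg, vsat, par_succ]; simp
  · simp (disch := omega) only [vP, VP, out, if_pos, if_neg]; simp [orRule, vsat]
  · simp (disch := omega) only [vP, VP, out, if_pos, if_neg]; simp [orRule, vsat]
  · simp (disch := omega) only [vP, VP, out, if_pos, if_neg]; simp [orRule, vsat]
  · simp (disch := omega) only [vP, VP, HP, if_pos, if_neg]; exact vsat_orRule _ _ _ _
  · simp (disch := omega) only [vP, VP, HP, if_pos, if_neg]; exact vsat_orRule _ _ _ _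
  · simp (disch := omega) only [vP, VP, out, if_pos, if_neg]; simp [orRule, vsat]
  · simp (disch := omega) only [vP, VP, out, if_pos, if_neg]; simp [orRule, vsat]

theorem par_154 (c : ℕ) (h : 154 ≤ c) : par c = (c - 154).testBit 0 := by
  unfold par
  simp only [Nat.testBit_zero, decide_eq_decide]
  omega

theorem tap_ok (a s b p : Bool) : ((a && (s == b)) == (!!a && ((s ^^ p) == (b ^^ p)))) = true := by
  cases a <;> cases s <;> cases b <;> cases p <;> rfl

theorem compP_vA (qx qy : ℕ) (β : St) (c j : ℕ) (h : 154 ≤ c ∧ c ≤ 169) (hj : 460 ≤ j)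
    (hj' : j < 512) (hi : j ≠ 461) (r : Bool) :
    vsat (vP c j) (HP qx qy β c j) r (VP qx qy β c j) (VP qx qy β c (j + 1)) = true := by
  have : j = 460 ∨ j = 462 ∨ j = 463 ∨ j = 464 ∨ j = 465 ∨ j = 466 ∨ j = 467 ∨ j = 468 ∨ j = 469 ∨
    (470 ≤ j ∧ j ≤ 510) ∨ j = 511 := by omega
  rcases this with g | g | g | g | g | g | g | g | g | g | g <;>
    simp (disch := omega) only [vP, vA, VP, HP, evec, if_pos, if_neg, vsat, par_154]
  · simp [g]
  · simp
  · unfold m1; cases m2 β (c - 154) <;> cases β.2.2.1 <;> cases (c - 154).testBit 0 <;> rfl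
  · simp
  · exact tap_ok _ _ _ _
  · simp
  · exact tap_ok _ _ _ _
  · simp
  · unfold m4; cases β.2.2.2 <;> cases (c - 154).testBit 3 <;> cases (c - 154).testBit 0 <;> rfl
  · simp
  · simp

theorem compP_v2 (qx qy : ℕ) (β : St) (c j : ℕ) (hc : c < 256) (h0 : ¬ (154 ≤ c ∧ c ≤ 169))
    (hj : 460 ≤ j) (hj' : j < 512) (r : Bool) :
    vsat (vP c j) (HP qx qy β c j) r (VP qx qy β c j) (VP qx qy β c (j + 1)) = true := by
  have : c = 175 ∨ (1 ≤ c ∧ c ≤ 16) ∨ c = 25 ∨ (17 ≤ c ∧ c ≤ 151 ∧ c ≠ 25) ∨ c = 152 ∨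
    c = 173 ∨ (c = 0 ∨ c = 153 ∨ (170 ≤ c ∧ c ≠ 173 ∧ c ≠ 175)) := by omega
  rcases this with h | h | h | h | h | h | h
  · have : j = 460 ∨ (461 ≤ j ∧ j < 463) ∨ j = 463 ∨ (464 ≤ j ∧ j < 469) ∨ j = 469 ∨ 470 ≤ j := by
      omega
    rcases this with g | g | g | g | g | g <;>
      simp (disch := omega) only [vP, VP, if_pos, if_neg, vsat, par_succ] <;> simp
  · have : j = 460 ∨ (461 ≤ j ∧ j < 511) ∨ j = 511 := by omega
    rcases this with g | g | g <;>
      simp (disch := omega) only [vP, VP, HP, if_pos, if_neg, vsat, testBit_succ_carry] <;> simp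
  · have : j = 460 ∨ (461 ≤ j ∧ j < 511) ∨ j = 511 := by omega
    rcases this with g | g | g <;>
      simp (disch := omega) only [vP, VP, if_pos, if_neg, vsat] <;> simp
  · have : j = 460 ∨ (461 ≤ j ∧ j < 511) ∨ j = 511 := by omega
    rcases this with g | g | g <;>
      simp (disch := omega) only [vP, VP, if_pos, if_neg, vsat] <;> simp
  · have : j = 460 ∨ (461 ≤ j ∧ j < 511) ∨ j = 511 := by omega
    rcases this with g | g | g <;>
      simp (disch := omega) only [vP, VP, if_pos, if_neg, vsat] <;> simp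
  · have : j = 460 ∨ (461 ≤ j ∧ j < 465) ∨ j = 465 ∨ j = 466 ∨ j = 467 ∨ (468 ≤ j ∧ j < 511) ∨
      j = 511 := by omega
    rcases this with g | g | g | g | g | g | g <;>
      simp (disch := omega) only [vP, VP, if_pos, if_neg, vsat] <;> simp
  · have : j = 460 ∨ (461 ≤ j ∧ j < 511) ∨ j = 511 := by omega
    rcases this with g | g | g <;>
      simp (disch := omega) only [vP, VP, if_pos, if_neg, vsat] <;> simp

theorem compP (qx qy : ℕ) (β : St) (c j : ℕ) (hx : qx < 512) (hy : qy < 65536) (hc : c < 256)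
    (hj : j < 512) (hi : ¬ (154 ≤ c ∧ c ≤ 169 ∧ j = 461)) :
    sat (hP c j, vP c j) (HP qx qy β c j, HP qx qy β (c + 1) j, VP qx qy β c j,
      VP qx qy β c (j + 1)) = true := by
  unfold sat
  rw [Bool.and_eq_true]
  constructor
  · by_cases h : j < 460
    · exact compP_h1 qx qy β c j hx hy hc h _
    · exact compP_h2 qx qy β c j hc (by omega) hj
  · by_cases h : j < 460
    · exact compP_v1 qx qy β c j hc h _
    · by_cases h' : 154 ≤ c ∧ c ≤ 169
      · exact compP_vA qx qy β c j h' (by omega) hj (by omega) _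
      · exact compP_v2 qx qy β c j hc h' (by omega) hj _

end Pool.Agent.Lib.MP_c73c36_mp
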