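import Pool.Agent.Lib.MP_c73c36_mp.Sim

/-!
The layout of the macro-tile (rules of the cells) and its canonical labelling.

A macro-tile has 2 x 128 blocks of 256 x 512 cells. Bottom row of blocks: `D` (decoder of the
column address) and `Q` (entry of the address). Top row: `E` and `P` (a programmable logic array
computing the table of forbidden states of the simulated cell, and the array that checks the
state of the simulated cell against the table). Middle rows: `R` (read-only memory holding
the tables of the cells of the blocks `P Q D E L`) and `L` (decoder of the row address).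
-/

set_option autoImplicit false

namespace Pool.Agent.Lib.MP_c73c36_mp

/-- Horizontal part of the rule of a cell. -/
inductive HR : Type
  | pass | zero | one | neg | orl | andb (b : Bool) | xor | eqd | cD | cU | jog | free

/-- Vertical part of the rule of a cell. -/
inductive VR : Type
  | pass | zero | one | neg | oru | andb (b : Bool) | xor | copy | eql | tap (b : Bool)
  | tap0 (b : Bool) | imp | free

def hsat : HR → Bool → Bool → Bool → Bool → Bool
  | .pass, l, r, _, _ => r == l
  | .zero, _, r, _, _ => !r
  | .one, _, r, _, _ => r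
  | .neg, l, r, _, _ => r == !l
  | .orl, l, r, d, _ => r == (l || d)
  | .andb b, l, r, d, _ => r == (l && (d == b))
  | .xor, l, r, d, _ => r == (l ^^ d)
  | .eqd, l, r, d, _ => (r == l) && (l == d)
  | .cD, l, r, d, _ => (l == d) && !r
  | .cU, l, r, _, u => (l == !u) && !r
  | .jog, l, r, _, u => !l && (r == u)
  | .free, _, _, _, _ => true

def vsat : VR → Bool → Bool → Bool → Bool → Bool
  | .pass, _, _, d, u => u == d
  | .zero, _, _, _, u => !u
  | .one, _, _, _, u => u
  | .neg, _, _, d, u => u == !d
  | .oru, l, _, d, u => u == (d || l)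
  | .andb b, l, _, d, u => u == (d && (l == b))
  | .xor, l, _, d, u => u == (d ^^ l)
  | .copy, l, _, _, u => u == l
  | .eql, l, _, d, u => (u == d) && (d == l)
  | .tap b, l, _, d, u => d == (!u && (l == b))
  | .tap0 b, l, _, d, u => !u && (d == (l == b))
  | .imp, _, _, d, u => u || !d
  | .free, _, _, _, _ => true

abbrev Rule : Type := HR × VR

def sat (ρ : Rule) (s : St) : Bool :=
  hsat ρ.1 s.1 s.2.1 s.2.2.1 s.2.2.2 && vsat ρ.2 s.1 s.2.1 s.2.2.1 s.2.2.2

def decw (w : ℕ) : St := (w.testBit 1, w.testBit 2, w.testBit 0, w.testBit 3)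

def cross : Rule := (.pass, .pass)
def rORL : Rule := (.orl, .pass)
def rORT : Rule := (.zero, .oru)

/-! The program of the logic array. -/

def Ylit (t : ℕ) : Option ℕ :=
  if t = 0 then some 0 else if t = 1 then some 127 else if t < 128 then some (t - 1)
  else if t < 144 then some 127 else if t < 176 then some 0 else if t < 192 then some 127
  else if t < 208 then none else some ((t - 208) / 2 + 1)

def clit (t : ℕ) : Option ℕ := if 2 ≤ t ∧ t < 128 then some (24 + t) else none

def Xlit (t : ℕ) : Option Bool :=
  if t < 2 then none else if t < 160 then some true else if t < 192 then some false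
  else if t < 208 then some true else some false

def ocol (t : ℕ) : ℕ := if t < 208 then t - 128 else (t - 208) / 2

def opol (t : ℕ) : Bool := if t < 208 then true else t.testBit 0

def lit (t c : ℕ) : Option Bool :=
  if 10 ≤ c ∧ c ≤ 16 then (Ylit t).map (fun n => n.testBit (c - 10))
  else if 17 ≤ c ∧ c ≤ 24 then (clit t).map (fun n => n.testBit (c - 17))
  else if c = 25 then Xlit t
  else if 128 ≤ t ∧ c = 26 + ocol t then some (opol t)
  else if c = 152 ∧ 192 ≤ t ∧ t < 208 then some false
  else none

def outF (t w : ℕ) : Bool :=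
  if t < 2 then false else if t < 128 then !sat rORT (decw w)
  else if t < 208 then decide (w = (t - 128) % 16)
  else !sat (if t.testBit 0 then rORL else cross) (decw w)

def out (t c : ℕ) : Bool :=
  if c = 152 then decide (t < 128) else if 154 ≤ c ∧ c ≤ 169 then outF t (c - 154) else false

def litRule : Option Bool → HR
  | none => .pass
  | some b => .andb b

def orRule (b : Bool) : VR := if b then .oru else .pass

/-! The rules of the programmed blocks. -/

def hP (c j : ℕ) : HR :=
  if j < 460 then
    (if c = 0 then .one else if c ≤ 169 then litRule (lit j c)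
     else if c = 170 ∨ c = 255 then .zero else .pass)
  else if j = 465 then
    (if c = 171 then .zero else if c = 172 then .pass else if c = 173 then .jog else .neg)
  else if c = 255 then .zero
  else if j = 463 then
    (if c = 153 then .free else if 154 ≤ c ∧ c ≤ 174 then .neg else if c = 175 then .cD else .pass)
  else if j = 467 then
    (if c = 153 then .free else if 154 ≤ c ∧ c ≤ 172 then .neg else if c = 173 then .cD else .pass)
  else if j = 469 then
    (if c = 153 then .free else if 154 ≤ c ∧ c ≤ 174 then .neg else if c = 175 then .cU else .pass)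
  else if j = 511 then
    (if c = 0 then .one else if c ≤ 16 then .andb true else if c = 17 then .zero else .pass)
  else .pass

def vA (w j : ℕ) : VR :=
  if j = 461 then .imp
  else if j = 462 ∨ j = 464 ∨ j = 466 ∨ j = 468 then .neg
  else if j = 463 then .tap false
  else if j = 465 then .tap (w.testBit 1 ^^ w.testBit 0)
  else if j = 467 then .tap (w.testBit 2 ^^ w.testBit 0)
  else if j = 469 then .tap0 (w.testBit 3 ^^ w.testBit 0)
  else .pass

def vP (c j : ℕ) : VR :=
  if c = 175 then
    (if j < 463 then .neg else if j = 463 then .zero else if j < 469 then .pass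
     else if j = 469 then .free else .neg)
  else if j = 511 then (if 1 ≤ c ∧ c ≤ 16 then .xor else if c = 25 then .pass else .zero)
  else if j < 460 then orRule (out j c)
  else if j = 460 then (if 17 ≤ c ∧ c ≤ 152 ∧ c ≠ 25 then .zero else .pass)
  else if 154 ≤ c ∧ c ≤ 169 then vA (c - 154) j
  else if c = 173 then
    (if j = 465 then .free else if j = 466 then .neg else if j = 467 then .zero else .pass)
  else .pass

def hQ (c j : ℕ) : HR :=
  if c = 255 then (if 1 ≤ j ∧ j ≤ 9 then .xor else if j = 10 then .pass else .zero)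
  else if c = 16 ∧ j = 10 then .eqd else .pass

def vQ (c j : ℕ) : VR :=
  if c = 175 then .neg
  else if c = 255 then
    (if j = 0 then .one else if j ≤ 9 then .andb true else if j = 10 then .zero else .pass)
  else if c = 25 ∧ j = 9 then .eql
  else if 17 ≤ c ∧ c ≤ 24 ∧ j + 16 = c then .copy else .pass

def vD (c j : ℕ) : VR :=
  if j = 0 then .one else if j ≤ 8 then .andb (c.testBit (j - 1)) else .pass

def hE (j : ℕ) : HR := if j = 465 then .neg else .pass

def hL (c j : ℕ) : HR :=
  if 1 ≤ c ∧ c ≤ 9 then .andb (j.testBit (c - 1)) else if c = 255 then .zero else .pass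

def vL (c : ℕ) : VR := if c = 175 then .neg else .pass

def blk (B c j : ℕ) : Rule :=
  if B = 0 then (hP c j, vP c j) else if B = 1 then (hQ c j, vQ c j)
  else if B = 2 then (.pass, vD c j) else if B = 3 then (hE j, .zero) else (hL c j, vL c)

/-- The content of the read-only memory. -/
def rom (k c j : ℕ) : Bool :=
  if k < 80 then !sat (blk (k / 16) c j) (decw (k % 16)) else false

def romRule (b : Bool) : Rule := if b then rORL else cross

def ruleB (X Y c j : ℕ) : Rule :=
  if Y = 0 then (if X = 0 then blk 2 c j else blk 1 c j)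
  else if Y = 127 then (if X = 0 then blk 3 c j else blk 0 c j)
  else if X = 0 then romRule (rom (Y - 1) c j)
  else if c = 25 + Y then rORT else blk 4 c j

def rule (x y : ℕ) : Rule := ruleB (x / 256) (y / 512) (x % 256) (y % 512)

/-- The table of allowed states of the cell at position `(x, y)`. -/
def Tb (x y : ℕ) (s : St) : Bool := sat (rule x y) s

/-! The canonical labelling. -/

def par (n : ℕ) : Bool := n.testBit 0

def carry (n : ℕ) : ℕ → Bool
  | 0 => true
  | m + 1 => carry n m && n.testBit m

def agree (a b : ℕ) : ℕ → Bool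
  | 0 => true
  | m + 1 => agree a b m && (a.testBit m == b.testBit m)

def inp (qx qy c : ℕ) : Bool :=
  if 1 ≤ c ∧ c ≤ 16 then qy.testBit (c - 1)
  else if 17 ≤ c ∧ c ≤ 25 then qx.testBit (c - 17)
  else if 26 ≤ c ∧ c ≤ 151 then rom (c - 26) (qx % 256) (qy % 512) else false

def flag (qx qy : ℕ) : Bool :=
  decide (qy / 512 = 0 ∨ qy / 512 = 127 ∨ (qx / 256 = 1 ∧ qx % 256 = 25 + qy / 512))

def colIn (qx qy c : ℕ) : Bool := if c = 152 then flag qx qy else inp qx qy c

def litOk : Option Bool → Bool → Bool
  | none, _ => true
  | some b, a => a == b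

def rowv (qx qy t : ℕ) : ℕ → Bool
  | 0 => true
  | c + 1 => rowv qx qy t c && litOk (lit t c) (colIn qx qy c)

def val (qx qy c : ℕ) : ℕ → Bool
  | 0 => false
  | t + 1 => val qx qy c t || (out t c && rowv qx qy t c)

def m4 (β : St) (w : ℕ) : Bool := β.2.2.2 == w.testBit 3
def m3 (β : St) (w : ℕ) : Bool := m4 β w && (β.2.1 == w.testBit 2)
def m2 (β : St) (w : ℕ) : Bool := m3 β w && (β.1 == w.testBit 1)
def m1 (β : St) (w : ℕ) : Bool := m2 β w && (β.2.2.1 == w.testBit 0)

def evec (β : St) (w j : ℕ) : Bool :=
  if j = 462 then !m1 β w else if j = 463 then m1 β w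
  else if j = 464 then !m2 β w else if j = 465 then m2 β w
  else if j = 466 then !m3 β w else if j = 467 then m3 β w
  else if j = 468 then !m4 β w else if j = 469 then m4 β w else false

def HD (qx qy j : ℕ) : Bool :=
  if 1 ≤ j ∧ j ≤ 9 then qx.testBit (j - 1) else if j = 10 then qy.testBit 15 else false

def HQ (qx qy c j : ℕ) : Bool :=
  if c = 256 ∧ 1 ≤ j ∧ j ≤ 9 then (qx + 1).testBit (j - 1) else HD qx qy j

def HE (β : St) (c j : ℕ) : Bool := if j = 465 then β.1 ^^ par c else false

def HP (qx qy : ℕ) (β : St) (c j : ℕ) : Bool :=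
  if j < 460 then (if 1 ≤ c ∧ c ≤ 170 then rowv qx qy j c else false)
  else if j = 463 then (if 154 ≤ c ∧ c ≤ 175 then β.2.2.1 ^^ par c else false)
  else if j = 465 then
    (if c ≤ 171 then β.1 ^^ par c else if 174 ≤ c then β.2.1 ^^ par c else false)
  else if j = 467 then (if 154 ≤ c ∧ c ≤ 173 then β.2.1 ^^ par c else false)
  else if j = 469 then (if 154 ≤ c ∧ c ≤ 175 then β.2.2.2 ^^ par c else false)
  else if j = 511 then (if 1 ≤ c ∧ c ≤ 17 then carry qy (c - 1) else false)
  else false

def HRm (qx Y c j : ℕ) : Bool := if qx % 256 < c then rom (Y - 1) (qx % 256) j else false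

def HL (qx qy Y c j : ℕ) : Bool :=
  if c = 0 then rom (Y - 1) (qx % 256) j
  else if c ≤ 10 then rom (Y - 1) (qx % 256) j && agree qy j (c - 1)
  else if c ≤ 25 + Y then rom (Y - 1) (qx % 256) j && agree qy j 9 else false

def VD (qx c j : ℕ) : Bool :=
  if j = 0 then false else if j ≤ 9 then agree qx c (j - 1) else agree qx c 8

def VE (qx c j : ℕ) : Bool := if j = 0 then agree qx c 8 else false

def VQ (qx qy : ℕ) (β : St) (c j : ℕ) : Bool :=
  if 1 ≤ c ∧ c ≤ 16 then qy.testBit (c - 1)
  else if c = 25 then qx.testBit 8
  else if c = 175 then β.2.2.1 ^^ par j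
  else if 17 ≤ c ∧ c ≤ 24 then (if c < j + 16 then qx.testBit (c - 17) else false)
  else if c = 255 then (if 1 ≤ j ∧ j ≤ 10 then carry qx (j - 1) else false)
  else false

def VL (qx qy : ℕ) (β : St) (Y c j : ℕ) : Bool :=
  if c = 175 then β.2.2.1 ^^ par j
  else if c ≤ 25 then inp qx qy c
  else if c < 25 + Y ∨ (c = 25 + Y ∧ qy % 512 < j) then inp qx qy c else false

def VP (qx qy : ℕ) (β : St) (c j : ℕ) : Bool :=
  if 1 ≤ c ∧ c ≤ 16 then (if j = 512 then (qy + 1).testBit (c - 1) else qy.testBit (c - 1))
  else if c = 25 then qx.testBit 8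
  else if c = 175 then
    (if j ≤ 463 then β.2.2.1 ^^ par j else if 470 ≤ j then β.2.2.2 ^^ par j else false)
  else if 17 ≤ c ∧ c ≤ 151 then (if j ≤ 460 then inp qx qy c else false)
  else if c = 152 then (if j ≤ 460 then val qx qy c j else false)
  else if 154 ≤ c ∧ c ≤ 169 then
    (if j ≤ 460 then val qx qy c j else if j = 461 then val qx qy c 460 else evec β (c - 154) j)
  else if c = 173 then (if j = 466 then β.2.1 else if j = 467 then !β.2.1 else false)
  else false

def Hb (qx qy : ℕ) (β : St) (X Y c j : ℕ) : Bool :=
  if Y = 0 then (if X = 0 then HD qx qy j else HQ qx qy c j)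
  else if Y = 127 then (if X = 0 then HE β c j else HP qx qy β c j)
  else if X = 0 then HRm qx Y c j else HL qx qy Y c j

def Vb (qx qy : ℕ) (β : St) (X Y c j : ℕ) : Bool :=
  if Y = 0 then (if X = 0 then VD qx c j else VQ qx qy β c j)
  else if Y = 127 then (if X = 0 then VE qx c j else VP qx qy β c j)
  else if X = 0 then agree qx c 8 else VL qx qy β Y c j

def HH (qx qy : ℕ) (β : St) (x y : ℕ) : Bool :=
  if x < 256 then Hb qx qy β 0 (y / 512) x (y % 512) else Hb qx qy β 1 (y / 512) (x - 256) (y % 512)

def VV (qx qy : ℕ) (β : St) (x y : ℕ) : Bool :=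
  if y < 65536 then Vb qx qy β (x / 256) (y / 512) (x % 256) (y % 512)
  else Vb qx qy β (x / 256) 127 (x % 256) 512

/-! Elementary facts. -/

theorem par_succ (n : ℕ) : par (n + 1) = !par n := by
  unfold par
  simp only [Nat.testBit_zero]
  rcases Nat.mod_two_eq_zero_or_one n with h | h <;> simp [Nat.add_mod, h]

theorem par_even {n : ℕ} (h : n % 2 = 0) : par n = false := by simp [par, Nat.testBit_zero, h]

theorem par_odd {n : ℕ} (h : n % 2 = 1) : par n = true := by simp [par, Nat.testBit_zero, h]

theorem agree_iff (a b m : ℕ) : agree a b m = true ↔ a % 2 ^ m = b % 2 ^ m := by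
  have key : agree a b m = true ↔ ∀ i < m, a.testBit i = b.testBit i := by
    induction m with
    | zero => simp [agree]
    | succ m ih =>
      simp only [agree, Bool.and_eq_true, ih, beq_iff_eq]
      constructor
      · rintro ⟨h1, h2⟩ i hi
        rcases Nat.lt_succ_iff_lt_or_eq.1 hi with h | rfl
        exacts [h1 i h, h2]
      · intro h
        exact ⟨fun i hi => h i (by omega), h m (by omega)⟩
  rw [key]
  constructor
  · intro h
    apply Nat.eq_of_testBit_eq
    intro i
    simp only [Nat.testBit_mod_two_pow]
    by_cases hi : i < m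
    · simp [hi, h i hi]
    · simp [hi]
  · intro h i hi
    have := congrArg (fun n => n.testBit i) h
    simpa [Nat.testBit_mod_two_pow, hi] using this

theorem carry_succ_left (n m : ℕ) : carry n (m + 1) = (n.testBit 0 && carry (n / 2) m) := by
  induction m with
  | zero => simp [carry]
  | succ m ih =>
    rw [carry, ih, carry, Nat.testBit_add_one, Bool.and_assoc]

theorem testBit_succ_carry (m : ℕ) : ∀ n : ℕ, (n + 1).testBit m = (n.testBit m ^^ carry n m) := by
  induction m with
  | zero =>
    intro n
    have := par_succ n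
    unfold par at this
    rw [this]; simp [carry]
  | succ m ih =>
    intro n
    rw [carry_succ_left, Nat.testBit_add_one, Nat.testBit_add_one]
    rcases Nat.mod_two_eq_zero_or_one n with h | h
    · have e : (n + 1) / 2 = n / 2 := by omega
      simp [e, Nat.testBit_zero, h]
    · have e : (n + 1) / 2 = n / 2 + 1 := by omega
      simp [e, Nat.testBit_zero, h, ih]

end Pool.Agent.Lib.MP_c73c36_mp
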