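import Pool.Agent.Lib.MP_c73c36_mp.SBC

/-!
Invariant measures: a Krylov-Bogolyubov lemma and uniqueness when all local functions are trivial.
-/

set_option autoImplicit false

namespace Pool.Agent.Lib.MP_c73c36_mp

open Set MeasureTheory Filter Topology BoundedContinuousFunction

theorem krylov {E : Type} [TopologicalSpace E] [CompactSpace E] [T2Space E] [MeasurableSpace E]
    [BorelSpace E] [HasOuterApproxClosed E] (T : E → E) (hT : Continuous T)
    (μ₀ : Measure E) [IsProbabilityMeasure μ₀] :
    ∃ μ : Measure E, IsProbabilityMeasure μ ∧ Measure.map T μ = μ ∧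
      ∀ (f : E →ᵇ ℝ) (c : ℝ), (∀ k : ℕ, ∫ x, f (T^[k] x) ∂μ₀ = c) → ∫ x, f x ∂μ = c := by
  have hTk : ∀ k : ℕ, Measurable (T^[k]) := fun k => (hT.iterate k).measurable
  let m : ℕ → Measure E := fun n =>
    ((n + 1 : ℕ) : ENNReal)⁻¹ • ∑ k ∈ Finset.range (n + 1), Measure.map (T^[k]) μ₀
  have hprob : ∀ k : ℕ, IsProbabilityMeasure (Measure.map (T^[k]) μ₀) :=
    fun k => Measure.isProbabilityMeasure_map (hTk k).aemeasurable
  have hm : ∀ n, IsProbabilityMeasure (m n) := by
    intro n
    constructor
    simp only [m, Measure.smul_apply, Measure.coe_finsetSum, Finset.sum_apply, measure_univ,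
      Finset.sum_const, Finset.card_range, nsmul_eq_mul, mul_one, smul_eq_mul]
    exact ENNReal.inv_mul_cancel (by simp) (by simp)
  have hint : ∀ (n : ℕ) (f : E →ᵇ ℝ), ∫ x, f x ∂(m n) =
      ((n + 1 : ℕ) : ℝ)⁻¹ * ∑ k ∈ Finset.range (n + 1), ∫ x, f (T^[k] x) ∂μ₀ := by
    intro n f
    simp only [m]
    rw [integral_smul_measure, integral_finsetSum_measure
      (fun k _ => BoundedContinuousFunction.integrable _ f)]
    simp only [ENNReal.toReal_inv, ENNReal.toReal_natCast, smul_eq_mul]
    congr 1
    refine Finset.sum_congr rfl (fun k _ => ?_)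
    exact integral_map (hTk k).aemeasurable f.continuous.aestronglyMeasurable
  let M : ℕ → ProbabilityMeasure E := fun n => ⟨m n, hm n⟩
  let U : Ultrafilter ℕ := Ultrafilter.of atTop
  have hU : (U : Filter ℕ) ≤ atTop := Ultrafilter.of_le _
  obtain ⟨μ, -, hμ⟩ := isCompact_univ.ultrafilter_le_nhds (U.map M) (by simp)
  have hlim : ∀ f : E →ᵇ ℝ, Tendsto (fun n => ∫ x, f x ∂(m n)) U (𝓝 (∫ x, f x ∂(μ : Measure E))) :=
    ProbabilityMeasure.tendsto_iff_forall_integral_tendsto.1 hμ
  refine ⟨μ, inferInstance, ?_, ?_⟩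
  · have : IsProbabilityMeasure (Measure.map T (μ : Measure E)) :=
      Measure.isProbabilityMeasure_map hT.measurable.aemeasurable
    apply ext_of_forall_integral_eq_of_IsFiniteMeasure
    intro f
    rw [integral_map hT.measurable.aemeasurable f.continuous.aestronglyMeasurable]
    have h1 := hlim (f.compContinuous ⟨T, hT⟩)
    have h2 := hlim f
    have h3 : Tendsto (fun n : ℕ => ∫ x, (f.compContinuous ⟨T, hT⟩) x ∂(m n) - ∫ x, f x ∂(m n))
        atTop (𝓝 0) := by
      have hb : ∀ k : ℕ, |∫ x, f (T^[k] x) ∂μ₀| ≤ ‖f‖ := by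
        intro k
        have := norm_integral_le_of_norm_le_const (μ := μ₀) (f := fun x => f (T^[k] x))
          (C := ‖f‖) (Eventually.of_forall (fun x => f.norm_coe_le_norm _))
        simpa using this
      have e : ∀ n : ℕ, ∫ x, (f.compContinuous ⟨T, hT⟩) x ∂(m n) - ∫ x, f x ∂(m n) =
          ((n + 1 : ℕ) : ℝ)⁻¹ * (∫ x, f (T^[n + 1] x) ∂μ₀ - ∫ x, f (T^[0] x) ∂μ₀) := by
        intro n
        rw [hint, hint, ← mul_sub, ← Finset.sum_sub_distrib,
          ← Finset.sum_range_sub (fun k => ∫ x, f (T^[k] x) ∂μ₀)]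
        simp [Function.iterate_succ_apply']
      simp only [e]
      have hz : Tendsto (fun n : ℕ => ((n + 1 : ℕ) : ℝ)⁻¹ * (2 * ‖f‖)) atTop (𝓝 0) := by
        have : Tendsto (fun n : ℕ => ((n + 1 : ℕ) : ℝ)⁻¹) atTop (𝓝 0) :=
          tendsto_inv_atTop_zero.comp (tendsto_natCast_atTop_atTop.comp (tendsto_add_atTop_nat 1))
        simpa using this.mul_const (2 * ‖f‖)
      refine squeeze_zero_norm (fun n => ?_) hz
      rw [Real.norm_eq_abs, abs_mul, abs_of_nonneg (by positivity)]
      refine mul_le_mul_of_nonneg_left ?_ (by positivity)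
      have := hb (n + 1)
      have := hb 0
      have := abs_sub (∫ x, f (T^[n + 1] x) ∂μ₀) (∫ x, f (T^[0] x) ∂μ₀)
      linarith
    have h4 := tendsto_nhds_unique (h1.sub h2) (h3.mono_left hU)
    simpa [sub_eq_zero] using h4
  · intro f c hc
    have h1 := hlim f
    have e : ∀ n : ℕ, ∫ x, f x ∂(m n) = c := by
      intro n
      rw [hint]
      simp only [hc, Finset.sum_const, Finset.card_range, nsmul_eq_mul]
      field_simp
    simp only [e] at h1
    exact tendsto_nhds_unique h1 tendsto_const_nhds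

variable {ι A κ : Type} [AddCommGroup ι]

section
variable [Finite A] [Countable ι] [TopologicalSpace A] [DiscreteTopology A] [MeasurableSpace A]
  [BorelSpace A]

omit [Finite A] [Countable ι] [DiscreteTopology A] [MeasurableSpace A] [BorelSpace A] in
theorem continuous_sh (a : ι) : Continuous (sh a : (ι → A) → (ι → A)) := by
  unfold sh; fun_prop

omit [AddCommGroup ι] in
theorem Loc.measurable {f : (ι → A) → ℝ} (hf : Loc f) : Measurable f := hf.continuous.measurable

omit [AddCommGroup ι] in
theorem Loc.integrable {f : (ι → A) → ℝ} (hf : Loc f) (μ : Measure (ι → A)) [IsFiniteMeasure μ] :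
    Integrable f μ := by
  obtain ⟨K, -, hK⟩ := hf.bdd
  exact Integrable.of_bound hf.measurable.aestronglyMeasurable K (Eventually.of_forall hK)

theorem Triv.integral_eq {Ω : Set (ι → A)} {f : (ι → A) → ℝ} (h : Triv Ω f)
    (μ ν : Measure (ι → A)) [IsProbabilityMeasure μ] [IsProbabilityMeasure ν]
    (hμ : μ Ωᶜ = 0) (hν : ν Ωᶜ = 0) (iμ : ∀ a, Measure.map (sh a) μ = μ)
    (iν : ∀ a, Measure.map (sh a) ν = ν) : ∫ X, f X ∂μ = ∫ X, f X ∂ν := by
  induction h with
  | const c => simp
  | cob g a hg =>
    have key : ∀ (ρ : Measure (ι → A)) [IsProbabilityMeasure ρ], Measure.map (sh a) ρ = ρ →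
        ∫ X, (g (sh a X) - g X) ∂ρ = 0 := by
      intro ρ _ hρ
      rw [integral_sub ((hg.shift a).integrable ρ) (hg.integrable ρ),
        ← integral_map (continuous_sh a).measurable.aemeasurable
          hg.measurable.aestronglyMeasurable, hρ, sub_self]
    rw [key μ (iμ a), key ν (iν a)]
  | van f hf hv =>
    have key : ∀ (ρ : Measure (ι → A)), ρ Ωᶜ = 0 → ∫ X, f X ∂ρ = 0 := by
      intro ρ hρ
      apply integral_eq_zero_of_ae
      have : ∀ᵐ X ∂ρ, X ∈ Ω := hρ
      filter_upwards [this] with X hX using hv X hX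
    rw [key μ hμ, key ν hν]
  | add f g hf hg ihf ihg =>
    rw [integral_add (hf.loc.integrable μ) (hg.loc.integrable μ),
      integral_add (hf.loc.integrable ν) (hg.loc.integrable ν), ihf, ihg]

theorem unique_measure {Ω : Set (ι → A)} (h : ∀ f : (ι → A) → ℝ, Loc f → Triv Ω f)
    (μ ν : Measure (ι → A)) [IsProbabilityMeasure μ] [IsProbabilityMeasure ν]
    (hμ : μ Ωᶜ = 0) (hν : ν Ωᶜ = 0) (iμ : ∀ a, Measure.map (sh a) μ = μ)
    (iν : ∀ a, Measure.map (sh a) ν = ν) : μ = ν := by
  refine ext_of_generate_finite (measurableCylinders (fun _ : ι => A))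
    generateFrom_measurableCylinders.symm isPiSystem_measurableCylinders ?_ (by simp)
  intro s hs
  have hms : MeasurableSet s := MeasurableSet.of_mem_measurableCylinders hs
  obtain ⟨t, S, hS, rfl⟩ := (mem_measurableCylinders s).1 hs
  have hl : Loc ((cylinder t S).indicator (fun _ : ι → A => (1 : ℝ))) := by
    refine ⟨t, fun X Y hXY => ?_⟩
    have : t.restrict X = t.restrict Y := by
      funext i; exact hXY i i.2
    have e : X ∈ cylinder t S ↔ Y ∈ cylinder t S := by simp only [mem_cylinder, this]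
    by_cases hX : X ∈ cylinder t S
    · rw [indicator_of_mem hX, indicator_of_mem (e.1 hX)]
    · rw [indicator_of_notMem hX, indicator_of_notMem (fun hY => hX (e.2 hY))]
  have := (h _ hl).integral_eq μ ν hμ hν iμ iν
  rw [integral_indicator_const _ hms, integral_indicator_const _ hms] at this
  simp only [smul_eq_mul, mul_one] at this
  exact (measureReal_eq_measureReal_iff (measure_ne_top _ _) (measure_ne_top _ _)).1 this

theorem exists_measure_two [Finite κ] (F : κ → Finset ι × (ι → A)) (hne : (sft F).Nonempty)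
    (a b : ι) : ∃ μ : Measure (ι → A), IsProbabilityMeasure μ ∧ μ (sft F)ᶜ = 0 ∧
      Measure.map (sh a) μ = μ ∧ Measure.map (sh b) μ = μ := by
  classical
  obtain ⟨X₀, hX₀⟩ := hne
  have hit : ∀ (c : ι) (k : ℕ) (X : ι → A), (sh c)^[k] X = sh (k • c) X := by
    intro c k
    induction k with
    | zero => intro X; simp [sh_zero]
    | succ k ih => intro X; rw [Function.iterate_succ_apply, ih, sh_sh, succ_nsmul]
  let ind : κ → ι → ((ι → A) →ᵇ ℝ) := fun j c =>
    BoundedContinuousFunction.mkOfCompact ⟨fun X => if occ F j c X then 1 else 0,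
      ((loc_occ F j c).map (fun q => if q then (1 : ℝ) else 0)).continuous⟩
  have hind : ∀ (j : κ) (c : ι) (X : ι → A), ind j c X = if occ F j c X then 1 else 0 :=
    fun _ _ _ => rfl
  have hms : ∀ j c, MeasurableSet {X : ι → A | occ F j c X} :=
    fun j c => (isClopen_of_loc (loc_occ F j c)).isOpen.measurableSet
  have hI : ∀ (ρ : Measure (ι → A)) [IsFiniteMeasure ρ] (j : κ) (c : ι),
      ∫ X, ind j c X ∂ρ = 0 → ρ {X | occ F j c X} = 0 := by
    intro ρ _ j c h
    have e : (fun X => ind j c X) = {X | occ F j c X}.indicator (fun _ => (1 : ℝ)) := by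
      funext X; simp [hind, Set.indicator]
    rw [e, integral_indicator_const _ (hms j c)] at h
    simp only [smul_eq_mul, mul_one] at h
    exact (measureReal_eq_zero_iff (measure_ne_top _ _)).1 h
  have hΩ : ∀ (ρ : Measure (ι → A)) [IsFiniteMeasure ρ],
      (∀ j c, ∫ X, ind j c X ∂ρ = 0) → ρ (sft F)ᶜ = 0 := by
    intro ρ _ h
    have : (sft F)ᶜ = ⋃ j, ⋃ c, {X | occ F j c X} := by
      ext X; simp [sft]
    rw [this]
    exact measure_iUnion_null (fun j => measure_iUnion_null (fun c => hI ρ j c (h j c)))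
  obtain ⟨μ₁, h1, i1, p1⟩ := krylov (sh a) (continuous_sh a) (Measure.dirac X₀)
  have hΩ1 : μ₁ (sft F)ᶜ = 0 := by
    apply hΩ
    intro j c
    apply p1
    intro k
    rw [integral_dirac, hit, hind, if_neg (sh_mem_sft hX₀ _ j c)]
  obtain ⟨μ₂, h2, i2, p2⟩ := krylov (sh b) (continuous_sh b) μ₁
  refine ⟨μ₂, h2, ?_, ?_, i2⟩
  · apply hΩ
    intro j c
    apply p2
    intro k
    apply integral_eq_zero_of_ae
    have : ∀ᵐ X ∂μ₁, X ∈ sft F := hΩ1
    filter_upwards [this] with X hX
    simp only [hit, hind, if_neg (sh_mem_sft hX _ j c), Pi.zero_apply]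
  · have : IsProbabilityMeasure (Measure.map (sh a) μ₂) :=
      Measure.isProbabilityMeasure_map (continuous_sh a).measurable.aemeasurable
    apply ext_of_forall_integral_eq_of_IsFiniteMeasure
    intro f
    rw [integral_map (continuous_sh a).measurable.aemeasurable f.continuous.aestronglyMeasurable]
    have := p2 (f.compContinuous ⟨sh a, continuous_sh a⟩ - f) 0 (by
      intro k
      let g : (ι → A) →ᵇ ℝ := f.compContinuous ⟨sh (k • b), continuous_sh _⟩
      have e : (fun x => (f.compContinuous ⟨sh a, continuous_sh a⟩ - f) ((sh b)^[k] x)) =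
          fun x => g (sh a x) - g x := by
        funext x
        simp [g, hit, sh_sh, add_comm]
      have hi : Integrable (fun x => g (sh a x)) μ₁ :=
        (g.compContinuous ⟨sh a, continuous_sh a⟩).integrable μ₁
      rw [e, integral_sub hi (g.integrable μ₁),
        ← integral_map (continuous_sh a).measurable.aemeasurable
          g.continuous.aestronglyMeasurable, i1, sub_self])
    have hi : Integrable (fun x => f (sh a x)) μ₂ :=
      (f.compContinuous ⟨sh a, continuous_sh a⟩).integrable μ₂
    rw [show (fun x => (f.compContinuous ⟨sh a, continuous_sh a⟩ - f) x) =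
      fun x => f (sh a x) - f x from rfl, integral_sub hi (f.integrable μ₂)] at this
    linarith

omit [Finite A] [DiscreteTopology A] in
theorem invariant_of_closure [SecondCountableTopology A] (μ : Measure (ι → A)) (s : Set ι)
    (hs : AddSubgroup.closure s = ⊤) (h : ∀ a ∈ s, Measure.map (sh a) μ = μ) (a : ι) :
    Measure.map (sh a) μ = μ := by
  have hm : ∀ c : ι, Measurable (sh c : (ι → A) → (ι → A)) := fun c => (continuous_sh c).measurable
  have hcomp : ∀ c d : ι, Measure.map (sh c) (Measure.map (sh d) μ) = Measure.map (sh (c + d)) μ := by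
    intro c d
    rw [Measure.map_map (hm c) (hm d)]
    congr 1
    funext X; exact sh_sh c d X
  have h0 : Measure.map (sh (0 : ι)) μ = μ := by
    have : (sh (0 : ι) : (ι → A) → (ι → A)) = id := by funext X; exact sh_zero X
    rw [this, Measure.map_id]
  have ha : a ∈ AddSubgroup.closure s := by rw [hs]; trivial
  induction ha using AddSubgroup.closure_induction with
  | mem x hx => exact h x hx
  | zero => exact h0
  | add x y _ _ hx hy => rw [← hcomp, hy, hx]
  | neg x _ hx =>
    have := hcomp (-x) x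
    rw [hx, neg_add_cancel, h0] at this
    exact this

end

end Pool.Agent.Lib.MP_c73c36_mp
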