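import Pool.Agent.Lib.MP_c73c36_mp.Lift
import Pool.Agent.Lib.MP_c73c36_mp.Meas

/-!
From a balanced self-simulating tile set to the statement on `Fin 2 → ℤ` with letters `Fin k`.
-/

set_option autoImplicit false

namespace Pool.Agent.Lib.MP_c73c36_mp

open MeasureTheory

def phi : ℤ × ℤ →+ (Fin 2 → ℤ) where
  toFun a := ![a.1, a.2]
  map_zero' := by funext i; fin_cases i <;> rfl
  map_add' a b := by funext i; fin_cases i <;> rfl

theorem phi_eta (a : Fin 2 → ℤ) : phi (a 0, a 1) = a := by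
  funext i; fin_cases i <;> rfl

theorem phi_eq_zero {a : ℤ × ℤ} (h : phi a = 0) : a = 0 :=
  Prod.ext (congrFun h 0) (congrFun h 1)

theorem main_of_sim (S : Sim) : ∃ k m : ℕ,
    ∃ F : Fin m → Finset (Fin 2 → ℤ) × ((Fin 2 → ℤ) → Fin k),
      (sft F).Nonempty ∧ (∀ X ∈ sft F, ∀ a, sh a X = X → a = 0) ∧
      ∀ f : ((Fin 2 → ℤ) → Fin k) → ℝ, Loc f → Triv (sft F) f := by
  classical
  obtain ⟨k, ⟨e⟩⟩ := Finite.exists_equiv_fin Tile
  obtain ⟨m, ⟨g⟩⟩ := Finite.exists_equiv_fin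
    {t : Fin k × Fin k × Fin k // ¬ ok3 S.T (e.symm t.1) (e.symm t.2.1) (e.symm t.2.2)}
  let F : Fin m → Finset (Fin 2 → ℤ) × ((Fin 2 → ℤ) → Fin k) := fun j =>
    ({phi (0, 0), phi (1, 0), phi (0, 1)}, fun i => if i = phi (1, 0) then (g.symm j).1.2.1 else
      if i = phi (0, 1) then (g.symm j).1.2.2 else (g.symm j).1.1)
  have n1 : phi (0, 0) ≠ phi (1, 0) := fun h => by simpa [phi] using congrFun h 0
  have n2 : phi (0, 0) ≠ phi (0, 1) := fun h => by simpa [phi] using congrFun h 1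
  have n3 : phi (0, 1) ≠ phi (1, 0) := fun h => by simpa [phi] using congrFun h 0
  have hocc : ∀ (j : Fin m) (a : Fin 2 → ℤ) (X : (Fin 2 → ℤ) → Fin k), occ F j a X ↔
      (X (phi (a 0, a 1)), X (phi (a 0 + 1, a 1)), X (phi (a 0, a 1 + 1))) = (g.symm j).1 := by
    intro j a X
    have e0 : phi (0, 0) + a = phi (a 0, a 1) := by
      conv_lhs => rw [← phi_eta a, ← map_add]
      simp
    have e1 : phi (1, 0) + a = phi (a 0 + 1, a 1) := by
      conv_lhs => rw [← phi_eta a, ← map_add]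
      simp [add_comm]
    have e2 : phi (0, 1) + a = phi (a 0, a 1 + 1) := by
      conv_lhs => rw [← phi_eta a, ← map_add]
      simp [add_comm]
    simp only [occ, F, Finset.mem_insert, Finset.mem_singleton, forall_eq_or_imp, forall_eq,
      if_neg n1, if_neg n2, if_neg n3, if_true, e0, e1, e2, Prod.ext_iff]
  have hΩ : sft F = {X' : (Fin 2 → ℤ) → Fin k | (fun i => e.symm (X' (phi i))) ∈ S.Om} := by
    ext X
    constructor
    · intro hX i j
      by_contra hc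
      refine hX (g ⟨(X (phi (i, j)), X (phi (i + 1, j)), X (phi (i, j + 1))), hc⟩) (phi (i, j)) ?_
      rw [hocc, Equiv.symm_apply_apply]
      rfl
    · intro hX j a ho
      rw [hocc] at ho
      apply (g.symm j).2
      rw [← ho]
      exact hX (a 0) (a 1)
  refine ⟨k, m, F, ?_, ?_, ?_⟩
  · obtain ⟨X, hX⟩ := S.nonempty
    refine ⟨fun i => e (X (i 0, i 1)), ?_⟩
    rw [hΩ]
    have : (fun i : ℤ × ℤ => e.symm (e (X (phi i 0, phi i 1)))) = X := by
      funext i; rw [Equiv.symm_apply_apply]; rfl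
    show (fun i : ℤ × ℤ => e.symm (e (X (phi i 0, phi i 1)))) ∈ S.Om
    rw [this]; exact hX
  · intro X hX a ha
    rw [hΩ] at hX
    have := S.aperiodic _ _ hX (a 0, a 1) le_rfl (by
      funext i
      show e.symm (X (phi (i + (a 0, a 1)))) = e.symm (X (phi i))
      rw [map_add, phi_eta]
      exact congrArg e.symm (congrFun ha (phi i)))
    rw [← phi_eta a, this, map_zero]
  · intro f hf
    rw [hΩ]
    have hl : Loc (fun X : Cfg => f (fun i => e (X (i 0, i 1)))) := by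
      obtain ⟨s, hs⟩ := hf
      refine ⟨s.image (fun i => (i 0, i 1)), fun X Y h => hs _ _ (fun i hi => ?_)⟩
      simp only [h _ (Finset.mem_image_of_mem _ hi)]
    have := (S.triv_all hl).transport phi e.symm
    simpa only [Equiv.apply_symm_apply, phi_eta] using this

theorem closure_phi : AddSubgroup.closure ({phi (1, 0), phi (0, 1)} : Set (Fin 2 → ℤ)) = ⊤ := by
  rw [eq_top_iff]
  intro a _
  have : a = a 0 • phi (1, 0) + a 1 • phi (0, 1) := by
    funext i; fin_cases i <;> simp [phi]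
  rw [this]
  exact add_mem (AddSubgroup.zsmul_mem _ (AddSubgroup.subset_closure (by simp)) _)
    (AddSubgroup.zsmul_mem _ (AddSubgroup.subset_closure (by simp)) _)

theorem final_of_sim (S : Sim) :
  ∃ d : ℕ, 2 ≤ d ∧ ∃ k m : ℕ, ∃ F : Fin m → Finset (Fin d → ℤ) × ((Fin d → ℤ) → Fin k),
    (∃ X : (Fin d → ℤ) → Fin k, ∀ j : Fin m, ∀ a : Fin d → ℤ,
        ¬ ∀ i ∈ (F j).1, X (i + a) = (F j).2 i) ∧
    (∀ X : (Fin d → ℤ) → Fin k,
        (∀ j : Fin m, ∀ a : Fin d → ℤ, ¬ ∀ i ∈ (F j).1, X (i + a) = (F j).2 i) →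
        ∀ a : Fin d → ℤ, a ≠ 0 → (fun i => X (i - a)) ≠ X) ∧
    (∃! μ : MeasureTheory.Measure ((Fin d → ℤ) → Fin k),
        MeasureTheory.IsProbabilityMeasure μ ∧
        μ {X : (Fin d → ℤ) → Fin k | ∀ j : Fin m, ∀ a : Fin d → ℤ,
            ¬ ∀ i ∈ (F j).1, X (i + a) = (F j).2 i}ᶜ = 0 ∧
        ∀ a : Fin d → ℤ,
          MeasureTheory.Measure.map (fun X : (Fin d → ℤ) → Fin k => fun i => X (i - a)) μ = μ) ∧
    ∀ DA : Finset (Fin d → ℤ), ∀ pA : (Fin d → ℤ) → Fin k, ∃ C : ℝ,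
      ∀ X Y : (Fin d → ℤ) → Fin k,
        (∀ j : Fin m, ∀ a : Fin d → ℤ, ¬ ∀ i ∈ (F j).1, X (i + a) = (F j).2 i) →
        {i : Fin d → ℤ | Y i ≠ X i}.Finite →
        |((((Set.ncard {a : Fin d → ℤ | (∀ i ∈ DA, Y (i + a) = pA i) ∧
                ¬ ∀ i ∈ DA, X (i + a) = pA i} : ℕ) : ℤ) -
            ((Set.ncard {a : Fin d → ℤ | (∀ i ∈ DA, X (i + a) = pA i) ∧
                ¬ ∀ i ∈ DA, Y (i + a) = pA i} : ℕ) : ℤ) : ℤ) : ℝ)|
          ≤ C * ((Set.ncard {q : Fin m × (Fin d → ℤ) |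
                  ∀ i ∈ (F q.1).1, Y (i + q.2) = (F q.1).2 i} : ℕ) : ℝ) := by
  classical
  obtain ⟨k, m, F, hne, hap, htr⟩ := main_of_sim S
  have hsub : ∀ a : Fin 2 → ℤ,
      (fun X : (Fin 2 → ℤ) → Fin k => fun i => X (i - a)) = sh (-a) := by
    intro a; funext X i; simp [sh, sub_eq_add_neg]
  refine ⟨2, le_rfl, k, m, F, hne, ?_, ?_, ?_⟩
  · intro X hX a ha he
    have := hap X hX (-a) ((congrFun (hsub a) X).symm.trans he)
    exact ha (neg_eq_zero.1 this)
  · obtain ⟨μ, h1, h2, h3, h4⟩ := exists_measure_two F hne (phi (1, 0)) (phi (0, 1))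
    have h5 := invariant_of_closure μ _ closure_phi (by
      intro a ha
      rcases ha with rfl | rfl
      exacts [h3, h4])
    refine ⟨μ, ⟨h1, h2, fun a => by rw [hsub]; exact h5 _⟩, ?_⟩
    rintro ν ⟨g1, g2, g3⟩
    refine unique_measure htr ν μ g2 h2 (fun a => ?_) h5
    have := g3 (-a)
    rwa [hsub, neg_neg] at this
  · intro DA pA
    have hp : Loc (fun X : (Fin 2 → ℤ) → Fin k => ∀ i ∈ DA, X i = pA i) :=
      ⟨DA, fun X Y h => propext (forall₂_congr (fun i hi => by rw [h i hi]))⟩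
    obtain ⟨C, hC⟩ := (htr _ (hp.map (fun q => if q then (1 : ℝ) else 0))).sbc
    refine ⟨C, fun X Y hX hD => ?_⟩
    have h1 := hC X hX Y hD
    rw [@finsum_indicator_diff _ _ _ _ hp _ _ hD (fun _ => Classical.propDecidable _)] at h1
    push_cast
    exact h1

end Pool.Agent.Lib.MP_c73c36_mp
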