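import Pool.Agent.Lib.MP_c73c36_mp.CompP

/-!
The canonical labelling satisfies the rules; boundary values.
-/

set_option autoImplicit false
set_option linter.unusedSimpArgs false
set_option linter.unnecessarySeqFocus false

namespace Pool.Agent.Lib.MP_c73c36_mp

theorem Hb_junction (qx qy : ℕ) (β : St) (Y j : ℕ) :
    Hb qx qy β 0 Y 256 j = Hb qx qy β 1 Y 0 j := by
  have hq : qx % 256 < 256 := Nat.mod_lt _ (by norm_num)
  by_cases h0 : Y = 0
  · simp (disch := omega) only [Hb, HQ, if_pos, if_neg, if_true, true_and, and_true]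
  by_cases h1 : Y = 127
  · have : j < 460 ∨ j = 465 ∨ j = 463 ∨ j = 467 ∨ j = 469 ∨ j = 511 ∨
      (460 ≤ j ∧ j ≠ 463 ∧ j ≠ 465 ∧ j ≠ 467 ∧ j ≠ 469 ∧ j ≠ 511) := by omega
    rcases this with g | g | g | g | g | g | g <;>
      simp (disch := omega) only [Hb, HE, HP, if_pos, if_neg, if_true, true_and, and_true, par_even]
  · simp (disch := omega) only [Hb, HRm, HL, if_pos, if_neg, if_true, true_and, and_true]

theorem val_zero (qx qy c : ℕ) : val qx qy c 0 = false := rfl

theorem Vb_junction (qx qy : ℕ) (β : St) (X Y c : ℕ) (hY : Y < 127) :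
    Vb qx qy β X Y c 512 = Vb qx qy β X (Y + 1) c 0 := by
  have hq : qy % 512 < 512 := Nat.mod_lt _ (by norm_num)
  by_cases hX : X = 0
  · have : Y = 0 ∨ (1 ≤ Y ∧ Y < 126) ∨ Y = 126 := by omega
    rcases this with g | g | g <;>
      simp (disch := omega) only [Vb, VD, VE, if_pos, if_neg, if_true, true_and, and_true]
  · have : c = 0 ∨ (1 ≤ c ∧ c ≤ 16) ∨ (17 ≤ c ∧ c ≤ 24) ∨ c = 25 ∨ c = 175 ∨ c = 152 ∨ c = 173 ∨
      (154 ≤ c ∧ c ≤ 169) ∨ (26 ≤ c ∧ c ≤ 25 + Y) ∨ (25 + Y < c ∧ c ≤ 151) ∨ c = 255 ∨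
      (c = 153 ∨ (170 ≤ c ∧ c ≠ 173 ∧ c ≠ 175 ∧ c ≠ 255)) := by omega
    have hY' : Y = 0 ∨ (1 ≤ Y ∧ Y < 126) ∨ Y = 126 := by omega
    rcases hY' with g | g | g <;>
      rcases this with h | h | h | h | h | h | h | h | h | h | h | h <;>
      first
      | omega
      | simp (disch := omega) only [Vb, VQ, VL, VP, inp, if_pos, if_neg, if_true, true_and, and_true, par_even, val_zero]
    all_goals simp [h]

theorem lab_eq (qx qy : ℕ) (β : St) (x y : ℕ) (hx : x < 512) (hy : y < 65536) :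
    labOf HH VV qx qy β x y =
      (Hb qx qy β (x / 256) (y / 512) (x % 256) (y % 512),
       Hb qx qy β (x / 256) (y / 512) (x % 256 + 1) (y % 512),
       Vb qx qy β (x / 256) (y / 512) (x % 256) (y % 512),
       Vb qx qy β (x / 256) (y / 512) (x % 256) (y % 512 + 1)) := by
  unfold labOf
  refine Prod.ext ?_ (Prod.ext ?_ (Prod.ext ?_ ?_))
  · by_cases h : x < 256
    · simp (disch := omega) only [HH, if_pos]
      rw [show x / 256 = 0 by omega, show x % 256 = x by omega]
    · simp (disch := omega) only [HH, if_neg]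
      rw [show x / 256 = 1 by omega, show x % 256 = x - 256 by omega]
  · rcases Nat.lt_trichotomy x 255 with h | h | h
    · simp (disch := omega) only [HH, if_pos]
      rw [show x / 256 = 0 by omega, show x % 256 = x by omega]
    · simp (disch := omega) only [HH, if_neg]
      rw [show x / 256 = 0 by omega, show x % 256 + 1 = 256 by omega, Hb_junction,
        show x + 1 - 256 = 0 by omega]
    · simp (disch := omega) only [HH, if_neg]
      rw [show x / 256 = 1 by omega, show x % 256 + 1 = x + 1 - 256 by omega]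
  · simp (disch := omega) only [VV, if_pos]
  · by_cases h : y + 1 < 65536
    · simp (disch := omega) only [VV, if_pos]
      by_cases h' : y % 512 = 511
      · rw [show y % 512 + 1 = 512 by omega, Vb_junction _ _ _ _ _ _ (by omega),
          show (y + 1) / 512 = y / 512 + 1 by omega, show (y + 1) % 512 = 0 by omega]
      · rw [show (y + 1) / 512 = y / 512 by omega, show (y + 1) % 512 = y % 512 + 1 by omega]
    · simp (disch := omega) only [VV, if_neg]
      rw [show y / 512 = 127 by omega, show y % 512 + 1 = 512 by omega]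

theorem blk0 (c j : ℕ) : blk 0 c j = (hP c j, vP c j) := rfl
theorem blk1 (c j : ℕ) : blk 1 c j = (hQ c j, vQ c j) := rfl
theorem blk2 (c j : ℕ) : blk 2 c j = (.pass, vD c j) := rfl
theorem blk3 (c j : ℕ) : blk 3 c j = (hE j, .zero) := rfl
theorem blk4 (c j : ℕ) : blk 4 c j = (hL c j, vL c) := rfl

theorem comp_block (qx qy : ℕ) (β : St) (X Y c j : ℕ) (hx : qx < 512) (hy : qy < 65536)
    (hY : Y < 128) (hc : c < 256) (hj : j < 512)
    (hi : ¬ (X ≠ 0 ∧ Y = 127 ∧ 154 ≤ c ∧ c ≤ 169 ∧ j = 461)) :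
    sat (ruleB X Y c j) (Hb qx qy β X Y c j, Hb qx qy β X Y (c + 1) j, Vb qx qy β X Y c j,
      Vb qx qy β X Y c (j + 1)) = true := by
  by_cases hX : X = 0
  · have : Y = 0 ∨ Y = 127 ∨ (1 ≤ Y ∧ Y ≤ 126) := by omega
    rcases this with g | g | g <;>
      simp (disch := omega) only [ruleB, Hb, Vb, if_pos, if_neg, if_true, true_and, and_true, blk2, blk3]
    · exact compD qx qy c j hj
    · exact compE qx β c j
    · exact compR qx Y c j hc
  · have : Y = 0 ∨ Y = 127 ∨ (1 ≤ Y ∧ Y ≤ 126 ∧ c = 25 + Y) ∨ (1 ≤ Y ∧ Y ≤ 126 ∧ c ≠ 25 + Y) := by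
      omega
    rcases this with g | g | g | g <;>
      simp (disch := omega) only [ruleB, Hb, Vb, if_pos, if_neg, if_true, true_and, and_true, blk0, blk1, blk4]
    · unfold sat
      rw [Bool.and_eq_true]
      exact ⟨compQ_h qx qy β c j hc _, compQ_v qx qy β c j hc _⟩
    · exact compP qx qy β c j hx hy hc hj (by omega)
    · rw [g.2.2]; exact compORT qx qy β Y j hj g.1 g.2.1
    · unfold sat
      rw [Bool.and_eq_true]
      exact ⟨compL_h qx qy β Y c j hc g.1 g.2.1 g.2.2 _, compL_v qx qy β Y c j g.2.2 _ _⟩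

theorem comp_nonimp (qx qy : ℕ) (β : St) (x y : ℕ) (hx : qx < 512) (hy : qy < 65536)
    (hx' : x < 512) (hy' : y < 65536) (hi : ¬ (410 ≤ x ∧ x ≤ 425 ∧ y = 65485)) :
    Tb x y (labOf HH VV qx qy β x y) = true := by
  rw [lab_eq qx qy β x y hx' hy']
  exact comp_block qx qy β _ _ _ _ hx hy (by omega) (by omega) (by omega) (by omega)

theorem rule_P (c j : ℕ) (hc : c < 256) (hj : j < 512) :
    rule (256 + c) (65024 + j) = (hP c j, vP c j) := by
  unfold rule
  rw [show (256 + c) / 256 = 1 by omega, show (65024 + j) / 512 = 127 by omega,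
    show (256 + c) % 256 = c by omega, show (65024 + j) % 512 = j by omega]
  rfl

theorem lab_P (qx qy : ℕ) (β : St) (c j : ℕ) (hc : c < 256) (hj : j < 512) :
    labOf HH VV qx qy β (256 + c) (65024 + j) =
      (HP qx qy β c j, HP qx qy β (c + 1) j, VP qx qy β c j, VP qx qy β c (j + 1)) := by
  rw [lab_eq qx qy β _ _ (by omega) (by omega), show (256 + c) / 256 = 1 by omega,
    show (65024 + j) / 512 = 127 by omega,
    show (256 + c) % 256 = c by omega, show (65024 + j) % 512 = j by omega]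
  rfl

theorem m1_iff (β : St) (w : ℕ) : m1 β w = true ↔ decw w = β := by
  obtain ⟨l, r, d, u⟩ := β
  simp only [m1, m2, m3, m4, decw, Bool.and_eq_true, beq_iff_eq, Prod.mk.injEq]
  tauto

theorem rule_imp (w : ℕ) (hw : w < 16) : rule (410 + w) 65485 = (.pass, .imp) := by
  rw [show 410 + w = 256 + (154 + w) by omega, show 65485 = 65024 + 461 by norm_num,
    rule_P _ _ (by omega) (by omega)]
  simp (disch := omega) only [hP, vP, vA, if_pos, if_neg, if_true, true_and, and_true]

theorem lab_imp (qx qy : ℕ) (β : St) (w : ℕ) (hx : qx < 512) (hy : qy < 65536) (hw : w < 16) :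
    labOf HH VV qx qy β (410 + w) 65485 = (false, false, !Tb qx qy (decw w), !m1 β w) := by
  rw [show 410 + w = 256 + (154 + w) by omega, show 65485 = 65024 + 461 by norm_num,
    lab_P _ _ _ _ _ (by omega) (by omega), ← val_table qx qy w hx hy hw]
  simp (disch := omega) only [HP, VP, evec, if_pos, if_neg, if_true, true_and, and_true, Nat.add_sub_cancel_left]

theorem comp_all (qx qy : ℕ) (β : St) (hx : qx < 512) (hy : qy < 65536)
    (hT : Tb qx qy β = true) (x y : ℕ) (hx' : x < 512) (hy' : y < 65536) :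
    Tb x y (labOf HH VV qx qy β x y) = true := by
  by_cases hi : 410 ≤ x ∧ x ≤ 425 ∧ y = 65485
  · obtain ⟨w, rfl⟩ : ∃ w, x = 410 + w := ⟨x - 410, by omega⟩
    rw [hi.2.2, lab_imp qx qy β w hx hy (by omega)]
    have e : ∀ s, Tb (410 + w) 65485 s = sat (.pass, .imp) s := by
      intro s; unfold Tb; rw [rule_imp w (by omega)]
    rw [e]
    cases hm : m1 β w
    · simp [sat, hsat, vsat]
    · have := (m1_iff β w).1 hm
      rw [this, hT]; rfl
  · exact comp_nonimp qx qy β x y hx hy hx' hy' hi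

def idleH (y : ℕ) : Prop := ¬ (1 ≤ y ∧ y ≤ 10) ∧ y ≠ 65489
def idleV (x : ℕ) : Prop := ¬ (257 ≤ x ∧ x ≤ 272) ∧ x ≠ 281 ∧ x ≠ 431

theorem HH_left (qx qy : ℕ) (β : St) (y : ℕ) (hy : y < 65536) : HH qx qy β 0 y =
    if 1 ≤ y ∧ y ≤ 9 then qx.testBit (y - 1) else if y = 10 then qy.testBit 15
    else if y = 65489 then β.1 else false := by
  have : (1 ≤ y ∧ y ≤ 9) ∨ y = 10 ∨ y = 65489 ∨ (y = 0 ∨ (11 ≤ y ∧ y < 512)) ∨
    (512 ≤ y ∧ y < 65024) ∨ (65024 ≤ y ∧ y ≠ 65489) := by omega
  rcases this with g | g | g | g | g | g <;>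
    simp (disch := omega) only [HH, Hb, HD, HE, HRm, if_pos, if_neg, if_true, true_and, and_true, par_even]
  · rw [show y % 512 = y by omega]
  · simp

theorem HH_right (qx qy : ℕ) (β : St) (y : ℕ) (hy : y < 65536) : HH qx qy β 512 y =
    if 1 ≤ y ∧ y ≤ 9 then (qx + 1).testBit (y - 1) else if y = 10 then qy.testBit 15
    else if y = 65489 then β.2.1 else false := by
  have : (1 ≤ y ∧ y ≤ 9) ∨ y = 10 ∨ y = 65489 ∨ (y = 0 ∨ (11 ≤ y ∧ y < 512)) ∨
    (512 ≤ y ∧ y < 65024) ∨ (65024 ≤ y ∧ y < 65484) ∨ y = 65487 ∨ y = 65491 ∨ y = 65493 ∨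
    y = 65535 ∨ (65484 ≤ y ∧ y ≠ 65487 ∧ y ≠ 65489 ∧ y ≠ 65491 ∧ y ≠ 65493 ∧ y ≠ 65535) := by omega
  rcases this with g | g | g | g | g | g | g | g | g | g | g <;>
    simp (disch := omega) only [HH, Hb, HQ, HD, HP, HL, if_pos, if_neg, if_true, true_and, and_true, par_even]
  · rw [show y % 512 = y by omega]
  · simp

theorem VV_bot (qx qy : ℕ) (β : St) (x : ℕ) (hx : x < 512) : VV qx qy β x 0 =
    if 257 ≤ x ∧ x ≤ 272 then qy.testBit (x - 257) else if x = 281 then qx.testBit 8
    else if x = 431 then β.2.2.1 else false := by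
  have : x < 256 ∨ (257 ≤ x ∧ x ≤ 272) ∨ x = 281 ∨ x = 431 ∨ (273 ≤ x ∧ x ≤ 280) ∨ x = 511 ∨
    (x = 256 ∨ (282 ≤ x ∧ x ≠ 431 ∧ x ≠ 511)) := by omega
  rcases this with g | g | g | g | g | g | g <;>
    simp (disch := omega) only [VV, Vb, VD, VQ, if_pos, if_neg, if_true, true_and, and_true, par_even]
  · rw [show x % 256 - 1 = x - 257 by omega]
  · simp

theorem VV_top (qx qy : ℕ) (β : St) (x : ℕ) (hx : x < 512) : VV qx qy β x 65536 =
    if 257 ≤ x ∧ x ≤ 272 then (qy + 1).testBit (x - 257) else if x = 281 then qx.testBit 8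
    else if x = 431 then β.2.2.2 else false := by
  have : x < 256 ∨ (257 ≤ x ∧ x ≤ 272) ∨ x = 281 ∨ x = 431 ∨ (273 ≤ x ∧ x ≤ 407 ∧ x ≠ 281) ∨
    x = 408 ∨ (410 ≤ x ∧ x ≤ 425) ∨ x = 429 ∨
    (x = 256 ∨ x = 409 ∨ (426 ≤ x ∧ x ≠ 429 ∧ x ≠ 431)) := by omega
  rcases this with g | g | g | g | g | g | g | g | g <;>
    simp (disch := omega) only [VV, Vb, VE, VP, evec, if_pos, if_neg, if_true, true_and, and_true, par_even]
  · rw [show x % 256 - 1 = x - 257 by omega]
  · simp

theorem testBit_mod512 (n i : ℕ) (hi : i < 9) : (n % 512).testBit i = n.testBit i := by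
  rw [show (512 : ℕ) = 2 ^ 9 by norm_num, Nat.testBit_mod_two_pow]
  simp [hi]

theorem testBit_mod65536 (n i : ℕ) (hi : i < 16) : (n % 65536).testBit i = n.testBit i := by
  rw [show (65536 : ℕ) = 2 ^ 16 by norm_num, Nat.testBit_mod_two_pow]
  simp [hi]

theorem bit15 (qy : ℕ) (hy : qy < 65536) : qy.testBit 15 = decide (qy / 32768 = 1) := by
  rw [Nat.testBit_eq_decide_div_mod_eq]
  simp only [decide_eq_decide]
  omega

theorem bdH (qx qy : ℕ) (β β' : St) (h : β'.1 = β.2.1) (y : ℕ) (hy : y < 65536) :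
    HH qx qy β 512 y = HH ((qx + 1) % 512) qy β' 0 y := by
  rw [HH_left _ _ _ _ hy, HH_right _ _ _ _ hy, h]
  split_ifs with h1
  · rw [testBit_mod512 _ _ (by omega)]
  all_goals rfl

theorem bdV (qx qy : ℕ) (β β' : St) (h : β'.2.2.1 = β.2.2.2) (x : ℕ) (hx : x < 512) :
    VV qx qy β x 65536 = VV qx ((qy + 1) % 65536) β' x 0 := by
  rw [VV_bot _ _ _ _ hx, VV_top _ _ _ _ hx, h]
  split_ifs with h1
  · rw [testBit_mod65536 _ _ (by omega)]
  all_goals rfl

theorem injH (qx qy qx' qy' : ℕ) (β β' : St) (h2 : qy < 65536) (h3 : qx' < 512)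
    (h4 : qy' < 65536) (h : ∀ y, y < 65536 → HH qx qy β 512 y = HH qx' qy' β' 0 y) :
    qx' = (qx + 1) % 512 ∧ qy' / 32768 = qy / 32768 ∧ β'.1 = β.2.1 := by
  refine ⟨bits_eq (m := 9) h3 (Nat.mod_lt _ (by norm_num)) (fun i hi => ?_), ?_, ?_⟩
  · have := h (i + 1) (by omega)
    rw [HH_left _ _ _ _ (by omega), HH_right _ _ _ _ (by omega)] at this
    simp (disch := omega) only [if_pos, Nat.add_sub_cancel] at this
    rw [testBit_mod512 _ _ hi, this]
  · have := h 10 (by omega)
    rw [HH_left _ _ _ _ (by omega), HH_right _ _ _ _ (by omega)] at this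
    simp (disch := omega) only [if_pos, if_neg, if_true, true_and, and_true, bit15, decide_eq_decide] at this
    omega
  · have := h 65489 (by omega)
    rw [HH_left _ _ _ _ (by omega), HH_right _ _ _ _ (by omega)] at this
    simp (disch := omega) only [if_pos, if_neg, if_true, true_and, and_true] at this
    exact this.symm

theorem injV (qx qy qx' qy' : ℕ) (β β' : St) (h1 : qx < 512) (h3 : qx' < 512)
    (h4 : qy' < 65536) (h : ∀ x, x < 512 → VV qx qy β x 65536 = VV qx' qy' β' x 0) :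
    qy' = (qy + 1) % 65536 ∧ qx' / 256 = qx / 256 ∧ β'.2.2.1 = β.2.2.2 := by
  refine ⟨bits_eq (m := 16) h4 (Nat.mod_lt _ (by norm_num)) (fun i hi => ?_), ?_, ?_⟩
  · have := h (257 + i) (by omega)
    rw [VV_bot _ _ _ _ (by omega), VV_top _ _ _ _ (by omega)] at this
    simp (disch := omega) only [if_pos, Nat.add_sub_cancel_left] at this
    rw [testBit_mod65536 _ _ hi, this]
  · have := h 281 (by omega)
    rw [VV_bot _ _ _ _ (by omega), VV_top _ _ _ _ (by omega)] at this
    simp (disch := omega) only [if_pos, if_neg, if_true, true_and, and_true, bit8, decide_eq_decide] at this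
    omega
  · have := h 431 (by omega)
    rw [VV_bot _ _ _ _ (by omega), VV_top _ _ _ _ (by omega)] at this
    simp (disch := omega) only [if_pos, if_neg, if_true, true_and, and_true] at this
    exact this.symm

theorem zH (y : ℕ) (hy : y < 65536) (hi : idleH y) (s : St) (h : Tb 511 y s = true) :
    s.2.1 = false := by
  unfold idleH at hi
  have key : (rule 511 y).1 = .zero := by
    have : (y = 0 ∨ (11 ≤ y ∧ y < 512)) ∨ (512 ≤ y ∧ y < 65024) ∨ (65024 ≤ y ∧ y < 65484) ∨
      (65484 ≤ y ∧ y ≠ 65489) := by omega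
    rcases this with g | g | g | g <;>
      simp (disch := omega) only [rule, ruleB, blk0, blk1, blk4, hP, hQ, hL, if_pos, if_neg,
        if_true, true_and, and_true, or_true]
  unfold Tb sat at h
  rw [key, Bool.and_eq_true] at h
  simpa [hsat] using h.1

theorem zV (x : ℕ) (hx : x < 512) (hi : idleV x) (s : St) (h : Tb x 65535 s = true) :
    s.2.2.2 = false := by
  unfold idleV at hi
  have key : (rule x 65535).2 = .zero := by
    by_cases g : x < 256 <;>
      simp (disch := omega) only [rule, ruleB, blk0, blk3, vP, if_pos, if_neg, if_true, true_and, and_true]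
  unfold Tb sat at h
  rw [key, Bool.and_eq_true] at h
  simpa [vsat] using h.2

end Pool.Agent.Lib.MP_c73c36_mp
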