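import Pool.Agent.Lib.MP_c73c36_mp.Arr

/-!
Every labelling of a macro-tile that satisfies the rules is a canonical labelling.
-/

set_option autoImplicit false
set_option linter.unusedSimpArgs false
set_option linter.unnecessarySeqFocus false

namespace Pool.Agent.Lib.MP_c73c36_mp

def detH : HR → Bool
  | .jog => false
  | .free => false
  | _ => true

def detV : VR → Bool
  | .tap _ => false
  | .imp => false
  | .free => false
  | _ => true

theorem hsat_det (ρ : HR) (hρ : detH ρ = true) (l r r' d u u' : Bool)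
    (h : hsat ρ l r d u = true) (h' : hsat ρ l r' d u' = true) : r = r' := by
  cases ρ <;> simp only [detH, hsat, Bool.and_eq_true, beq_iff_eq, Bool.not_eq_true',
    Bool.false_eq_true] at hρ h h' <;> simp_all

theorem vsat_det (ρ : VR) (hρ : detV ρ = true) (l r r' d u u' : Bool)
    (h : vsat ρ l r d u = true) (h' : vsat ρ l r' d u' = true) : u = u' := by
  cases ρ <;> simp only [detV, vsat, Bool.and_eq_true, beq_iff_eq, Bool.not_eq_true',
    Bool.false_eq_true] at hρ h h' <;> simp_all

theorem detH_lit (o : Option Bool) : detH (litRule o) = true := by cases o <;> rfl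

theorem detV_or (b : Bool) : detV (orRule b) = true := by cases b <;> rfl

theorem detH_hP (c j : ℕ)
    (h : ¬ ((c = 153 ∧ (j = 463 ∨ j = 467 ∨ j = 469)) ∨ (c = 173 ∧ j = 465))) :
    detH (hP c j) = true := by
  unfold hP
  split_ifs <;> first | rfl | exact detH_lit _ | omega

theorem detV_vP (c j : ℕ)
    (h : ¬ ((154 ≤ c ∧ c ≤ 169 ∧ (j = 461 ∨ j = 463 ∨ j = 465 ∨ j = 467)) ∨ (c = 173 ∧ j = 465) ∨
      (c = 175 ∧ j = 469))) : detV (vP c j) = true := by
  unfold vP vA
  split_ifs <;> first | rfl | exact detV_or _ | omega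

theorem detH_rule (x y : ℕ) (hx : x < 512) (hy : y < 65536)
    (h : ¬ ((x = 409 ∧ (y = 65487 ∨ y = 65491 ∨ y = 65493)) ∨ (x = 429 ∧ y = 65489))) :
    detH (rule x y).1 = true := by
  unfold rule ruleB
  split_ifs
  · rfl
  · rw [blk1]; unfold hQ; split_ifs <;> rfl
  · rw [blk3]; unfold hE; split_ifs <;> rfl
  · rw [blk0]; exact detH_hP _ _ (by omega)
  · unfold romRule; split_ifs <;> rfl
  · rfl
  · rw [blk4]; unfold hL; split_ifs <;> rfl

theorem detV_rule (x y : ℕ) (hx : x < 512) (hy : y < 65536)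
    (h : ¬ ((410 ≤ x ∧ x ≤ 425 ∧ (y = 65485 ∨ y = 65487 ∨ y = 65489 ∨ y = 65491)) ∨
      (x = 429 ∧ y = 65489) ∨ (x = 431 ∧ y = 65493))) :
    detV (rule x y).2 = true := by
  unfold rule ruleB
  split_ifs
  · rw [blk2]; unfold vD; split_ifs <;> rfl
  · rw [blk1]; unfold vQ; split_ifs <;> rfl
  · rfl
  · rw [blk0]; exact detV_vP _ _ (by omega)
  · unfold romRule; split_ifs <;> rfl
  · rfl
  · rw [blk4]; unfold vL; split_ifs <;> rfl

/-- The labelling `(h, v)` satisfies the rule of the cell `(x, y)`. -/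
def Sat (h v : ℕ → ℕ → Bool) (x y : ℕ) : Prop :=
  Tb x y (h x y, h (x + 1) y, v x y, v x (y + 1)) = true

theorem Sat.hs {h v : ℕ → ℕ → Bool} {x y : ℕ} (s : Sat h v x y) :
    hsat (rule x y).1 (h x y) (h (x + 1) y) (v x y) (v x (y + 1)) = true := by
  unfold Sat Tb sat at s
  rw [Bool.and_eq_true] at s
  exact s.1

theorem Sat.vs {h v : ℕ → ℕ → Bool} {x y : ℕ} (s : Sat h v x y) :
    vsat (rule x y).2 (h x y) (h (x + 1) y) (v x y) (v x (y + 1)) = true := by
  unfold Sat Tb sat at s
  rw [Bool.and_eq_true] at s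
  exact s.2

theorem negH_row (x y : ℕ) (hx : x < 512)
    (h : (y = 65489 ∧ (x ≤ 426 ∨ 430 ≤ x)) ∨ (y = 65487 ∧ 410 ≤ x ∧ x ≤ 430) ∨
      (y = 65491 ∧ 410 ≤ x ∧ x ≤ 428) ∨ (y = 65493 ∧ 410 ≤ x ∧ x ≤ 430)) :
    (rule x y).1 = .neg := by
  by_cases g : x < 256
  · simp (disch := omega) only [rule, ruleB, blk3, hE, if_pos, if_neg, if_true]
  · rcases h with h | h | h | h <;>
      simp (disch := omega) only [rule, ruleB, blk0, hP, if_pos, if_neg, if_true]

theorem negV_col (y : ℕ) (h : y < 65487 ∨ (65494 ≤ y ∧ y < 65536)) : (rule 431 y).2 = .neg := by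
  have : y < 512 ∨ (512 ≤ y ∧ y < 65024) ∨ (65024 ≤ y ∧ y < 65487) ∨ (65494 ≤ y ∧ y < 65536) := by
    omega
  rcases this with g | g | g | g <;>
    simp (disch := omega) only [rule, ruleB, blk0, blk1, blk4, vP, vQ, vL, if_pos, if_neg, if_true]

theorem passH_row (x y : ℕ) (h : (y = 10 ∧ x < 272) ∨ (y = 9 ∧ x < 281)) :
    (rule x y).1 = .pass := by
  by_cases g : x < 256 <;>
    simp (disch := omega) only [rule, ruleB, blk1, blk2, hQ, if_pos, if_neg, if_true]

theorem passV_col (x y : ℕ) (h : (x = 272 ∧ y < 10) ∨ (x = 281 ∧ y < 9)) :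
    (rule x y).2 = .pass := by
  simp (disch := omega) only [rule, ruleB, blk1, vQ, if_pos, if_neg, if_true]

theorem rule_cD1 : (rule 431 65487).1 = .cD := rfl
theorem rule_cD2 : (rule 429 65491).1 = .cD := rfl
theorem rule_cU : (rule 431 65493).1 = .cU := rfl
theorem rule_jog : (rule 429 65489).1 = .jog := rfl
theorem rule_neg : (rule 429 65490).2 = .neg := rfl
theorem rule_eqd : (rule 272 10).1 = .eqd := rfl
theorem rule_eql : (rule 281 9).2 = .eql := rfl

section
variable {h v H V : ℕ → ℕ → Bool} {x y : ℕ}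

theorem agree_negH (e : (rule x y).1 = .neg) (s : Sat h v x y) (s' : Sat H V x y) :
    h x y = H x y ↔ h (x + 1) y = H (x + 1) y := by
  have a := s.hs
  have b := s'.hs
  rw [e] at a b
  simp only [hsat, beq_iff_eq] at a b
  rw [a, b]; simp

theorem agree_negV (e : (rule x y).2 = .neg) (s : Sat h v x y) (s' : Sat H V x y) :
    v x y = V x y ↔ v x (y + 1) = V x (y + 1) := by
  have a := s.vs
  have b := s'.vs
  rw [e] at a b
  simp only [vsat, beq_iff_eq] at a b
  rw [a, b]; simp

theorem agree_cD (e : (rule x y).1 = .cD) (s : Sat h v x y) (s' : Sat H V x y)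
    (k : v x y = V x y) : h x y = H x y := by
  have a := s.hs
  have b := s'.hs
  rw [e] at a b
  simp only [hsat, beq_iff_eq, Bool.and_eq_true] at a b
  rw [a.1, b.1, k]

theorem agree_cU (e : (rule x y).1 = .cU) (s : Sat h v x y) (s' : Sat H V x y)
    (k : v x (y + 1) = V x (y + 1)) : h x y = H x y := by
  have a := s.hs
  have b := s'.hs
  rw [e] at a b
  simp only [hsat, beq_iff_eq, Bool.and_eq_true] at a b
  rw [a.1, b.1, k]

theorem agree_jog (e : (rule x y).1 = .jog) (s : Sat h v x y) (s' : Sat H V x y)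
    (k : h (x + 1) y = H (x + 1) y) : v x (y + 1) = V x (y + 1) := by
  have a := s.hs
  have b := s'.hs
  rw [e] at a b
  simp only [hsat, beq_iff_eq, Bool.and_eq_true] at a b
  rw [← a.2, ← b.2, k]

theorem agree_tap {c : Bool} (e : (rule x y).2 = .tap c) (s : Sat h v x y) (s' : Sat H V x y)
    (k : h x y = H x y) (k' : v x (y + 1) = V x (y + 1)) : v x y = V x y := by
  have a := s.vs
  have b := s'.vs
  rw [e] at a b
  simp only [vsat, beq_iff_eq] at a b
  rw [a, b, k, k']

theorem agree_tap0 {c : Bool} (e : (rule x y).2 = .tap0 c) (s : Sat h v x y) (s' : Sat H V x y)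
    (k : h x y = H x y) : v x y = V x y := by
  have a := s.vs
  have b := s'.vs
  rw [e] at a b
  simp only [vsat, beq_iff_eq, Bool.and_eq_true] at a b
  rw [a.2, b.2, k]

end

theorem up_ind (P : ℕ → Prop) (a b : ℕ) (h0 : P a) (hs : ∀ n, a ≤ n → n < b → P n → P (n + 1)) :
    ∀ n, a ≤ n → n ≤ b → P n := by
  intro n hn
  induction n, hn using Nat.le_induction with
  | base => exact fun _ => h0
  | succ n hn ih => exact fun h => hs n hn (by omega) (ih (by omega))

theorem down_ind (P : ℕ → Prop) (a b : ℕ) (h0 : P b)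
    (hs : ∀ n, a ≤ n → n < b → P (n + 1) → P n) : ∀ n, a ≤ n → n ≤ b → P n := by
  have key : ∀ k, k ≤ b - a → P (b - k) := by
    intro k
    induction k with
    | zero => exact fun _ => h0
    | succ k ih =>
      intro hk
      refine hs _ (by omega) (by omega) ?_
      rw [show b - (k + 1) + 1 = b - k by omega]
      exact ih (by omega)
  intro n h1 h2
  have := key (b - n) (by omega)
  rwa [show b - (b - n) = n by omega] at this

/-- Two labellings that satisfy the rules and have the same inputs agree. -/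
theorem agree_all (h v H V : ℕ → ℕ → Bool)
    (s : ∀ x y, x < 512 → y < 65536 → Sat h v x y)
    (s' : ∀ x y, x < 512 → y < 65536 → ¬ (410 ≤ x ∧ x ≤ 425 ∧ y = 65485) → Sat H V x y)
    (si : ∀ x, 410 ≤ x → x ≤ 425 → H (x + 1) 65485 = H x 65485)
    (bl : ∀ y, y < 65536 → h 0 y = H 0 y) (bb : ∀ x, x < 512 → v x 0 = V x 0)
    (br : h 512 65489 = H 512 65489) (bt : v 431 65536 = V 431 65536) :
    (∀ y, y < 65536 → ∀ x, x ≤ 512 → h x y = H x y) ∧
    (∀ y, y ≤ 65536 → ∀ x, x < 512 → v x y = V x y) := by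
  have c1 : v 431 65487 = V 431 65487 :=
    up_ind (fun y => v 431 y = V 431 y) 0 65487 (bb 431 (by omega)) (fun n _ hn ih =>
      (agree_negV (negV_col n (by omega)) (s _ _ (by omega) (by omega))
        (s' _ _ (by omega) (by omega) (by omega))).1 ih) 65487 (by omega) (by omega)
  have c2 : v 431 65494 = V 431 65494 :=
    down_ind (fun y => v 431 y = V 431 y) 65494 65536 bt (fun n _ hn ih =>
      (agree_negV (negV_col n (by omega)) (s _ _ (by omega) (by omega))
        (s' _ _ (by omega) (by omega) (by omega))).2 ih) 65494 (by omega) (by omega)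
  have r1 : ∀ x, 410 ≤ x → x ≤ 431 → h x 65487 = H x 65487 :=
    down_ind (fun x => h x 65487 = H x 65487) 410 431
      (agree_cD rule_cD1 (s _ _ (by omega) (by omega)) (s' _ _ (by omega) (by omega) (by omega)) c1)
      (fun n _ hn ih => (agree_negH (negH_row n _ (by omega) (by omega))
        (s _ _ (by omega) (by omega)) (s' _ _ (by omega) (by omega) (by omega))).2 ih)
  have r4 : ∀ x, 410 ≤ x → x ≤ 431 → h x 65493 = H x 65493 :=
    down_ind (fun x => h x 65493 = H x 65493) 410 431
      (agree_cU rule_cU (s _ _ (by omega) (by omega)) (s' _ _ (by omega) (by omega) (by omega)) c2)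
      (fun n _ hn ih => (agree_negH (negH_row n _ (by omega) (by omega))
        (s _ _ (by omega) (by omega)) (s' _ _ (by omega) (by omega) (by omega))).2 ih)
  have r2 : ∀ x, 0 ≤ x → x ≤ 427 → h x 65489 = H x 65489 :=
    up_ind (fun x => h x 65489 = H x 65489) 0 427 (bl _ (by omega))
      (fun n _ hn ih => (agree_negH (negH_row n _ (by omega) (by omega))
        (s _ _ (by omega) (by omega)) (s' _ _ (by omega) (by omega) (by omega))).1 ih)
  have r2' : h 430 65489 = H 430 65489 :=
    down_ind (fun x => h x 65489 = H x 65489) 430 512 br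
      (fun n _ hn ih => (agree_negH (negH_row n _ (by omega) (by omega))
        (s _ _ (by omega) (by omega)) (s' _ _ (by omega) (by omega) (by omega))).2 ih)
      430 (by omega) (by omega)
  have j1 : v 429 65490 = V 429 65490 :=
    agree_jog rule_jog (s _ _ (by omega) (by omega)) (s' _ _ (by omega) (by omega) (by omega)) r2'
  have j2 : v 429 65491 = V 429 65491 :=
    (agree_negV rule_neg (s _ _ (by omega) (by omega))
      (s' _ _ (by omega) (by omega) (by omega))).1 j1
  have r3 : ∀ x, 410 ≤ x → x ≤ 429 → h x 65491 = H x 65491 :=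
    down_ind (fun x => h x 65491 = H x 65491) 410 429
      (agree_cD rule_cD2 (s _ _ (by omega) (by omega)) (s' _ _ (by omega) (by omega) (by omega)) j2)
      (fun n _ hn ih => (agree_negH (negH_row n _ (by omega) (by omega))
        (s _ _ (by omega) (by omega)) (s' _ _ (by omega) (by omega) (by omega))).2 ih)
  have ec : ∀ x, 410 ≤ x → x ≤ 425 → ∀ y, 65486 ≤ y → y ≤ 65493 → v x y = V x y := by
    intro x h1 h2
    obtain ⟨w, rfl⟩ : ∃ w, x = 410 + w := ⟨x - 410, by omega⟩
    have hw : w < 16 := by omega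
    refine down_ind (fun y => v (410 + w) y = V (410 + w) y) 65486 65493 ?_ ?_
    · have e : (rule (410 + w) 65493).2 = .tap0 (abit w 7) :=
        congrArg Prod.snd (rule_arr w 7 hw (by omega))
      exact agree_tap0 e (s _ _ (by omega) (by omega)) (s' _ _ (by omega) (by omega) (by omega))
        (r4 _ h1 (by omega))
    · intro n hn1 hn2 ih
      obtain ⟨k, rfl⟩ : ∃ k, n = 65485 + (k + 1) := ⟨n - 65486, by omega⟩
      have e := rule_arr w k hw (by omega)
      by_cases hk : k % 2 = 0
      · unfold arule at e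
        rw [if_pos hk] at e
        exact (agree_negV (congrArg Prod.snd e) (s _ _ (by omega) (by omega))
          (s' _ _ (by omega) (by omega) (by omega))).2 ih
      · unfold arule at e
        rw [if_neg hk, if_neg (by omega)] at e
        refine agree_tap (congrArg Prod.snd e) (s _ _ (by omega) (by omega))
          (s' _ _ (by omega) (by omega) (by omega)) ?_ ih
        have : k = 1 ∨ k = 3 ∨ k = 5 := by omega
        rcases this with rfl | rfl | rfl
        · exact r1 _ h1 (by omega)
        · exact r2 _ (by omega) (by omega)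
        · exact r3 _ h1 (by omega)
  have row : ∀ y, y < 65536 → (∀ x, x < 512 → v x y = V x y) →
      (∀ x, x ≤ 512 → h x y = H x y) ∧ (∀ x, x < 512 → v x (y + 1) = V x (y + 1)) := by
    intro y hy hv
    have hh : ∀ x, x ≤ 512 → h x y = H x y := by
      intro x
      induction x with
      | zero => exact fun _ => bl y hy
      | succ x ih =>
        intro hx
        have ih' := ih (by omega)
        by_cases g : (x = 409 ∧ (y = 65487 ∨ y = 65491 ∨ y = 65493)) ∨ (x = 429 ∧ y = 65489)
        · rcases g with ⟨rfl, rfl | rfl | rfl⟩ | ⟨rfl, rfl⟩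
          · exact r1 _ (by omega) (by omega)
          · exact r3 _ (by omega) (by omega)
          · exact r4 _ (by omega) (by omega)
          · exact r2'
        by_cases gi : 410 ≤ x ∧ x ≤ 425 ∧ y = 65485
        · obtain ⟨g1, g2, rfl⟩ := gi
          obtain ⟨w, rfl⟩ : ∃ w, x = 410 + w := ⟨x - 410, by omega⟩
          have a := (s (410 + w) 65485 (by omega) (by omega)).hs
          rw [rule_imp w (by omega)] at a
          simp only [hsat, beq_iff_eq] at a
          rw [a, ih', si _ g1 g2]
        · have a := (s x y (by omega) hy).hs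
          have b := (s' x y (by omega) hy gi).hs
          rw [ih', hv x (by omega)] at a
          exact hsat_det _ (detH_rule x y (by omega) hy g) _ _ _ _ _ _ a b
    refine ⟨hh, fun x hx => ?_⟩
    by_cases g : (410 ≤ x ∧ x ≤ 425 ∧ (y = 65485 ∨ y = 65487 ∨ y = 65489 ∨ y = 65491)) ∨
      (x = 429 ∧ y = 65489) ∨ (x = 431 ∧ y = 65493)
    · rcases g with g | ⟨rfl, rfl⟩ | ⟨rfl, rfl⟩
      · exact ec x g.1 g.2.1 _ (by omega) (by omega)
      · exact j1
      · exact c2
    · have a := (s x y hx hy).vs
      have b := (s' x y hx hy (by omega)).vs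
      rw [hh x (by omega), hv x hx] at a
      exact vsat_det _ (detV_rule x y hx hy g) _ _ _ _ _ _ a b
  have col : ∀ y, y ≤ 65536 → ∀ x, x < 512 → v x y = V x y := by
    intro y
    induction y with
    | zero => exact fun _ => bb
    | succ y ih => exact fun hy => (row y (by omega) (ih (by omega))).2
  exact ⟨fun y hy => (row y hy (col y (by omega))).1, col⟩

theorem exists_bits (n : ℕ) (f : ℕ → Bool) : ∃ q, q < 2 ^ n ∧ ∀ i, i < n → q.testBit i = f i :=
  ⟨Nat.ofBits (fun i : Fin n => f i), Nat.ofBits_lt_two_pow _,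
    fun i hi => Nat.testBit_ofBits_lt _ i hi⟩

theorem sound (h v : ℕ → ℕ → Bool)
    (s : ∀ x y, x < 512 → y < 65536 → Tb x y (h x y, h (x + 1) y, v x y, v x (y + 1)) = true)
    (h0 : ∀ y, y < 65536 → idleH y → h 0 y = false)
    (v0 : ∀ x, x < 512 → idleV x → v x 0 = false) :
    ∃ qx qy β, qx < 512 ∧ qy < 65536 ∧ Tb qx qy β = true ∧ ∀ x y, x < 512 → y < 65536 →
      (h x y, h (x + 1) y, v x y, v x (y + 1)) = labOf HH VV qx qy β x y := by
  replace s : ∀ x y, x < 512 → y < 65536 → Sat h v x y := s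
  obtain ⟨qx, hqx, bx⟩ := exists_bits 9 (fun i => h 0 (i + 1))
  obtain ⟨qy, hqy, by'⟩ := exists_bits 16 (fun i => v (257 + i) 0)
  replace hqx : qx < 512 := hqx
  replace hqy : qy < 65536 := hqy
  obtain ⟨β, hβ⟩ : ∃ β : St, β = (h 0 65489, h 512 65489, v 431 0, v 431 65536) := ⟨_, rfl⟩
  have ph : ∀ x y, (rule x y).1 = .pass → x < 512 → y < 65536 → h (x + 1) y = h x y := by
    intro x y e hx hy
    have a := (s x y hx hy).hs
    rw [e] at a
    simpa [hsat] using a
  have pv : ∀ x y, (rule x y).2 = .pass → x < 512 → y < 65536 → v x (y + 1) = v x y := by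
    intro x y e hx hy
    have a := (s x y hx hy).vs
    rw [e] at a
    simpa [vsat] using a
  have t1 : h 0 10 = v 272 0 := by
    have a1 : h 272 10 = h 0 10 := up_ind (fun x => h x 10 = h 0 10) 0 272 rfl
      (fun n _ hn ih => (ph n 10 (passH_row _ _ (by omega)) (by omega) (by omega)).trans ih)
      272 (by omega) (by omega)
    have a2 : v 272 10 = v 272 0 := up_ind (fun y => v 272 y = v 272 0) 0 10 rfl
      (fun n _ hn ih => (pv 272 n (passV_col _ _ (by omega)) (by omega) (by omega)).trans ih)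
      10 (by omega) (by omega)
    have a := (s 272 10 (by omega) (by omega)).hs
    rw [rule_eqd] at a
    simp only [hsat, beq_iff_eq, Bool.and_eq_true] at a
    rw [← a1, a.2, a2]
  have t2 : v 281 0 = h 0 9 := by
    have a1 : h 281 9 = h 0 9 := up_ind (fun x => h x 9 = h 0 9) 0 281 rfl
      (fun n _ hn ih => (ph n 9 (passH_row _ _ (by omega)) (by omega) (by omega)).trans ih)
      281 (by omega) (by omega)
    have a2 : v 281 9 = v 281 0 := up_ind (fun y => v 281 y = v 281 0) 0 9 rfl
      (fun n _ hn ih => (pv 281 n (passV_col _ _ (by omega)) (by omega) (by omega)).trans ih)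
      9 (by omega) (by omega)
    have a := (s 281 9 (by omega) (by omega)).vs
    rw [rule_eql] at a
    simp only [vsat, beq_iff_eq, Bool.and_eq_true] at a
    rw [← a2, a.2, a1]
  obtain ⟨aH, aV⟩ := agree_all h v (HH qx qy β) (VV qx qy β) s
    (fun x y hx hy hi => comp_nonimp qx qy β x y hqx hqy hx hy hi)
    (fun x h1 h2 => by
      obtain ⟨w, rfl⟩ : ∃ w, x = 410 + w := ⟨x - 410, by omega⟩
      have := lab_imp qx qy β w hqx hqy (by omega)
      unfold labOf at this
      simp only [Prod.mk.injEq] at this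
      rw [this.1, this.2.1])
    (fun y hy => by
      rw [HH_left _ _ _ _ hy]
      split_ifs with g1 g2 g3
      · rw [bx _ (by omega), show y - 1 + 1 = y by omega]
      · rw [by' 15 (by omega), g2, t1]
      · rw [g3, hβ]
      · exact h0 y hy (by unfold idleH; omega))
    (fun x hx => by
      rw [VV_bot _ _ _ _ hx]
      split_ifs with g1 g2 g3
      · rw [by' _ (by omega), show 257 + (x - 257) = x by omega]
      · rw [bx 8 (by omega), g2, t2]
      · rw [g3, hβ]
      · exact v0 x hx (by unfold idleV; omega))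
    (by rw [HH_right _ _ _ _ (by omega), if_neg (by omega), if_neg (by omega), if_pos rfl, hβ])
    (by rw [VV_top _ _ _ _ (by omega), if_neg (by omega), if_neg (by omega), if_pos rfl, hβ])
  have hl : ∀ x y, x < 512 → y < 65536 →
      (h x y, h (x + 1) y, v x y, v x (y + 1)) = labOf HH VV qx qy β x y := by
    intro x y hx hy
    unfold labOf
    rw [aH y hy x (by omega), aH y hy (x + 1) (by omega), aV y (by omega) x hx,
      aV (y + 1) (by omega) x hx]
  refine ⟨qx, qy, β, hqx, hqy, ?_, hl⟩
  obtain ⟨w, hw, e⟩ := exists_decw β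
  have a := s (410 + w) 65485 (by omega) (by omega)
  unfold Sat at a
  rw [hl _ _ (by omega) (by omega), lab_imp _ _ _ _ hqx hqy hw, (m1_iff β w).2 e, e] at a
  unfold Tb at a ⊢
  rw [rule_imp w hw] at a
  simpa [sat, hsat, vsat] using a

end Pool.Agent.Lib.MP_c73c36_mp
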