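import Pool.Agent.Lib.MP_c73c36_mp.Bal
import Pool.Agent.Lib.MP_c73c36_mp.Sound
import Pool.Agent.Lib.MP_c73c36_mp.Final

/-!
The self-simulating tile set.
-/

set_option autoImplicit false

namespace Pool.Agent.Lib.MP_c73c36_mp

theorem base : ∃ qx qy β, qx < 512 ∧ qy < 65536 ∧ Tb qx qy β = true :=
  ⟨0, 65024, (false, false, false, false), by omega, by omega, rfl⟩

def theSim : Sim where
  T := Tb
  H := HH
  V := VV
  idleH := idleH
  idleV := idleV
  Arr := Arr
  base := base
  comp := fun qx qy β hx hy hT x y hx' hy' => comp_all qx qy β hx hy hT x y hx' hy'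
  bdH := fun qx qy β β' _ _ h y hy => bdH qx qy β β' h y hy
  bdV := fun qx qy β β' _ _ h x hx => bdV qx qy β β' h x hx
  injH := fun qx qy qx' qy' β β' _ h2 h3 h4 h => injH qx qy qx' qy' β β' h2 h3 h4 h
  injV := fun qx qy qx' qy' β β' h1 _ h3 h4 h => injV qx qy qx' qy' β β' h1 h3 h4 h
  zH := zH
  zV := zV
  sound := sound
  f1 := f1
  f2 := f2
  pairH := fun qx qy β β' i y _ hy => pairH qx qy β β' i y hy
  pairV := pairV
  arrB := arrB
  cls := fun x y hx hy h => cls x y hx hy (fun hc => h ((mem_Arr x y).2 hc))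
  arrT := arrT
  arrSum := arrSum

end Pool.Agent.Lib.MP_c73c36_mp
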