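import Pool.Agent.Lib.MP_c73c36_mp.Sim

/-!
On the subshift of a balanced self-simulating tile set, every local function is trivial.
-/

set_option autoImplicit false

namespace Pool.Agent.Lib.MP_c73c36_mp

open Finset

theorem box_ex : ∃ s : Finset (ℕ × ℕ), s = range 512 ×ˢ range 65536 := ⟨_, rfl⟩

/-- The positions of a macro-tile. -/
noncomputable def box : Finset (ℕ × ℕ) := box_ex.choose

theorem box_eq : box = range 512 ×ˢ range 65536 := box_ex.choose_spec

theorem mem_box {p : ℕ × ℕ} : p ∈ box ↔ p.1 < 512 ∧ p.2 < 65536 := by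
  simp only [box_eq, mem_product, mem_range]

theorem sum_box (f : ℕ × ℕ → ℝ) :
    ∑ p ∈ box, f p = ∑ x ∈ range 512, ∑ y ∈ range 65536, f (x, y) := by
  rw [box_eq]; exact sum_product _ _ _

theorem sum_box' (f : ℕ × ℕ → ℝ) :
    ∑ p ∈ box, f p = ∑ y ∈ range 65536, ∑ x ∈ range 512, f (x, y) := by
  rw [box_eq]; exact sum_product_right _ _ _

theorem sum_range_two_mul (g : ℕ → ℝ) (n : ℕ) :
    ∑ x ∈ range (2 * n), g x = ∑ i ∈ range n, (g (2 * i) + g (2 * i + 1)) := by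
  induction n with
  | zero => simp
  | succ n ih =>
    rw [show 2 * (n + 1) = 2 * n + 1 + 1 by ring, sum_range_succ, sum_range_succ, ih,
      sum_range_succ, add_assoc]

theorem box_card_ne : ((box.card : ℕ) : ℝ) ≠ 0 := by
  have : box.Nonempty := ⟨(0, 0), mem_box.2 ⟨by norm_num, by norm_num⟩⟩
  exact_mod_cast this.card_pos.ne'

def zz (p : ℕ × ℕ) : ℤ × ℤ := ((p.1 : ℤ), (p.2 : ℤ))

theorem sh_zz_zero (p : ℕ × ℕ) (X : Cfg) : sh (zz p) X (0, 0) = X ((p.1 : ℤ), (p.2 : ℤ)) := by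
  show X (0 + (p.1 : ℤ), 0 + (p.2 : ℤ)) = _
  rw [zero_add, zero_add]

/-- Indicator that the origin has position `p` in its macro-tile. -/
noncomputable def at0 (p : ℕ × ℕ) (X : Cfg) : ℝ :=
  if px (X (0, 0)) = p.1 ∧ py (X (0, 0)) = p.2 then 1 else 0

theorem loc_at0 (p : ℕ × ℕ) : Loc (at0 p) :=
  (Loc.eval (A := Tile) ((0, 0) : ℤ × ℤ)).map
    (fun t => if px t = p.1 ∧ py t = p.2 then (1 : ℝ) else 0)

theorem sum_at0 (X : Cfg) : ∑ p ∈ box, at0 p X = 1 := by
  rw [sum_eq_single_of_mem (px (X (0, 0)), py (X (0, 0))) (mem_box.2 ⟨px_lt _, py_lt _⟩)]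
  · simp [at0]
  · intro p _ hp
    unfold at0
    rw [if_neg]
    rintro ⟨h1, h2⟩
    exact hp (Prod.ext h1.symm h2.symm)

namespace Sim

variable (S : Sim)

theorem at0_sh {X : Cfg} (hX : X ∈ S.Om) {p : ℕ × ℕ} (hp : p ∈ box) :
    at0 p (sh (zz p) X) = at0 (0, 0) X := by
  unfold at0
  rw [sh_zz_zero]
  obtain ⟨h1, h2⟩ := mem_box.1 hp
  have := S.pos_eq hX p.1 p.2
  have p1 := px_lt (X (0, 0))
  have p2 := py_lt (X (0, 0))
  refine if_congr ?_ rfl rfl
  simp only
  omega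

theorem gather {f : Cfg → ℝ} (hf : Loc f) :
    Triv S.Om (fun X => f X - at0 (0, 0) X * ∑ p ∈ box, f (sh (zz p) X)) := by
  have h1 : Triv S.Om (fun X => ∑ p ∈ box,
      (at0 p (sh (zz p) X) * f (sh (zz p) X) - at0 p X * f X)) :=
    Triv.sum _ (fun p _ => Triv.cob (fun X => at0 p X * f X) (zz p)
      ((loc_at0 p).map₂ hf (fun a b => a * b)))
  refine (h1.smul (-1)).congr ?_ ?_
  · exact hf.map₂ ((loc_at0 (0, 0)).map₂ (Loc.sum box (fun p _ => hf.shift (zz p)))
      (fun a b => a * b)) (fun a b => a - b)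
  · intro X hX
    have e : ∑ p ∈ box, at0 p (sh (zz p) X) * f (sh (zz p) X) =
        ∑ p ∈ box, at0 (0, 0) X * f (sh (zz p) X) :=
      sum_congr rfl (fun p hp => by rw [S.at0_sh hX hp])
    rw [sum_sub_distrib, ← sum_mul, sum_at0, mul_sum, e]
    ring

theorem triv_at0 : Triv S.Om (at0 (0, 0)) := by
  have h1 := S.gather (Loc.const (1 : ℝ))
  have h2 := ((Triv.const (Ω := S.Om) 1).sub h1).smul ((box.card : ℕ) : ℝ)⁻¹
  refine h2.congr (loc_at0 _) (fun X _ => ?_)
  have := box_card_ne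
  simp only [sum_const, nsmul_eq_mul, mul_one]
  field_simp
  ring

theorem loc_Dec_eval (a : ℤ × ℤ) : Loc (fun X => S.Dec X a) := by
  refine ⟨box.image (fun p => (512 * a.1 + p.1, 65536 * a.2 + p.2)), fun X Y h => ?_⟩
  refine S.dec_congr (fun x y hx hy => h _ ?_)
  exact mem_image.2 ⟨(x, y), mem_box.2 ⟨hx, hy⟩, rfl⟩

theorem loc_Dec {k : Cfg → ℝ} (hk : Loc k) : Loc (fun X => k (S.Dec X)) := by
  classical
  obtain ⟨s, hs⟩ := hk
  choose t ht using S.loc_Dec_eval
  refine ⟨s.biUnion t, fun X Y h => hs _ _ (fun a ha => ht a X Y (fun i hi => h i ?_))⟩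
  exact mem_biUnion.2 ⟨a, ha, hi⟩

theorem triv_Dec {k : Cfg → ℝ} (hk : Triv S.Om k) :
    Triv S.Om (fun X => at0 (0, 0) X * k (S.Dec X)) := by
  induction hk with
  | const c => simpa [mul_comm] using S.triv_at0.smul c
  | cob g a hg =>
    have hG : Loc (fun X => at0 (0, 0) X * g (S.Dec X)) :=
      (loc_at0 _).map₂ (S.loc_Dec hg) (fun a b => a * b)
    refine (Triv.cob _ ((512 * a.1, 65536 * a.2) : ℤ × ℤ) hG).congr ?_ ?_
    · exact (loc_at0 _).map₂ (S.loc_Dec ((hg.shift a).map₂ hg (fun a b => a - b)))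
        (fun a b => a * b)
    · intro X hX
      rw [S.Dec_sh]
      have : at0 (0, 0) (sh ((512 * a.1, 65536 * a.2) : ℤ × ℤ) X) = at0 (0, 0) X := by
        unfold at0
        have e : sh ((512 * a.1, 65536 * a.2) : ℤ × ℤ) X (0, 0) =
            X (0 + 512 * a.1, 0 + 65536 * a.2) := by simp only [sh, Prod.mk_add_mk]
        rw [e]
        have := S.pos_eq hX (0 + 512 * a.1) (0 + 65536 * a.2)
        have p1 := px_lt (X (0, 0))
        have p2 := py_lt (X (0, 0))
        refine if_congr ?_ rfl rfl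
        simp only
        omega
      rw [this]; ring
  | van f hf hv =>
    refine Triv.van _ ((loc_at0 _).map₂ (S.loc_Dec hf) (fun a b => a * b)) (fun X hX => ?_)
    unfold at0
    split_ifs with h
    · rw [hv _ (S.Dec_mem hX h.1 h.2), mul_zero]
    · rw [zero_mul]
  | add f g _ _ ihf ihg => simpa [mul_add] using Triv.add _ _ ihf ihg

/-- The substitution operator on functions. -/
noncomputable def M (f : Cfg → ℝ) (X : Cfg) : ℝ := ∑ p ∈ box, f (sh (zz p) (S.Sub X))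

theorem lift {f : Cfg → ℝ} (hf : Loc f) (h : Triv S.Om (S.M f)) : Triv S.Om f := by
  refine (Triv.add _ _ (S.gather hf) (S.triv_Dec h)).congr hf (fun X hX => ?_)
  unfold at0
  split_ifs with h0
  · unfold M
    rw [S.Sub_Dec hX h0.1 h0.2]; ring
  · ring

/-- Triviality of a function of the tile at the origin. -/
def TT (F : Tile → ℝ) : Prop := Triv S.Om (fun X => F (X (0, 0)))

theorem loc_tile (F : Tile → ℝ) : Loc (fun X : Cfg => F (X (0, 0))) :=
  (Loc.eval (A := Tile) ((0, 0) : ℤ × ℤ)).map F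

variable {S}

theorem TT.congr {F G : Tile → ℝ} (hG : S.TT G)
    (h : ∀ t, S.T (px t) (py t) (st t) = true → F t = G t) : S.TT F :=
  Triv.congr hG (loc_tile F) (fun _ hX => h _ (hX 0 0).1)

theorem TT.add {F G : Tile → ℝ} (hF : S.TT F) (hG : S.TT G) : S.TT (fun t => F t + G t) :=
  Triv.add _ _ hF hG

theorem TT.sum {κ : Type} (s : Finset κ) {F : κ → Tile → ℝ} (h : ∀ k ∈ s, S.TT (F k)) :
    S.TT (fun t => ∑ k ∈ s, F k t) := Triv.sum s h

theorem TT.lift {F : Tile → ℝ} (h : S.TT (fun t => ∑ p ∈ box, F (S.sub t p.1 p.2))) :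
    S.TT F := by
  refine S.lift (loc_tile F) ?_
  have : S.M (fun X => F (X (0, 0))) = fun X => ∑ p ∈ box, F (S.sub (X (0, 0)) p.1 p.2) := by
    funext X
    refine sum_congr rfl (fun p hp => ?_)
    obtain ⟨h1, h2⟩ := mem_box.1 hp
    simp only [sh_zz_zero]
    rw [← S.Sub_apply X 0 0 p.1 p.2 h1 h2]
    simp only [mul_zero, zero_add]
  rw [this]
  exact h

theorem px_sub (t : Tile) {p : ℕ × ℕ} (hp : p ∈ box) : px (S.sub t p.1 p.2) = p.1 :=
  Nat.mod_eq_of_lt (mem_box.1 hp).1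

theorem py_sub (t : Tile) {p : ℕ × ℕ} (hp : p ∈ box) : py (S.sub t p.1 p.2) = p.2 :=
  Nat.mod_eq_of_lt (mem_box.1 hp).2

theorem st_sub (t : Tile) (x y : ℕ) : st (S.sub t x y) = S.lab (px t) (py t) (st t) x y := rfl

theorem TT.pos (φ : ℕ → ℕ → ℝ) : S.TT (fun t => φ (px t) (py t)) := by
  refine TT.lift ?_
  refine TT.congr (G := fun _ => ∑ p ∈ box, φ p.1 p.2) (Triv.const _) (fun t _ => ?_)
  exact sum_congr rfl (fun p hp => by rw [px_sub t hp, py_sub t hp])

theorem bool_affine (φ : Bool → ℝ) (b : Bool) :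
    φ b = φ false + (φ true - φ false) * (b.toNat : ℝ) := by
  cases b <;> simp

theorem TT.left (φ : ℕ → ℕ → Bool → ℝ)
    (hφ : ∀ x x' y b, x / 2 = x' / 2 → φ x y b = φ x' y b) :
    S.TT (fun t => φ (px t) (py t) (st t).1) := by
  have h1 : S.TT (fun t => (φ (px t) (py t) true - φ (px t) (py t) false) *
      ((st t).1.toNat : ℝ)) := by
    refine TT.lift ?_
    refine TT.congr (TT.pos (fun qx qy => ∑ p ∈ box, (φ p.1 p.2 true - φ p.1 p.2 false) *
      ((S.H qx qy (false, false, false, false) p.1 p.2).toNat : ℝ))) (fun t _ => ?_)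
    rw [sum_congr rfl (fun p hp => by rw [px_sub t hp, py_sub t hp, st_sub]), sum_box', sum_box']
    refine sum_congr rfl (fun y hy => ?_)
    rw [show 512 = 2 * 256 by norm_num, sum_range_two_mul, sum_range_two_mul]
    refine sum_congr rfl (fun i hi => ?_)
    have h := S.pairH (px t) (py t) (st t) (false, false, false, false) i y (mem_range.1 hi)
      (mem_range.1 hy)
    have h' : ((S.H (px t) (py t) (st t) (2 * i) y).toNat : ℝ) +
        (S.H (px t) (py t) (st t) (2 * i + 1) y).toNat =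
        (S.H (px t) (py t) (false, false, false, false) (2 * i) y).toNat +
        (S.H (px t) (py t) (false, false, false, false) (2 * i + 1) y).toNat := by
      exact_mod_cast h
    simp only [lab, labOf]
    rw [hφ (2 * i + 1) (2 * i) y true (by omega), hφ (2 * i + 1) (2 * i) y false (by omega),
      ← mul_add, ← mul_add, h']
  exact ((TT.pos (fun x y => φ x y false)).add h1).congr
    (fun t _ => bool_affine (φ (px t) (py t)) _)

theorem TT.down (φ : ℕ → ℕ → Bool → ℝ)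
    (hφ : ∀ x y y' b, y / 2 = y' / 2 → φ x y b = φ x y' b) :
    S.TT (fun t => φ (px t) (py t) (st t).2.2.1) := by
  have h1 : S.TT (fun t => (φ (px t) (py t) true - φ (px t) (py t) false) *
      ((st t).2.2.1.toNat : ℝ)) := by
    refine TT.lift ?_
    refine TT.congr (TT.pos (fun qx qy => ∑ p ∈ box, (φ p.1 p.2 true - φ p.1 p.2 false) *
      ((S.V qx qy (false, false, false, false) p.1 p.2).toNat : ℝ))) (fun t _ => ?_)
    rw [sum_congr rfl (fun p hp => by rw [px_sub t hp, py_sub t hp, st_sub]), sum_box, sum_box]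
    refine sum_congr rfl (fun x hx => ?_)
    rw [show 65536 = 2 * 32768 by norm_num, sum_range_two_mul, sum_range_two_mul]
    refine sum_congr rfl (fun j hj => ?_)
    have h := S.pairV (px t) (py t) (st t) (false, false, false, false) x j (mem_range.1 hx)
      (mem_range.1 hj)
    have h' : ((S.V (px t) (py t) (st t) x (2 * j)).toNat : ℝ) +
        (S.V (px t) (py t) (st t) x (2 * j + 1)).toNat =
        (S.V (px t) (py t) (false, false, false, false) x (2 * j)).toNat +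
        (S.V (px t) (py t) (false, false, false, false) x (2 * j + 1)).toNat := by
      exact_mod_cast h
    simp only [lab, labOf]
    rw [hφ x (2 * j + 1) (2 * j) true (by omega), hφ x (2 * j + 1) (2 * j) false (by omega),
      ← mul_add, ← mul_add, h']
  exact ((TT.pos (fun x y => φ x y false)).add h1).congr
    (fun t _ => bool_affine (φ (px t) (py t)) _)

theorem TT.right (φ : Bool → ℝ) : S.TT (fun t => φ (st t).2.1) := by
  have h1 : S.TT (fun t => φ (st t).1) := TT.left (fun _ _ b => φ b) (fun _ _ _ _ _ => rfl)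
  refine Triv.congr (Triv.shift h1 ((1, 0) : ℤ × ℤ)) (loc_tile (fun t => φ (st t).2.1))
    (fun X hX => ?_)
  obtain ⟨-, -, -, a3, -⟩ := hX 0 0
  exact congrArg φ a3.symm

theorem TT.up (φ : Bool → ℝ) : S.TT (fun t => φ (st t).2.2.2) := by
  have h1 : S.TT (fun t => φ (st t).2.2.1) := TT.down (fun _ _ b => φ b) (fun _ _ _ _ _ => rfl)
  refine Triv.congr (Triv.shift h1 ((0, 1) : ℤ × ℤ)) (loc_tile (fun t => φ (st t).2.2.2))
    (fun X hX => ?_)
  obtain ⟨-, -, -, -, -, -, b3⟩ := hX 0 0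
  exact congrArg φ b3.symm

theorem TT.cell {p : ℕ × ℕ} (hp : p ∈ box) (ha : p ∉ S.Arr) (φ : St → ℝ) :
    S.TT (fun t => φ (S.lab (px t) (py t) (st t) p.1 p.2)) := by
  obtain ⟨h1, h2⟩ := mem_box.1 hp
  rcases S.cls p.1 p.2 h1 h2 ha with h | h | h | h | h
  · refine (TT.pos (fun qx qy => φ (S.lab qx qy (false, false, false, false) p.1 p.2))).congr
      (fun t _ => congrArg φ (h _ _ _ _))
  · refine (TT.left (fun qx qy b => φ (S.lab qx qy (b, false, false, false) p.1 p.2))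
      (fun x x' y b hx => congrArg φ (h _ _ _ _ _ hx rfl))).congr
      (fun t _ => congrArg φ (h _ _ _ _ _ rfl rfl))
  · refine (TT.down (fun qx qy b => φ (S.lab qx qy (false, false, b, false) p.1 p.2))
      (fun x y y' b hy => congrArg φ (h _ _ _ _ _ hy rfl))).congr
      (fun t _ => congrArg φ (h _ _ _ _ _ rfl rfl))
  · exact (TT.right (fun b => φ (S.lab 0 0 (false, b, false, false) p.1 p.2))).congr
      (fun t _ => congrArg φ (h _ _ _ _ _ _ rfl))
  · exact (TT.up (fun b => φ (S.lab 0 0 (false, false, false, b) p.1 p.2))).congr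
      (fun t _ => congrArg φ (h _ _ _ _ _ _ rfl))

theorem arr_sub : S.Arr ⊆ box := fun p hp => mem_box.2 (S.arrB p hp)

theorem TT.table (G : (St → Bool) → St → ℝ) : S.TT (fun t => G (S.T (px t) (py t)) (st t)) := by
  classical
  refine TT.lift ?_
  have h1 : S.TT (fun t => ∑ p ∈ box \ S.Arr,
      G (S.T p.1 p.2) (S.lab (px t) (py t) (st t) p.1 p.2)) :=
    TT.sum _ (fun p hp => TT.cell (mem_sdiff.1 hp).1 (mem_sdiff.1 hp).2 (G (S.T p.1 p.2)))
  have h2 := TT.pos (S := S) (fun qx qy => if h : ∃ β, S.T qx qy β = true then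
    ∑ p ∈ S.Arr, G (S.T p.1 p.2) (S.lab qx qy h.choose p.1 p.2) else 0)
  refine (h1.add h2).congr (fun t ht => ?_)
  have h : ∃ β, S.T (px t) (py t) β = true := ⟨_, ht⟩
  rw [sum_congr rfl (fun p hp => by rw [px_sub t hp, py_sub t hp, st_sub]), dif_pos h,
    ← sum_sdiff arr_sub]
  congr 1
  exact S.arrSum G _ _ _ _ (px_lt _) (py_lt _) ht h.choose_spec

theorem TT.all (F : Tile → ℝ) : S.TT F := by
  classical
  refine TT.lift ?_
  refine TT.sum _ (fun p hp => ?_)
  by_cases ha : p ∈ S.Arr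
  · refine (TT.table (fun τ β => if h : ∃ q : ℕ × ℕ, q.1 < 512 ∧ q.2 < 65536 ∧ S.T q.1 q.2 = τ
      then F (mkT p.1 p.2 (S.lab h.choose.1 h.choose.2 β p.1 p.2)) else 0)).congr (fun t _ => ?_)
    have h : ∃ q : ℕ × ℕ, q.1 < 512 ∧ q.2 < 65536 ∧ S.T q.1 q.2 = S.T (px t) (py t) :=
      ⟨(px t, py t), px_lt _, py_lt _, rfl⟩
    rw [dif_pos h]
    obtain ⟨c1, c2, c3⟩ := h.choose_spec
    unfold sub lab
    rw [S.arrT p ha _ _ _ _ (st t) (px_lt _) (py_lt _) c1 c2 c3.symm]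
  · exact TT.cell hp ha (fun s => F (mkT p.1 p.2 s))

/-- Dependence on the window `[0,w]²`. -/
def Win (w : ℕ) (f : Cfg → ℝ) : Prop :=
  ∀ X Y : Cfg, (∀ i j : ℕ, i ≤ w → j ≤ w → X (i, j) = Y (i, j)) → f X = f Y

theorem Win.loc {w : ℕ} {f : Cfg → ℝ} (h : Win w f) : Loc f := by
  refine ⟨(range (w + 1) ×ˢ range (w + 1)).image zz, fun X Y hXY => h X Y (fun i j hi hj => ?_)⟩
  refine hXY _ (mem_image.2 ⟨(i, j), ?_, rfl⟩)
  simp only [mem_product, mem_range]
  omega

theorem sh_zz_apply (p : ℕ × ℕ) (X : Cfg) (i j : ℕ) :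
    sh (zz p) X (i, j) = X (((i + p.1 : ℕ) : ℤ), ((j + p.2 : ℕ) : ℤ)) := by
  push_cast; rfl

theorem Sub_nat (X : Cfg) (a b : ℕ) :
    S.Sub X (a, b) = S.sub (X ((a / 512 : ℕ), (b / 65536 : ℕ))) (a % 512) (b % 65536) := by
  rw [← S.Sub_apply X _ _ _ _ (Nat.mod_lt _ (by norm_num)) (Nat.mod_lt _ (by norm_num))]
  have e1 : 512 * ((a / 512 : ℕ) : ℤ) + ((a % 512 : ℕ) : ℤ) = a := by omega
  have e2 : 65536 * ((b / 65536 : ℕ) : ℤ) + ((b % 65536 : ℕ) : ℤ) = b := by omega
  rw [e1, e2]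

theorem Win.M {w : ℕ} {f : Cfg → ℝ} (h : Win w f) : Win ((511 + w) / 512) (S.M f) := by
  intro X Y hXY
  refine sum_congr rfl (fun p hp => h _ _ (fun i j hi hj => ?_))
  obtain ⟨h1, h2⟩ := mem_box.1 hp
  rw [sh_zz_apply, sh_zz_apply, Sub_nat, Sub_nat, hXY _ _ (by omega) (by omega)]

theorem Sub_eq_of_origin {X Y : Cfg} (hX : X ∈ S.Om) (hY : Y ∈ S.Om) (h : X (0, 0) = Y (0, 0))
    (a b : ℕ) (ha : a ≤ 512) (hb : b ≤ 65536) : S.Sub X (a, b) = S.Sub Y (a, b) := by
  rw [Sub_nat, Sub_nat]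
  have hp : ∀ i j : ℤ, px (X (i, j)) = px (Y (i, j)) ∧ py (X (i, j)) = py (Y (i, j)) := by
    intro i j
    have h1 := S.pos_eq hX i j
    have h2 := S.pos_eq hY i j
    rw [h] at h1
    omega
  obtain ⟨-, -, -, a3, -, -, b3⟩ := hX 0 0
  obtain ⟨-, -, -, a3', -, -, b3'⟩ := hY 0 0
  rw [h] at a3 b3
  unfold sub lab
  rw [(hp _ _).1, (hp _ _).2]
  by_cases ha' : a < 512 <;> by_cases hb' : b < 65536
  · rw [Nat.div_eq_of_lt ha', Nat.div_eq_of_lt hb']
    simp only [Nat.cast_zero, h]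
  · have : b = 65536 := by omega
    subst this
    rw [Nat.div_eq_of_lt ha', Nat.mod_eq_of_lt ha', Nat.div_self (by norm_num), Nat.mod_self]
    exact congrArg (mkT a 0) (S.f2 _ _ _ _ (b3.trans b3'.symm) a ha')
  · have : a = 512 := by omega
    subst this
    rw [Nat.div_eq_of_lt hb', Nat.mod_eq_of_lt hb', Nat.div_self (by norm_num), Nat.mod_self]
    exact congrArg (mkT 0 b) (S.f1 _ _ _ _ (a3.trans a3'.symm) b hb')
  · have e1 : a = 512 := by omega
    have e2 : b = 65536 := by omega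
    subst e1 e2
    rw [Nat.div_self (show 0 < 512 by norm_num), Nat.mod_self]
    exact congrArg (mkT 0 0) ((S.f1 _ _ (st (X ((1 : ℕ), (1 : ℕ))))
      ((st (X ((1 : ℕ), (1 : ℕ)))).1, false, (st (Y ((1 : ℕ), (1 : ℕ)))).2.2.1, false) rfl 0
      (by norm_num)).trans (S.f2 _ _
      ((st (X ((1 : ℕ), (1 : ℕ)))).1, false, (st (Y ((1 : ℕ), (1 : ℕ)))).2.2.1, false)
      (st (Y ((1 : ℕ), (1 : ℕ)))) rfl 0 (by norm_num)))

theorem Win.triv_one {f : Cfg → ℝ} (h : Win 1 f) : Triv S.Om f := by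
  classical
  refine S.lift h.loc ?_
  refine Triv.congr (TT.all (S := S)
    (fun t => if h : ∃ X ∈ S.Om, X (0, 0) = t then S.M f h.choose else 0)) h.M.loc
    (fun X hX => ?_)
  have hex : ∃ X' ∈ S.Om, X' (0, 0) = X (0, 0) := ⟨X, hX, rfl⟩
  simp only [dif_pos hex]
  obtain ⟨c1, c2⟩ := hex.choose_spec
  refine sum_congr rfl (fun p hp => h _ _ (fun i j hi hj => ?_))
  obtain ⟨h1, h2⟩ := mem_box.1 hp
  rw [sh_zz_apply, sh_zz_apply]
  exact Sub_eq_of_origin hX c1 c2.symm _ _ (by omega) (by omega)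

theorem Win.triv (w : ℕ) : ∀ {f : Cfg → ℝ}, Win w f → Triv S.Om f := by
  induction w using Nat.strong_induction_on with
  | _ w ih =>
    intro f h
    by_cases hw : w ≤ 1
    · exact Win.triv_one (fun X Y hXY => h X Y (fun i j hi hj => hXY i j (by omega) (by omega)))
    · exact S.lift h.loc (ih _ (by omega) h.M)

theorem triv_all (S : Sim) {f : Cfg → ℝ} (hf : Loc f) : Triv S.Om f := by
  obtain ⟨s, hs⟩ := hf
  let n : ℕ := s.sup (fun a => a.1.natAbs + a.2.natAbs)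
  refine Triv.of_shift ⟨s, hs⟩ (zz (n, n)) (Win.triv (2 * n) ?_)
  intro X Y hXY
  refine hs _ _ (fun a ha => ?_)
  have hn : a.1.natAbs + a.2.natAbs ≤ n := le_sup (f := fun a : ℤ × ℤ => a.1.natAbs + a.2.natAbs) ha
  have := hXY (a.1 + n).toNat (a.2 + n).toNat (by omega) (by omega)
  rwa [show (((a.1 + n).toNat : ℕ) : ℤ) = a.1 + n by omega,
    show (((a.2 + n).toNat : ℕ) : ℤ) = a.2 + n by omega] at this

end Sim

end Pool.Agent.Lib.MP_c73c36_mp
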