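import Pool.Agent.Lib.MP_c73c36_mp.CompA

/-!
The logic array computes the table of forbidden states of the simulated cell.
-/

set_option autoImplicit false
set_option linter.unusedSimpArgs false
set_option linter.unnecessarySeqFocus false

namespace Pool.Agent.Lib.MP_c73c36_mp

theorem rowv_iff (qx qy t c : ℕ) : rowv qx qy t c = true ↔
    ∀ c' < c, litOk (lit t c') (colIn qx qy c') = true := by
  induction c with
  | zero => simp [rowv]
  | succ c ih =>
    simp only [rowv, Bool.and_eq_true, ih]
    constructor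
    · rintro ⟨h1, h2⟩ i hi
      rcases Nat.lt_succ_iff_lt_or_eq.1 hi with h | rfl
      exacts [h1 i h, h2]
    · intro h
      exact ⟨fun i hi => h i (by omega), h c (by omega)⟩

theorem val_iff (qx qy c t : ℕ) : val qx qy c t = true ↔
    ∃ t' < t, out t' c = true ∧ rowv qx qy t' c = true := by
  induction t with
  | zero => simp [val]
  | succ t ih =>
    simp only [val, Bool.or_eq_true, ih, Bool.and_eq_true]
    constructor
    · rintro (⟨t', h1, h2⟩ | h)
      exacts [⟨t', by omega, h2⟩, ⟨t, by omega, h⟩]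
    · rintro ⟨t', h1, h2⟩
      rcases Nat.lt_succ_iff_lt_or_eq.1 h1 with h | rfl
      exacts [Or.inl ⟨t', h, h2⟩, Or.inr h2]

theorem litOk_map (o : Option ℕ) (f : ℕ → Bool) (a : Bool) :
    litOk (o.map f) a = true ↔ ∀ n, o = some n → a = f n := by
  cases o <;> simp [litOk]

theorem litOk_iff (o : Option Bool) (a : Bool) : litOk o a = true ↔ ∀ b, o = some b → a = b := by
  cases o <;> simp [litOk]

theorem bits_eq {a b m : ℕ} (ha : a < 2 ^ m) (hb : b < 2 ^ m)
    (h : ∀ i < m, a.testBit i = b.testBit i) : a = b := by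
  apply Nat.eq_of_testBit_eq
  intro i
  by_cases hi : i < m
  · exact h i hi
  · have : 2 ^ m ≤ 2 ^ i := Nat.pow_le_pow_right (by norm_num) (by omega)
    rw [Nat.testBit_lt_two_pow (by omega), Nat.testBit_lt_two_pow (by omega)]

theorem Ylit_lt {t n : ℕ} (ht : t < 460) (h : Ylit t = some n) : n < 128 := by
  unfold Ylit at h
  split_ifs at h <;> simp at h <;> omega

theorem clit_lt {t n : ℕ} (h : clit t = some n) : n < 256 := by
  unfold clit at h
  split_ifs at h <;> simp at h <;> omega

theorem ocol_lt {t : ℕ} (ht : t < 460) : ocol t < 126 := by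
  unfold ocol
  split_ifs <;> omega

theorem bitY (qy i : ℕ) : qy.testBit (10 + i - 1) = (qy / 512).testBit i := by
  rw [show (512 : ℕ) = 2 ^ 9 by norm_num, Nat.testBit_div_two_pow]
  congr 1; omega

theorem bitC (qx i : ℕ) (hi : i < 8) : qx.testBit i = (qx % 256).testBit i := by
  rw [show (256 : ℕ) = 2 ^ 8 by norm_num, Nat.testBit_mod_two_pow]
  simp [hi]

/-- The condition under which row `t` of the array fires, apart from the flag. -/
def fires0 (qx qy t : ℕ) : Prop :=
  (∀ n, Ylit t = some n → qy / 512 = n) ∧ (∀ n, clit t = some n → qx % 256 = n) ∧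
  (∀ b, Xlit t = some b → qx.testBit 8 = b) ∧
  (128 ≤ t → rom (ocol t) (qx % 256) (qy % 512) = opol t)

theorem rowv_152 (qx qy t : ℕ) (hy : qy < 65536) (ht : t < 460) :
    rowv qx qy t 152 = true ↔ fires0 qx qy t := by
  have ho := ocol_lt ht
  rw [rowv_iff]
  constructor
  · intro h
    refine ⟨fun n hn => ?_, fun n hn => ?_, fun b hb => ?_, fun h128 => ?_⟩
    · refine bits_eq (m := 7) (by omega) (Ylit_lt ht hn) (fun i hi => ?_)
      have := h (10 + i) (by omega)
      simp (disch := omega) only [lit, colIn, inp, if_pos, if_neg, litOk_map] at this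
      rw [← bitY, this n hn, Nat.add_sub_cancel_left]
    · refine bits_eq (m := 8) (by omega) (clit_lt hn) (fun i hi => ?_)
      have := h (17 + i) (by omega)
      simp (disch := omega) only [lit, colIn, inp, if_pos, if_neg, litOk_map,
        Nat.add_sub_cancel_left] at this
      rw [← bitC qx i hi, this n hn]
    · have := h 25 (by omega)
      simp (disch := omega) only [lit, colIn, inp, if_pos, if_neg, litOk_iff] at this
      exact this b hb
    · have := h (26 + ocol t) (by omega)
      simp (disch := omega) only [lit, colIn, inp, if_pos, if_neg, litOk_iff,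
        Nat.add_sub_cancel_left] at this
      exact this _ (by simp [h128])
  · rintro ⟨h1, h2, h3, h4⟩ c hc
    have : c < 10 ∨ (10 ≤ c ∧ c ≤ 16) ∨ (17 ≤ c ∧ c ≤ 24) ∨ c = 25 ∨
      (128 ≤ t ∧ c = 26 + ocol t) ∨ (26 ≤ c ∧ ¬ (128 ≤ t ∧ c = 26 + ocol t)) := by omega
    rcases this with h | h | h | h | h | h <;>
      simp (disch := omega) only [lit, colIn, inp, if_pos, if_neg]
    · rfl
    · rw [litOk_map]
      intro n hn
      rw [← h1 n hn, ← bitY]
      congr 1; omega
    · rw [litOk_map]
      intro n hn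
      rw [← h2 n hn, ← bitC qx _ (by omega)]
    · rw [litOk_iff]
      intro b hb
      rw [← h3 b hb, h]
    · rw [litOk_iff]
      intro b hb
      rw [← Option.some.inj hb, ← h4 h.1, h.2, Nat.add_sub_cancel_left]
    · rfl

theorem rowv_ge (qx qy t c : ℕ) (ht : t < 460) (hc : 153 ≤ c) :
    rowv qx qy t c = rowv qx qy t 153 := by
  have ho := ocol_lt ht
  induction c, hc using Nat.le_induction with
  | base => rfl
  | succ c hc ih =>
    rw [rowv, ih]
    simp (disch := omega) only [lit, if_neg, litOk, Bool.and_true]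

theorem rowv_153 (qx qy t : ℕ) (hy : qy < 65536) (ht : t < 460) :
    rowv qx qy t 153 = true ↔ fires0 qx qy t ∧ (192 ≤ t ∧ t < 208 → flag qx qy = false) := by
  have ho := ocol_lt ht
  rw [show (153 : ℕ) = 152 + 1 from rfl, rowv, Bool.and_eq_true, rowv_152 qx qy t hy ht]
  refine and_congr_right (fun _ => ?_)
  by_cases h : 192 ≤ t ∧ t < 208
  · simp (disch := omega) only [lit, colIn, if_pos, if_neg, litOk_iff]
    simp [h]
  · simp (disch := omega) only [lit, colIn, if_pos, if_neg, litOk_iff]
    simp [h]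

theorem bit8 (qx : ℕ) (hx : qx < 512) : qx.testBit 8 = decide (qx / 256 = 1) := by
  rw [Nat.testBit_eq_decide_div_mod_eq]
  simp only [decide_eq_decide]
  omega

theorem fires_0 (qx qy : ℕ) : fires0 qx qy 0 ↔ qy / 512 = 0 := by
  simp [fires0, Ylit, clit, Xlit]

theorem fires_1 (qx qy : ℕ) : fires0 qx qy 1 ↔ qy / 512 = 127 := by
  simp [fires0, Ylit, clit, Xlit]

theorem fires_B (qx qy t : ℕ) (hx : qx < 512) (h1 : 2 ≤ t) (h2 : t < 128) :
    fires0 qx qy t ↔ qy / 512 = t - 1 ∧ qx % 256 = 24 + t ∧ qx / 256 = 1 := by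
  simp (disch := omega) only [fires0, Ylit, clit, Xlit, if_pos, if_neg, bit8 qx hx]
  simp
  omega

theorem fires_D (qx qy t : ℕ) (hx : qx < 512) (h1 : 208 ≤ t) :
    fires0 qx qy t ↔ qy / 512 = (t - 208) / 2 + 1 ∧ qx / 256 = 0 ∧
      rom ((t - 208) / 2) (qx % 256) (qy % 512) = t.testBit 0 := by
  simp (disch := omega) only [fires0, Ylit, clit, Xlit, ocol, opol, if_pos, if_neg, bit8 qx hx]
  have : 128 ≤ t := by omega
  have e : (¬ qx / 256 = 1) ↔ qx / 256 = 0 := by omega
  simp [this, e]

theorem fires_C (qx qy t : ℕ) (hx : qx < 512) (h1 : 128 ≤ t) (h2 : t < 208) :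
    fires0 qx qy t ↔ rom (t - 128) (qx % 256) (qy % 512) = true ∧
      ((t < 144 ∧ qy / 512 = 127 ∧ qx / 256 = 1) ∨
       (144 ≤ t ∧ t < 160 ∧ qy / 512 = 0 ∧ qx / 256 = 1) ∨
       (160 ≤ t ∧ t < 176 ∧ qy / 512 = 0 ∧ qx / 256 = 0) ∨
       (176 ≤ t ∧ t < 192 ∧ qy / 512 = 127 ∧ qx / 256 = 0) ∨
       (192 ≤ t ∧ qx / 256 = 1)) := by
  have : t < 144 ∨ (144 ≤ t ∧ t < 160) ∨ (160 ≤ t ∧ t < 176) ∨ (176 ≤ t ∧ t < 192) ∨ 192 ≤ t := by
    omega
  rcases this with h | h | h | h | h <;>
    simp (disch := omega) only [fires0, Ylit, clit, Xlit, ocol, opol, if_pos, if_neg, bit8 qx hx] <;>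
    cases rom (t - 128) (qx % 256) (qy % 512) <;> simp [h1] <;> omega

theorem val_flag (qx qy t : ℕ) (hx : qx < 512) (hy : qy < 65536) (h1 : 128 ≤ t) :
    val qx qy 152 t = flag qx qy := by
  rw [Bool.eq_iff_iff, val_iff]
  simp only [out, if_true, decide_eq_true_eq, flag]
  constructor
  · rintro ⟨t', -, h2, h3⟩
    rw [rowv_152 qx qy t' hy (by omega)] at h3
    have : t' = 0 ∨ t' = 1 ∨ 2 ≤ t' := by omega
    rcases this with rfl | rfl | h
    · exact Or.inl ((fires_0 _ _).1 h3)
    · exact Or.inr (Or.inl ((fires_1 _ _).1 h3))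
    · have := (fires_B qx qy t' hx h h2).1 h3
      omega
  · intro h
    by_cases a : qy / 512 = 0
    · exact ⟨0, by omega, by omega, (rowv_152 qx qy 0 hy (by omega)).2 ((fires_0 _ _).2 a)⟩
    by_cases b : qy / 512 = 127
    · exact ⟨1, by omega, by omega, (rowv_152 qx qy 1 hy (by omega)).2 ((fires_1 _ _).2 b)⟩
    exact ⟨qy / 512 + 1, by omega, by omega, (rowv_152 qx qy _ hy (by omega)).2
      ((fires_B qx qy _ hx (by omega) (by omega)).2 (by omega))⟩

theorem rom_blk (B w c j : ℕ) (hB : B < 5) (hw : w < 16) :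
    rom (16 * B + w) c j = !sat (blk B c j) (decw w) := by
  unfold rom
  rw [if_pos (by omega), show (16 * B + w) / 16 = B by omega, show (16 * B + w) % 16 = w by omega]

theorem val_table (qx qy w : ℕ) (hx : qx < 512) (hy : qy < 65536) (hw : w < 16) :
    val qx qy (154 + w) 460 = !Tb qx qy (decw w) := by
  have hrow : ∀ t < 460, (rowv qx qy t (154 + w) = true ↔
      fires0 qx qy t ∧ (192 ≤ t ∧ t < 208 → flag qx qy = false)) := by
    intro t ht
    rw [rowv_ge qx qy t _ ht (by omega), rowv_153 qx qy t hy ht]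
  have hout : ∀ t, out t (154 + w) = outF t w := by
    intro t
    simp (disch := omega) only [out, if_pos, if_neg, Nat.add_sub_cancel_left]
  have hflag : flag qx qy = false ↔
      ¬ (qy / 512 = 0 ∨ qy / 512 = 127 ∨ (qx / 256 = 1 ∧ qx % 256 = 25 + qy / 512)) := by
    simp only [flag, decide_eq_false_iff_not]
  rw [Bool.eq_iff_iff, val_iff]
  simp only [hout]
  unfold Tb rule
  constructor
  · rintro ⟨t, ht, h2, h3⟩
    obtain ⟨h3, h4⟩ := (hrow t ht).1 h3
    have : t < 2 ∨ (2 ≤ t ∧ t < 128) ∨ (128 ≤ t ∧ t < 208) ∨ 208 ≤ t := by omega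
    rcases this with h | h | h | h
    · simp [outF, h] at h2
    · have := (fires_B qx qy t hx h.1 h.2).1 h3
      simp (disch := omega) only [outF, if_pos, if_neg] at h2
      simp (disch := omega) only [ruleB, if_pos, if_neg]
      exact h2
    · obtain ⟨h5, h6⟩ := (fires_C qx qy t hx h.1 h.2).1 h3
      simp (disch := omega) only [outF, if_pos, if_neg, decide_eq_true_eq] at h2
      rw [show t - 128 = 16 * ((t - 128) / 16) + w by omega,
        rom_blk _ _ _ _ (by omega) hw] at h5
      rw [hflag] at h4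
      rcases h6 with h6 | h6 | h6 | h6 | h6
      · rw [show (t - 128) / 16 = 0 by omega] at h5
        simp (disch := omega) only [ruleB, if_pos, if_neg]
        exact h5
      · rw [show (t - 128) / 16 = 1 by omega] at h5
        simp (disch := omega) only [ruleB, if_pos, if_neg]
        exact h5
      · rw [show (t - 128) / 16 = 2 by omega] at h5
        simp (disch := omega) only [ruleB, if_pos, if_neg]
        exact h5
      · rw [show (t - 128) / 16 = 3 by omega] at h5
        simp (disch := omega) only [ruleB, if_pos, if_neg]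
        exact h5
      · rw [show (t - 128) / 16 = 4 by omega] at h5
        simp (disch := omega) only [ruleB, if_pos, if_neg]
        exact h5
    · obtain ⟨h5, h6, h7⟩ := (fires_D qx qy t hx h).1 h3
      simp (disch := omega) only [outF, if_pos, if_neg] at h2
      simp (disch := omega) only [ruleB, if_pos, if_neg]
      rw [show qy / 512 - 1 = (t - 208) / 2 by omega, h7]
      exact h2
  · intro h
    have prog : ∀ B < 5, (!sat (blk B (qx % 256) (qy % 512)) (decw w)) = true →
        ((B = 0 ∧ qy / 512 = 127 ∧ qx / 256 = 1) ∨ (B = 1 ∧ qy / 512 = 0 ∧ qx / 256 = 1) ∨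
         (B = 2 ∧ qy / 512 = 0 ∧ qx / 256 = 0) ∨ (B = 3 ∧ qy / 512 = 127 ∧ qx / 256 = 0) ∨
         (B = 4 ∧ qx / 256 = 1 ∧ qy / 512 ≠ 0 ∧ qy / 512 ≠ 127 ∧ qx % 256 ≠ 25 + qy / 512)) →
        ∃ t' < 460, outF t' w = true ∧ rowv qx qy t' (154 + w) = true := by
      intro B hB h1 h2
      refine ⟨128 + (16 * B + w), by omega, ?_, (hrow _ (by omega)).2 ⟨?_, ?_⟩⟩
      · simp (disch := omega) only [outF, if_pos, if_neg, decide_eq_true_eq]
        omega
      · rw [fires_C qx qy _ hx (by omega) (by omega), Nat.add_sub_cancel_left,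
          rom_blk _ _ _ _ hB hw]
        exact ⟨h1, by omega⟩
      · rw [hflag]; omega
    by_cases a : qy / 512 = 0
    · by_cases b : qx / 256 = 0
      · simp (disch := omega) only [ruleB, if_pos] at h
        exact prog 2 (by omega) h (by omega)
      · simp (disch := omega) only [ruleB, if_pos, if_neg] at h
        exact prog 1 (by omega) h (by omega)
    by_cases a' : qy / 512 = 127
    · by_cases b : qx / 256 = 0
      · simp (disch := omega) only [ruleB, if_pos, if_neg] at h
        exact prog 3 (by omega) h (by omega)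
      · simp (disch := omega) only [ruleB, if_pos, if_neg] at h
        exact prog 0 (by omega) h (by omega)
    by_cases b : qx / 256 = 0
    · simp (disch := omega) only [ruleB, if_pos, if_neg] at h
      have key : ∀ bb : Bool, rom (qy / 512 - 1) (qx % 256) (qy % 512) = bb →
          ∃ t' < 460, outF t' w = true ∧ rowv qx qy t' (154 + w) = true := by
        intro bb hbb
        have ht0 : (208 + 2 * (qy / 512 - 1) + bb.toNat).testBit 0 = bb := by
          cases bb <;> simp [Nat.testBit_zero, Nat.add_mod]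
        have hb1 : bb.toNat ≤ 1 := Bool.toNat_le bb
        refine ⟨208 + 2 * (qy / 512 - 1) + bb.toNat, by omega, ?_,
          (hrow _ (by omega)).2 ⟨?_, by omega⟩⟩
        · simp (disch := omega) only [outF, if_neg]
          rw [ht0, ← hbb]
          exact h
        · rw [fires_D qx qy _ hx (by omega), ht0,
            show (208 + 2 * (qy / 512 - 1) + bb.toNat - 208) / 2 = qy / 512 - 1 by omega]
          exact ⟨by omega, b, hbb⟩
      exact key _ rfl
    by_cases c : qx % 256 = 25 + qy / 512
    · simp (disch := omega) only [ruleB, if_pos, if_neg] at h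
      refine ⟨qy / 512 + 1, by omega, ?_, (hrow _ (by omega)).2 ⟨?_, by omega⟩⟩
      · simp (disch := omega) only [outF, if_pos, if_neg]
        exact h
      · rw [fires_B qx qy _ hx (by omega) (by omega)]
        omega
    · simp (disch := omega) only [ruleB, if_pos, if_neg] at h
      exact prog 4 (by omega) h (by omega)

end Pool.Agent.Lib.MP_c73c36_mp
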