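import Pool.Agent.Lib.MP_c73c36_mp.Lift

/-!
Quantitative triviality: constants and windows grow polynomially with the range.
-/

set_option autoImplicit false

namespace Pool.Agent.Lib.MP_c73c36_mp

open Finset

theorem Loc.all {ι A κ : Type} (s : Finset κ) {Q : κ → (ι → A) → Prop} (h : ∀ k ∈ s, Loc (Q k)) :
    Loc (fun X => ∀ k ∈ s, Q k X) := by
  classical
  induction s using Finset.induction_on with
  | empty => simpa using Loc.const (ι := ι) (A := A) True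
  | insert a s ha ih =>
    have h1 := h a (mem_insert_self _ _)
    have h2 := ih (fun k hk => h k (mem_insert_of_mem hk))
    simpa [forall_mem_insert] using h1.map₂ h2 (fun a b => a ∧ b)

namespace Sim

variable (S : Sim)

/-- The matching rules hold in the window of radius `n`. -/
def LV (n : ℕ) (X : Cfg) : Prop := ∀ i j : ℤ, i.natAbs ≤ n → j.natAbs ≤ n → S.ok X i j

theorem ok_sh (X : Cfg) (a : ℤ × ℤ) (i j : ℤ) :
    S.ok (sh a X) i j ↔ S.ok X (i + a.1) (j + a.2) := by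
  unfold ok
  have e1 : sh a X (i, j) = X (i + a.1, j + a.2) := rfl
  have e2 : sh a X (i + 1, j) = X (i + a.1 + 1, j + a.2) := by
    unfold sh; congr 1; ext <;> simp; ring
  have e3 : sh a X (i, j + 1) = X (i + a.1, j + a.2 + 1) := by
    unfold sh; congr 1; ext <;> simp; ring
  rw [e1, e2, e3]

variable {S}

theorem LV.mono {n m : ℕ} {X : Cfg} (hX : S.LV m X) (h : n ≤ m) : S.LV n X :=
  fun i j hi hj => hX i j (hi.trans h) (hj.trans h)

theorem LV.shift {n m : ℕ} {X : Cfg} (hX : S.LV m X) (a : ℤ × ℤ) (h1 : a.1.natAbs + n ≤ m)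
    (h2 : a.2.natAbs + n ≤ m) : S.LV n (sh a X) := fun i j hi hj =>
  (S.ok_sh X a i j).2 (hX _ _ (by omega) (by omega))

theorem LV.of_mem {X : Cfg} (hX : X ∈ S.Om) (n : ℕ) : S.LV n X := fun i j _ _ => hX i j

theorem compact (S : Sim) {P : Cfg → Prop} (hP : Loc P) (h : ∀ X ∈ S.Om, P X) :
    ∃ R, ∀ X, S.LV R X → P X := by
  classical
  let _ : TopologicalSpace Tile := ⊥
  have : DiscreteTopology Tile := ⟨rfl⟩
  have hK : IsCompact {Y : Cfg | ¬ P Y} :=
    (isClopen_of_loc (hP.map (fun y => ¬ y))).isClosed.isCompact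
  obtain ⟨t, ht⟩ := hK.elim_finite_subcover (fun q : ℤ × ℤ => {Y | ¬ S.ok Y q.1 q.2})
    (fun q => (isClopen_of_loc ((S.loc_ok q.1 q.2).map (fun y => ¬ y))).isOpen) (by
      intro Y hY
      by_contra hc
      apply hY
      apply h
      intro i j
      by_contra ho
      exact hc (Set.mem_iUnion.2 ⟨(i, j), ho⟩))
  refine ⟨t.sup (fun q => q.1.natAbs + q.2.natAbs), fun X hX => ?_⟩
  by_contra hc
  obtain ⟨q, hq, ho⟩ := Set.mem_iUnion₂.1 (ht hc)
  have := le_sup (f := fun q : ℤ × ℤ => q.1.natAbs + q.2.natAbs) hq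
  exact ho (hX _ _ (by omega) (by omega))

theorem LV.pos {n : ℕ} {X : Cfg} (hX : S.LV n X) (i j : ℤ) (hi : i.natAbs ≤ n)
    (hj : j.natAbs ≤ n) : (px (X (i, j)) : ℤ) = (px (X (0, 0)) + i) % 512 ∧
    (py (X (i, j)) : ℤ) = (py (X (0, 0)) + j) % 65536 := by
  have h1 : ∀ j : ℤ, j.natAbs ≤ n → px (X (0, j)) = px (X (0, 0)) ∧
      (py (X (0, j)) : ℤ) = (py (X (0, 0)) + j) % 65536 := by
    intro j
    induction j using Int.induction_on with
    | zero => intro _; have := py_lt (X (0, 0)); exact ⟨rfl, by omega⟩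
    | succ k ih =>
      intro hk
      obtain ⟨-, -, -, -, a, b, -⟩ := hX 0 k (by omega) (by omega)
      have := ih (by omega)
      exact ⟨by omega, by omega⟩
    | pred k ih =>
      intro hk
      obtain ⟨-, -, -, -, a, b, -⟩ := hX 0 (-(k : ℤ) - 1) (by omega) (by omega)
      rw [show -(k : ℤ) - 1 + 1 = -k by ring] at a b
      have := py_lt (X (0, -(k : ℤ) - 1))
      have := ih (by omega)
      exact ⟨by omega, by omega⟩
  revert hi
  induction i using Int.induction_on with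
  | zero => intro _; have := px_lt (X (0, 0)); have := h1 j hj; exact ⟨by omega, this.2⟩
  | succ k ih =>
    intro hk
    obtain ⟨-, a, b, -⟩ := hX k j (by omega) hj
    have := ih (by omega)
    exact ⟨by omega, by omega⟩
  | pred k ih =>
    intro hk
    obtain ⟨-, a, b, -⟩ := hX (-(k : ℤ) - 1) j (by omega) hj
    rw [show -(k : ℤ) - 1 + 1 = -k by ring] at a b
    have := px_lt (X (-(k : ℤ) - 1, j))
    have := ih (by omega)
    exact ⟨by omega, by omega⟩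

/-- A constant plus two coboundaries, all bounded by `W`, wherever the window `n` is valid. -/
def TQ (S : Sim) (W : ℝ) (n : ℕ) (f : Cfg → ℝ) : Prop :=
  ∃ (c : ℝ) (g h : Cfg → ℝ), Loc g ∧ Loc h ∧ |c| ≤ W ∧ (∀ X, |g X| ≤ W) ∧ (∀ X, |h X| ≤ W) ∧
    ∀ X, S.LV n X → f X = c + (g (sh (1, 0) X) - g X) + (h (sh (0, 1) X) - h X)

theorem TQ.mono {W W' : ℝ} {n n' : ℕ} {f : Cfg → ℝ} (h : S.TQ W n f) (hW : W ≤ W')
    (hn : n ≤ n') : S.TQ W' n' f := by
  obtain ⟨c, g, k, a1, a2, a3, a4, a5, a6⟩ := h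
  exact ⟨c, g, k, a1, a2, a3.trans hW, fun X => (a4 X).trans hW, fun X => (a5 X).trans hW,
    fun X hX => a6 X (hX.mono hn)⟩

theorem TQ.nonneg {W : ℝ} {n : ℕ} {f : Cfg → ℝ} (h : S.TQ W n f) : 0 ≤ W := by
  obtain ⟨c, -, -, -, -, a3, -⟩ := h
  exact (abs_nonneg c).trans a3

theorem TQ.congr {W : ℝ} {n : ℕ} {f f' : Cfg → ℝ} (h : S.TQ W n f)
    (e : ∀ X, S.LV n X → f' X = f X) : S.TQ W n f' := by
  obtain ⟨c, g, k, a1, a2, a3, a4, a5, a6⟩ := h
  exact ⟨c, g, k, a1, a2, a3, a4, a5, fun X hX => (e X hX).trans (a6 X hX)⟩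

theorem TQ.const (c : ℝ) (n : ℕ) : S.TQ |c| n (fun _ => c) :=
  ⟨c, fun _ => 0, fun _ => 0, Loc.const _, Loc.const _, le_rfl, fun _ => by simp,
    fun _ => by simp, fun _ _ => by simp⟩

theorem TQ.add {W W' : ℝ} {n : ℕ} {f f' : Cfg → ℝ} (h : S.TQ W n f) (h' : S.TQ W' n f') :
    S.TQ (W + W') n (fun X => f X + f' X) := by
  obtain ⟨c, g, k, a1, a2, a3, a4, a5, a6⟩ := h
  obtain ⟨c', g', k', b1, b2, b3, b4, b5, b6⟩ := h'
  refine ⟨c + c', fun X => g X + g' X, fun X => k X + k' X, a1.map₂ b1 (· + ·),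
    a2.map₂ b2 (· + ·), (abs_add_le _ _).trans (add_le_add a3 b3),
    fun X => (abs_add_le _ _).trans (add_le_add (a4 X) (b4 X)),
    fun X => (abs_add_le _ _).trans (add_le_add (a5 X) (b5 X)), fun X hX => ?_⟩
  simp only [a6 X hX, b6 X hX]
  ring

theorem TQ.smul {W ρ : ℝ} {n : ℕ} {f : Cfg → ℝ} (h : S.TQ W n f) (r : ℝ) (hr : |r| ≤ ρ) :
    S.TQ (ρ * W) n (fun X => r * f X) := by
  obtain ⟨c, g, k, a1, a2, a3, a4, a5, a6⟩ := h
  have key : ∀ y : ℝ, |y| ≤ W → |r * y| ≤ ρ * W := fun y hy => by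
    rw [abs_mul]
    exact mul_le_mul hr hy (abs_nonneg _) ((abs_nonneg _).trans hr)
  refine ⟨r * c, fun X => r * g X, fun X => r * k X, a1.map (r * ·), a2.map (r * ·), key _ a3,
    fun X => key _ (a4 X), fun X => key _ (a5 X), fun X hX => ?_⟩
  simp only [a6 X hX]
  ring

theorem TQ.sum {κ : Type} (s : Finset κ) {W : ℝ} {n : ℕ} {f : κ → Cfg → ℝ}
    (h : ∀ k ∈ s, S.TQ W n (f k)) : S.TQ (s.card * W) n (fun X => ∑ k ∈ s, f k X) := by
  classical
  induction s using Finset.induction_on with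
  | empty => simpa using TQ.const (S := S) 0 n
  | insert a s ha ih =>
    have h1 := h a (mem_insert_self _ _)
    have h2 := ih (fun k hk => h k (mem_insert_of_mem hk))
    refine ((h1.add h2).mono (le_of_eq ?_) le_rfl).congr (fun X _ => sum_insert ha)
    rw [card_insert_of_notMem ha]
    push_cast
    ring

theorem TQ.cob {g : Cfg → ℝ} (hg : Loc g) {B : ℝ} (hB : ∀ X, |g X| ≤ B) (n a b : ℕ) :
    S.TQ ((a + b : ℕ) * B) n (fun X => g (sh (zz (a, b)) X) - g X) := by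
  have h0 : (0 : ℝ) ≤ B := (abs_nonneg _).trans (hB (fun _ => mkT 0 0 (false, false, false, false)))
  induction a with
  | zero =>
    induction b with
    | zero =>
      refine ((TQ.const (S := S) 0 n).mono (by simp) le_rfl).congr (fun X _ => ?_)
      have : zz (0, 0) = 0 := rfl
      rw [this, sh_zero, sub_self]
    | succ b ih =>
      have h1 : S.TQ B n (fun X => g (sh (zz (0, b)) (sh (0, 1) X)) - g (sh (zz (0, b)) X)) :=
        ⟨0, fun _ => 0, fun X => g (sh (zz (0, b)) X), Loc.const _, hg.shift _, by simpa,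
          fun _ => by simpa, fun X => hB _, fun X _ => by simp⟩
      refine ((h1.add ih).mono (le_of_eq ?_) le_rfl).congr (fun X _ => ?_)
      · push_cast; ring
      · have : zz (0, b + 1) = zz (0, b) + (0, 1) := by simp [zz]
        rw [this, ← sh_sh]; ring
  | succ a ih =>
    have h1 : S.TQ B n (fun X => g (sh (zz (a, b)) (sh (1, 0) X)) - g (sh (zz (a, b)) X)) :=
      ⟨0, fun X => g (sh (zz (a, b)) X), fun _ => 0, hg.shift _, Loc.const _, by simpa,
        fun X => hB _, fun _ => by simpa, fun X _ => by simp⟩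
    refine ((h1.add ih).mono (le_of_eq ?_) le_rfl).congr (fun X _ => ?_)
    · push_cast; ring
    · have : zz (a + 1, b) = zz (a, b) + (1, 0) := by simp [zz]
      rw [this, ← sh_sh]; ring

theorem TQ.of_triv {f : Cfg → ℝ} (h : Triv S.Om f) : ∃ W n, S.TQ W n f := by
  induction h with
  | const c => exact ⟨_, 0, TQ.const c 0⟩
  | cob g a hg =>
    let m : ℕ × ℕ := ((-a.1).toNat, (-a.2).toNat)
    have hg' := hg.shift (-zz m)
    obtain ⟨B, -, hB⟩ := hg'.bdd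
    have h1 := TQ.cob (S := S) hg' hB 0 a.1.toNat a.2.toNat
    have h2 := (TQ.cob (S := S) hg' hB 0 m.1 m.2).smul (-1) (ρ := 1) (by simp)
    refine ⟨_, 0, (h1.add h2).congr (fun X _ => ?_)⟩
    have e1 : -zz m + zz (a.1.toNat, a.2.toNat) = a := by
      ext <;> simp only [zz, m, Prod.fst_add, Prod.snd_add, Prod.fst_neg, Prod.snd_neg] <;> omega
    have e2 : -zz m + zz (m.1, m.2) = 0 := neg_add_cancel _
    simp only [sh_sh, e1, e2, sh_zero]
    ring
  | van f hf hv =>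
    obtain ⟨R, hR⟩ := S.compact (hf.map (fun y => y = 0)) hv
    exact ⟨_, R, (TQ.const 0 R).congr hR⟩
  | add f g _ _ ihf ihg =>
    obtain ⟨W, n, h1⟩ := ihf
    obtain ⟨W', n', h2⟩ := ihg
    exact ⟨_, max n n', (h1.mono le_rfl (le_max_left _ _)).add (h2.mono le_rfl (le_max_right _ _))⟩

/-- A uniform bound for all functions of finitely many local data. -/
theorem TQ.finite (S : Sim) {Z : Type} [Finite Z] {ρ : Cfg → Z} (hρ : Loc ρ) :
    ∃ W n, ∀ (e : Z → ℝ) (B : ℝ), (∀ z, |e z| ≤ B) → S.TQ (B * W) n (fun X => e (ρ X)) := by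
  classical
  have := Fintype.ofFinite Z
  have h1 : ∀ z : Z, ∃ W n, S.TQ W n (fun X => if ρ X = z then (1 : ℝ) else 0) := fun z =>
    TQ.of_triv (S.triv_all (hρ.map (fun y => if y = z then (1 : ℝ) else 0)))
  choose W n h using h1
  refine ⟨(univ : Finset Z).card * ∑ z, W z, univ.sup n, fun e B hB => ?_⟩
  have h2 : ∀ z ∈ (univ : Finset Z), S.TQ (B * ∑ z, W z) (univ.sup n)
      (fun X => e z * if ρ X = z then (1 : ℝ) else 0) := fun z hz =>
    ((h z).mono (single_le_sum (fun y _ => (h y).nonneg) hz) (le_sup hz)).smul _ (hB z)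
  refine ((TQ.sum _ h2).mono (le_of_eq (by ring)) le_rfl).congr (fun X _ => ?_)
  simp

theorem abs_at0 (p : ℕ × ℕ) (X : Cfg) : |at0 p X| ≤ 1 := by
  unfold at0
  split_ifs <;> simp

theorem abs_at0_mul (p : ℕ × ℕ) (X : Cfg) {y B : ℝ} (h : |y| ≤ B) : |at0 p X * y| ≤ B := by
  rw [abs_mul]
  exact (mul_le_of_le_one_left (abs_nonneg _) (abs_at0 p X)).trans h

theorem LV.origin {n : ℕ} {X : Cfg} (hX : S.LV n X) (h1 : px (X (0, 0)) = 0)
    (h2 : py (X (0, 0)) = 0) (a : ℤ × ℤ) (ha : (512 * a.1).natAbs ≤ n)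
    (hb : (65536 * a.2).natAbs ≤ n) :
    px (sh ((512 * a.1, 65536 * a.2) : ℤ × ℤ) X (0, 0)) = 0 ∧
      py (sh ((512 * a.1, 65536 * a.2) : ℤ × ℤ) X (0, 0)) = 0 := by
  have e : sh ((512 * a.1, 65536 * a.2) : ℤ × ℤ) X (0, 0) =
      X (512 * a.1, 65536 * a.2) := by simp only [sh, Prod.mk_add_mk, zero_add]
  rw [e]
  have := hX.pos _ _ ha hb
  omega

theorem LV.at0_big {X : Cfg} (hX : S.LV 65536 X) (a : ℤ × ℤ) (ha : a.1.natAbs ≤ 1)
    (hb : a.2.natAbs ≤ 1) :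
    at0 (0, 0) (sh ((512 * a.1, 65536 * a.2) : ℤ × ℤ) X) = at0 (0, 0) X := by
  unfold at0
  have e : sh ((512 * a.1, 65536 * a.2) : ℤ × ℤ) X (0, 0) =
      X (512 * a.1, 65536 * a.2) := by simp only [sh, Prod.mk_add_mk, zero_add]
  rw [e]
  have := hX.pos (512 * a.1) (65536 * a.2) (by omega) (by omega)
  have p1 := px_lt (X (0, 0))
  have p2 := py_lt (X (0, 0))
  refine if_congr ?_ rfl rfl
  simp only
  omega

theorem loc_origin : Loc (fun X : Cfg => px (X (0, 0)) = 0 ∧ py (X (0, 0)) = 0) :=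
  (Loc.eval (A := Tile) ((0, 0) : ℤ × ℤ)).map (fun t => px t = 0 ∧ py t = 0)

theorem loc_Dec' (S : Sim) {β : Type} {k : Cfg → β} (hk : Loc k) :
    Loc (fun X => k (S.Dec X)) := by
  classical
  obtain ⟨s, hs⟩ := hk
  choose t ht using S.loc_Dec_eval
  refine ⟨s.biUnion t, fun X Y h => hs _ _ (fun a ha => ht a X Y (fun i hi => h i ?_))⟩
  exact mem_biUnion.2 ⟨a, ha, hi⟩

theorem local_Dec (S : Sim) : ∃ R : ℕ, ∀ (n : ℕ) (X : Cfg), S.LV (65536 * n + R) X →
    px (X (0, 0)) = 0 → py (X (0, 0)) = 0 → S.LV n (S.Dec X) := by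
  have hl : Loc (fun X => S.ok (S.Dec X) 0 0) :=
    S.loc_Dec' (k := fun X => S.ok X 0 0) (S.loc_ok 0 0)
  obtain ⟨R, hR⟩ := S.compact (loc_origin.map₂ hl (fun a b => a → b))
    (fun X hX h => S.Dec_mem hX h.1 h.2 0 0)
  refine ⟨R, fun n X hX h1 h2 i j hi hj => ?_⟩
  have h3 := hR _ (hX.shift ((512 * i, 65536 * j) : ℤ × ℤ) (by simp only; omega)
    (by simp only; omega)) (hX.origin h1 h2 (i, j) (by simp only; omega) (by simp only; omega))
  have h4 := S.Dec_sh X (i, j)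
  simp only at h4
  rw [h4, S.ok_sh] at h3
  simpa using h3

theorem sh_pair (X : Cfg) (a b c d : ℤ) : sh (a, b) X (c, d) = X (a + c, b + d) := by
  simp only [sh, Prod.mk_add_mk, add_comm]

theorem local_cell (S : Sim) : ∃ R : ℕ, ∀ (n : ℕ) (X : Cfg), S.LV (n + R) X →
    px (X (0, 0)) = 0 → py (X (0, 0)) = 0 → ∀ i j : ℤ, (512 * i).natAbs ≤ n →
      (65536 * j).natAbs ≤ n → ∀ x y : ℕ, x < 512 → y < 65536 →
      S.sub (S.Dec X (i, j)) x y = X (512 * i + x, 65536 * j + y) := by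
  have hl : Loc (fun X => ∀ p ∈ box, S.sub (S.Dec X (0, 0)) p.1 p.2 = X (zz p)) :=
    Loc.all box (fun p _ => (S.loc_Dec_eval (0, 0)).map₂ (Loc.eval (zz p))
      (fun t u => S.sub t p.1 p.2 = u))
  obtain ⟨R, hR⟩ := S.compact (loc_origin.map₂ hl (fun a b => a → b)) (by
    intro X hX h p hp
    obtain ⟨p1, p2⟩ := mem_box.1 hp
    have := (S.Dec_spec hX h.1 h.2 0 0).2 p.1 p.2 p1 p2
    simp only [mul_zero, zero_add] at this
    exact this.symm)
  refine ⟨R, fun n X hX h1 h2 i j hi hj x y hx hy => ?_⟩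
  have h3 := hR _ (hX.shift ((512 * i, 65536 * j) : ℤ × ℤ) (by simp only; omega)
    (by simp only; omega)) (hX.origin h1 h2 (i, j) (by simp only; omega) (by simp only; omega))
    (x, y) (mem_box.2 ⟨hx, hy⟩)
  have h4 := S.Dec_sh X (i, j)
  simp only at h4
  rw [h4, sh_pair, add_zero, add_zero] at h3
  exact h3.trans (sh_pair X _ _ _ _)

theorem local_Sub (S : Sim) : ∃ R : ℕ, ∀ (n : ℕ) (X : Cfg), S.LV (n + R) X →
    px (X (0, 0)) = 0 → py (X (0, 0)) = 0 → ∀ a b : ℕ, a ≤ n → b ≤ n →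
      S.Sub (S.Dec X) (a, b) = X (a, b) := by
  obtain ⟨R, hR⟩ := S.local_cell
  refine ⟨R, fun n X hX h1 h2 a b ha hb => ?_⟩
  have h3 := hR n X hX h1 h2 (a / 512 : ℕ) (b / 65536 : ℕ) (by omega) (by omega) (a % 512)
    (b % 65536) (Nat.mod_lt _ (by norm_num)) (Nat.mod_lt _ (by norm_num))
  have e1 : 512 * ((a / 512 : ℕ) : ℤ) + ((a % 512 : ℕ) : ℤ) = a := by omega
  have e2 : 65536 * ((b / 65536 : ℕ) : ℤ) + ((b % 65536 : ℕ) : ℤ) = b := by omega
  rw [e1, e2] at h3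
  rw [Sub_nat]
  exact h3

theorem TQ.dec (S : Sim) : ∃ (A : ℝ) (R : ℕ), 0 ≤ A ∧ ∀ (W : ℝ) (n : ℕ) (k : Cfg → ℝ),
    S.TQ W n k → S.TQ (A * W) (65536 * n + R) (fun X => at0 (0, 0) X * k (S.Dec X)) := by
  obtain ⟨W0, n0, h0⟩ := TQ.of_triv S.triv_at0
  obtain ⟨R, hR⟩ := S.local_Dec
  refine ⟨W0 + 512 + 65536, R + n0 + 65536, by have := h0.nonneg; positivity,
    fun W n k ⟨c, g, h, a1, a2, a3, a4, a5, a6⟩ => ?_⟩
  have t1 := (h0.mono le_rfl (show n0 ≤ 65536 * n + (R + n0 + 65536) by omega)).smul c a3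
  have t2 := TQ.cob (S := S) ((loc_at0 (0, 0)).map₂ (S.loc_Dec a1) (fun a b => a * b))
    (fun X => abs_at0_mul _ X (a4 _)) (65536 * n + (R + n0 + 65536)) 512 0
  have t3 := TQ.cob (S := S) ((loc_at0 (0, 0)).map₂ (S.loc_Dec a2) (fun a b => a * b))
    (fun X => abs_at0_mul _ X (a5 _)) (65536 * n + (R + n0 + 65536)) 0 65536
  refine (((t1.add t2).add t3).mono (le_of_eq (by push_cast; ring)) le_rfl).congr
    (fun X hX => ?_)
  have e1 : zz (512, 0) = ((512 * ((1, 0) : ℤ × ℤ).1, 65536 * ((1, 0) : ℤ × ℤ).2) : ℤ × ℤ) := by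
    simp [zz]
  have e2 : zz (0, 65536) = ((512 * ((0, 1) : ℤ × ℤ).1, 65536 * ((0, 1) : ℤ × ℤ).2) : ℤ × ℤ) := by
    simp [zz]
  have hX' : S.LV 65536 X := hX.mono (by omega)
  have d1 := S.Dec_sh X (1, 0)
  have d2 := S.Dec_sh X (0, 1)
  have d3 := hX'.at0_big (1, 0) (by simp) (by simp)
  have d4 := hX'.at0_big (0, 1) (by simp) (by simp)
  rw [← e1] at d1 d3
  rw [← e2] at d2 d4
  simp only [d1, d2, d3, d4]
  unfold at0
  split_ifs with hp
  · rw [a6 _ (hR n X (hX.mono (by omega)) hp.1 hp.2)]; ring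
  · ring

theorem LV.at0_sh {X : Cfg} (hX : S.LV 65536 X) {p : ℕ × ℕ} (hp : p ∈ box) :
    at0 p (sh (zz p) X) = at0 (0, 0) X := by
  unfold at0
  rw [sh_zz_zero]
  obtain ⟨h1, h2⟩ := mem_box.1 hp
  have := hX.pos p.1 p.2 (by omega) (by omega)
  have p1 := px_lt (X (0, 0))
  have p2 := py_lt (X (0, 0))
  refine if_congr ?_ rfl rfl
  simp only
  omega

theorem TQ.lift (S : Sim) : ∃ (A : ℝ) (R : ℕ), 0 ≤ A ∧ ∀ (W B : ℝ) (n w : ℕ) (f : Cfg → ℝ),
    Win w f → (∀ X, |f X| ≤ B) → S.TQ W n (S.M f) →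
      S.TQ (A * (W + B)) (65536 * n + w + R) f := by
  obtain ⟨A, R, hA, h1⟩ := TQ.dec S
  obtain ⟨R', h2⟩ := S.local_Sub
  have hN : (0 : ℝ) ≤ box.card := Nat.cast_nonneg _
  refine ⟨A + box.card * 66048, R + R' + 65536, by positivity, fun W B n w f hw hB hM => ?_⟩
  have hB0 : (0 : ℝ) ≤ B := (abs_nonneg _).trans (hB (fun _ => mkT 0 0 (false, false, false, false)))
  have hW0 := hM.nonneg
  have t1 := (h1 W n _ hM).mono le_rfl
    (show 65536 * n + R ≤ 65536 * n + w + (R + R' + 65536) by omega)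
  have t2 : ∀ p ∈ box, S.TQ (66048 * B) (65536 * n + w + (R + R' + 65536))
      (fun X => at0 p (sh (zz p) X) * f (sh (zz p) X) - at0 p X * f X) := by
    intro p hp
    obtain ⟨p1, p2⟩ := mem_box.1 hp
    refine (TQ.cob (S := S) ((loc_at0 p).map₂ hw.loc (fun a b => a * b))
      (fun X => abs_at0_mul _ X (hB X)) _ p.1 p.2).mono ?_ le_rfl
    refine mul_le_mul_of_nonneg_right ?_ hB0
    exact_mod_cast (show p.1 + p.2 ≤ 66048 by omega)
  have t3 := (TQ.sum _ t2).smul (-1) (ρ := 1) (by simp)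
  refine ((t1.add t3).mono ?_ le_rfl).congr (fun X hX => ?_)
  · nlinarith [mul_nonneg hA hB0, mul_nonneg hN hW0]
  have hX' : S.LV 65536 X := hX.mono (by omega)
  have e : ∑ p ∈ box, at0 p (sh (zz p) X) * f (sh (zz p) X) =
      ∑ p ∈ box, at0 (0, 0) X * f (sh (zz p) X) :=
    sum_congr rfl (fun p hp => by rw [hX'.at0_sh hp])
  have e2 : at0 (0, 0) X * S.M f (S.Dec X) = at0 (0, 0) X * ∑ p ∈ box, f (sh (zz p) X) := by
    unfold at0
    split_ifs with hp
    · congr 1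
      refine sum_congr rfl (fun p hp' => hw _ _ (fun i j hi hj => ?_))
      obtain ⟨p1, p2⟩ := mem_box.1 hp'
      rw [sh_zz_apply, sh_zz_apply]
      exact h2 (w + 65536) X (hX.mono (by omega)) hp.1 hp.2 _ _ (by omega) (by omega)
    · rw [zero_mul, zero_mul]
  rw [e2, sum_sub_distrib, ← sum_mul, sum_at0, mul_sum, e]
  ring

theorem TQ.base (S : Sim) : ∃ W n, ∀ (f : Cfg → ℝ) (B : ℝ), Win 1 f → (∀ X, |f X| ≤ B) →
    S.TQ (B * W) n f := by
  classical
  let ρ : Cfg → (Fin 2 × Fin 2 → Tile) := fun X q => X (((q.1 : ℕ) : ℤ), ((q.2 : ℕ) : ℤ))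
  have hρ : Loc ρ := ⟨(range 2 ×ˢ range 2).image zz, fun X Y h => by
    funext q
    exact h _ (mem_image.2 ⟨((q.1 : ℕ), (q.2 : ℕ)), mem_product.2
      ⟨mem_range.2 q.1.isLt, mem_range.2 q.2.isLt⟩, rfl⟩)⟩
  obtain ⟨W, n, h⟩ := TQ.finite S hρ
  refine ⟨W, n, fun f B hw hB => ?_⟩
  have hB0 : (0 : ℝ) ≤ B := (abs_nonneg _).trans (hB (fun _ => mkT 0 0 (false, false, false, false)))
  refine (h (fun z => if h : ∃ X, ρ X = z then f h.choose else 0) B (fun z => ?_)).congr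
    (fun X _ => ?_)
  · split_ifs
    · exact hB _
    · simpa using hB0
  · have hex : ∃ X', ρ X' = ρ X := ⟨X, rfl⟩
    simp only [dif_pos hex]
    refine hw _ _ (fun i j hi hj => ?_)
    exact (congrFun hex.choose_spec (⟨i, by omega⟩, ⟨j, by omega⟩)).symm

theorem TQ.level (S : Sim) : ∃ D : ℕ, ∀ (k : ℕ) (f : Cfg → ℝ) (B : ℝ), Win (512 ^ k) f →
    (∀ X, |f X| ≤ B) → S.TQ ((D ^ (k + 1) : ℕ) * B) (D ^ (k + 1)) f := by
  obtain ⟨A, R, hA, h1⟩ := TQ.lift S
  obtain ⟨W, n, h2⟩ := TQ.base S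
  have hN : (0 : ℝ) ≤ box.card := Nat.cast_nonneg _
  obtain ⟨D1, hD1⟩ := exists_nat_ge (A * (box.card + 1))
  obtain ⟨D2, hD2⟩ := exists_nat_ge W
  obtain ⟨D, hD⟩ : ∃ D, D = D1 + D2 + n + R + 65537 := ⟨_, rfl⟩
  obtain ⟨N, hNe⟩ : ∃ N : ℝ, N = box.card := ⟨_, rfl⟩
  rw [← hNe] at hN hD1
  refine ⟨D, fun k => ?_⟩
  induction k with
  | zero =>
    intro f B hw hB
    have hB0 : (0 : ℝ) ≤ B :=
      (abs_nonneg _).trans (hB (fun _ => mkT 0 0 (false, false, false, false)))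
    refine (h2 f B (by simpa using hw) hB).mono ?_ (by simp only [zero_add, pow_one]; omega)
    rw [mul_comm]
    refine mul_le_mul_of_nonneg_right (hD2.trans ?_) hB0
    exact_mod_cast (show D2 ≤ D ^ (0 + 1) by simp only [zero_add, pow_one]; omega)
  | succ k ih =>
    intro f B hw hB
    have hB0 : (0 : ℝ) ≤ B :=
      (abs_nonneg _).trans (hB (fun _ => mkT 0 0 (false, false, false, false)))
    have hw' : Win (512 ^ k) (S.M f) := by
      have := hw.M (S := S)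
      have e : ∀ m : ℕ, (511 + m * 512) / 512 = m := fun m => by omega
      rwa [pow_succ, e] at this
    have hM : ∀ X, |S.M f X| ≤ N * B := fun X =>
      (abs_sum_le_sum_abs _ _).trans ((sum_le_sum (fun p _ => hB _)).trans
        (by rw [sum_const, nsmul_eq_mul, hNe]))
    have p1 : 1 ≤ D ^ (k + 1) := Nat.one_le_pow _ _ (by omega)
    have p2 : 512 ^ (k + 1) ≤ D ^ (k + 1) := Nat.pow_le_pow_left (by omega) _
    refine (h1 _ B _ _ f hw hB (ih _ _ hw' hM)).mono ?_ ?_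
    · have q1 : (1 : ℝ) ≤ (D ^ (k + 1) : ℕ) := by exact_mod_cast p1
      have q2 : (D1 : ℝ) ≤ D := by exact_mod_cast (show D1 ≤ D by omega)
      have q3 : ((D ^ (k + 1 + 1) : ℕ) : ℝ) = (D ^ (k + 1) : ℕ) * D := by
        rw [pow_succ]; push_cast; ring
      rw [q3]
      generalize ((D ^ (k + 1) : ℕ) : ℝ) = E at q1
      calc A * (E * (N * B) + B) ≤ A * (E * (N * B) + E * B) := by
            refine mul_le_mul_of_nonneg_left ?_ hA
            nlinarith
        _ = (A * (N + 1)) * (E * B) := by ring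
        _ ≤ D * (E * B) := mul_le_mul_of_nonneg_right (hD1.trans q2) (by positivity)
        _ = E * D * B := by ring
    · have : R ≤ R * D ^ (k + 1) := Nat.le_mul_of_pos_right _ p1
      have q : (65537 + R) * D ^ (k + 1) ≤ D * D ^ (k + 1) :=
        Nat.mul_le_mul_right _ (by omega)
      rw [pow_succ D (k + 1), mul_comm _ D]
      rw [add_mul] at q
      omega

/-- Polynomial bounds. -/
theorem TQ.poly (S : Sim) : ∃ p : ℕ, ∀ (w : ℕ) (f : Cfg → ℝ) (B : ℝ), Win w f →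
    (∀ X, |f X| ≤ B) → S.TQ (((4 * (w + 1)) ^ p : ℕ) * B) ((4 * (w + 1)) ^ p) f := by
  obtain ⟨D, h⟩ := TQ.level S
  refine ⟨D, fun w f B hw hB => ?_⟩
  have hB0 : (0 : ℝ) ≤ B :=
    (abs_nonneg _).trans (hB (fun _ => mkT 0 0 (false, false, false, false)))
  let k := Nat.log 2 (w + 1) + 1
  have k1 : w + 1 < 2 ^ k := Nat.lt_pow_succ_log_self (by norm_num) _
  have k2 : 2 ^ Nat.log 2 (w + 1) ≤ w + 1 := Nat.pow_log_le_self 2 (by omega)
  have k3 : 2 ^ k ≤ 512 ^ k := Nat.pow_le_pow_left (by norm_num) _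
  have k4 : D ^ (k + 1) ≤ (4 * (w + 1)) ^ D := by
    calc D ^ (k + 1) ≤ (2 ^ D) ^ (k + 1) := Nat.pow_le_pow_left Nat.lt_two_pow_self.le _
      _ = (2 ^ (k + 1)) ^ D := by rw [← pow_mul, ← pow_mul, mul_comm]
      _ ≤ _ := Nat.pow_le_pow_left (by simp only [k, pow_succ]; omega) _
  refine (h k f B (fun X Y hXY => hw X Y (fun i j hi hj => hXY i j (by omega) (by omega))) hB).mono
    (mul_le_mul_of_nonneg_right (by exact_mod_cast k4) hB0) k4

end Sim

end Pool.Agent.Lib.MP_c73c36_mp
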