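import Pool.Agent.Lib.MP_c73c36_mp.QuantSBC

/-!
The uniform strict boundary condition on `Fin 2 → ℤ` with letters `Fin k`.
-/

set_option autoImplicit false

namespace Pool.Agent.Lib.MP_c73c36_mp

/-- The identification of the two models of the square lattice. -/
def phiE : ℤ × ℤ ≃ (Fin 2 → ℤ) := ⟨phi, fun a => (a 0, a 1), fun _ => rfl, phi_eta⟩

theorem main_q (S : Sim) : ∃ k m : ℕ,
    ∃ F : Fin m → Finset (Fin 2 → ℤ) × ((Fin 2 → ℤ) → Fin k),
      (sft F).Nonempty ∧ (∀ X ∈ sft F, ∀ a, sh a X = X → a = 0) ∧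
      (∀ f : ((Fin 2 → ℤ) → Fin k) → ℝ, Loc f → Triv (sft F) f) ∧
      ∃ (q : ℕ) (C : ℝ), ∀ g : ((Fin 2 → ℤ) → Fin k) → ℝ,
        (∀ (n : ℕ) (X Y : (Fin 2 → ℤ) → Fin k),
          (∀ i : Fin 2 → ℤ, (∀ t, |i t| < (n : ℤ)) → X i = Y i) →
          |g X - g Y| ≤ 1 / ((n : ℝ) + 1) ^ q) →
        ∀ X ∈ sft F, ∀ Y : (Fin 2 → ℤ) → Fin k, {i | Y i ≠ X i}.Finite →
          Summable (fun a => g (sh a Y) - g (sh a X)) ∧
          |∑' a, (g (sh a Y) - g (sh a X))| ≤ C * ({a | ∃ j, occ F j a Y}.ncard : ℝ) := by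
  classical
  obtain ⟨k, ⟨e⟩⟩ := Finite.exists_equiv_fin Tile
  obtain ⟨m, ⟨g⟩⟩ := Finite.exists_equiv_fin
    {t : Fin k × Fin k × Fin k // ¬ ok3 S.T (e.symm t.1) (e.symm t.2.1) (e.symm t.2.2)}
  let F : Fin m → Finset (Fin 2 → ℤ) × ((Fin 2 → ℤ) → Fin k) := fun j =>
    ({phi (0, 0), phi (1, 0), phi (0, 1)}, fun i => if i = phi (1, 0) then (g.symm j).1.2.1 else
      if i = phi (0, 1) then (g.symm j).1.2.2 else (g.symm j).1.1)
  have n1 : phi (0, 0) ≠ phi (1, 0) := fun h => by simpa [phi] using congrFun h 0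
  have n2 : phi (0, 0) ≠ phi (0, 1) := fun h => by simpa [phi] using congrFun h 1
  have n3 : phi (0, 1) ≠ phi (1, 0) := fun h => by simpa [phi] using congrFun h 0
  have hocc : ∀ (j : Fin m) (a : Fin 2 → ℤ) (X : (Fin 2 → ℤ) → Fin k), occ F j a X ↔
      (X (phi (a 0, a 1)), X (phi (a 0 + 1, a 1)), X (phi (a 0, a 1 + 1))) = (g.symm j).1 := by
    intro j a X
    have e0 : phi (0, 0) + a = phi (a 0, a 1) := by
      conv_lhs => rw [← phi_eta a, ← map_add]
      simp
    have e1 : phi (1, 0) + a = phi (a 0 + 1, a 1) := by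
      conv_lhs => rw [← phi_eta a, ← map_add]
      simp [add_comm]
    have e2 : phi (0, 1) + a = phi (a 0, a 1 + 1) := by
      conv_lhs => rw [← phi_eta a, ← map_add]
      simp [add_comm]
    simp only [occ, F, Finset.mem_insert, Finset.mem_singleton, forall_eq_or_imp, forall_eq,
      if_neg n1, if_neg n2, if_neg n3, if_true, e0, e1, e2, Prod.ext_iff]
  have hΩ : sft F = {X' : (Fin 2 → ℤ) → Fin k | (fun i => e.symm (X' (phi i))) ∈ S.Om} := by
    ext X
    constructor
    · intro hX i j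
      by_contra hc
      refine hX (g ⟨(X (phi (i, j)), X (phi (i + 1, j)), X (phi (i, j + 1))), hc⟩) (phi (i, j)) ?_
      rw [hocc, Equiv.symm_apply_apply]
      rfl
    · intro hX j a ho
      rw [hocc] at ho
      apply (g.symm j).2
      rw [← ho]
      exact hX (a 0) (a 1)
  refine ⟨k, m, F, ?_, ?_, ?_, ?_⟩
  · obtain ⟨X, hX⟩ := S.nonempty
    refine ⟨fun i => e (X (i 0, i 1)), ?_⟩
    rw [hΩ]
    have : (fun i : ℤ × ℤ => e.symm (e (X (phi i 0, phi i 1)))) = X := by
      funext i; rw [Equiv.symm_apply_apply]; rfl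
    show (fun i : ℤ × ℤ => e.symm (e (X (phi i 0, phi i 1)))) ∈ S.Om
    rw [this]; exact hX
  · intro X hX a ha
    rw [hΩ] at hX
    have := S.aperiodic _ _ hX (a 0, a 1) le_rfl (by
      funext i
      show e.symm (X (phi (i + (a 0, a 1)))) = e.symm (X (phi i))
      rw [map_add, phi_eta]
      exact congrArg e.symm (congrFun ha (phi i)))
    rw [← phi_eta a, this, map_zero]
  · intro f hf
    rw [hΩ]
    have hl : Loc (fun X : Cfg => f (fun i => e (X (i 0, i 1)))) := by
      obtain ⟨s, hs⟩ := hf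
      refine ⟨s.image (fun i => (i 0, i 1)), fun X Y h => hs _ _ (fun i hi => ?_)⟩
      simp only [h _ (Finset.mem_image_of_mem _ hi)]
    have := (S.triv_all hl).transport phi e.symm
    simpa only [Equiv.apply_symm_apply, phi_eta] using this
  · obtain ⟨q, C, h⟩ := S.sbc_all
    refine ⟨q, C, fun G hG X hX Y hD => ?_⟩
    rw [hΩ] at hX
    have h1 := h (fun Z => G (fun i => e (Z (i 0, i 1)))) (fun n Z Z' hZ =>
      hG n _ _ (fun i hi => by
        have a0 := abs_lt.1 (hi 0)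
        have a1 := abs_lt.1 (hi 1)
        rw [hZ (i 0, i 1) (by simp only; omega) (by simp only; omega)]))
      _ hX (fun i => e.symm (Y (phi i)))
      ((hD.preimage phiE.injective.injOn).subset (fun i hi he => hi (congrArg e.symm he)))
    have e1 : ∀ (Z : (Fin 2 → ℤ) → Fin k) (a : ℤ × ℤ),
        (fun i : Fin 2 → ℤ => e (sh a (fun i => e.symm (Z (phi i))) (i 0, i 1))) =
          sh (phiE a) Z := by
      intro Z a
      funext i
      show e (e.symm (Z (phi ((i 0, i 1) + a)))) = Z (i + phi a)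
      rw [Equiv.apply_symm_apply, map_add, phi_eta]
    simp only [e1] at h1
    have e2 : {a | ∃ j, occ F j a Y} = phiE '' S.bad (fun i => e.symm (Y (phi i))) := by
      ext a
      rw [Equiv.image_eq_preimage_symm]
      constructor
      · rintro ⟨j, ho⟩ hc
        rw [hocc] at ho
        apply (g.symm j).2
        rw [← ho]
        exact hc
      · intro hc
        refine ⟨g ⟨(Y (phi (a 0, a 1)), Y (phi (a 0 + 1, a 1)), Y (phi (a 0, a 1 + 1))), hc⟩, ?_⟩
        rw [hocc, Equiv.symm_apply_apply]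
    rw [e2, Set.ncard_image_of_injective _ phiE.injective,
      ← phiE.tsum_eq (fun a => G (sh a Y) - G (sh a X))]
    exact ⟨(phiE.summable_iff (f := fun a => G (sh a Y) - G (sh a X))).1 h1.1, h1.2⟩

end Pool.Agent.Lib.MP_c73c36_mp
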