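import Pool.Agent.Lib.MP_c73c36_mp.Quant
import Pool.Agent.Lib.MP_c73c36_mp.Final

/-!
The strict boundary condition with one constant for all observables whose variations decay
polynomially.
-/

set_option autoImplicit false

namespace Pool.Agent.Lib.MP_c73c36_mp

open Finset Filter Topology

theorem finsum_cob {ι A : Type} [AddCommGroup ι] {g : (ι → A) → ℝ} (hg : Loc g) (b : ι)
    {X Y : ι → A} (hD : {i | Y i ≠ X i}.Finite) :
    ∑ᶠ a, ((g (sh b (sh a Y)) - g (sh a Y)) - (g (sh b (sh a X)) - g (sh a X))) = 0 := by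
  have h1 := hg.finite_support hD
  have h2 := (hg.shift b).finite_support hD
  have e1 : (fun a => (g (sh b (sh a Y)) - g (sh a Y)) - (g (sh b (sh a X)) - g (sh a X))) =
      fun a => (g (sh b (sh a Y)) - g (sh b (sh a X))) - (g (sh a Y) - g (sh a X)) := by
    funext a; ring
  rw [e1, finsum_sub_distrib h2 h1]
  have e2 : ∑ᶠ a, (g (sh b (sh a Y)) - g (sh b (sh a X))) =
      ∑ᶠ a, (g (sh a Y) - g (sh a X)) := by
    simp only [sh_sh]
    exact finsum_comp_equiv (f := fun a => g (sh a Y) - g (sh a X)) (Equiv.addLeft b)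
  rw [e2, sub_self]

/-- Agreement on the open ball of radius `n`. -/
def Agr (n : ℕ) (X Y : Cfg) : Prop := ∀ a : ℤ × ℤ, a.1.natAbs < n → a.2.natAbs < n → X a = Y a

/-- Truncation to the open ball of radius `n`. -/
def tr (n : ℕ) (X : Cfg) : Cfg := fun a =>
  if a.1.natAbs < n ∧ a.2.natAbs < n then X a else mkT 0 0 (false, false, false, false)

theorem agr_tr (n : ℕ) (X : Cfg) : Agr n (tr n X) X := fun _ h1 h2 => if_pos ⟨h1, h2⟩

theorem Agr.tr {n : ℕ} {X Y : Cfg} (h : Agr n X Y) (N : ℕ) : Agr n (tr N X) (tr N Y) := by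
  intro a h1 h2
  simp only [MP_c73c36_mp.tr, h a h1 h2]

theorem tr_eq {n : ℕ} {X Y : Cfg} (h : Agr n X Y) : tr n X = tr n Y := by
  funext a
  unfold tr
  split_ifs with c
  · exact h a c.1 c.2
  · rfl

theorem win_of_agr {n : ℕ} {f : Cfg → ℝ} (h : ∀ X Y, Agr n X Y → f X = f Y) :
    Sim.Win (2 * n) (fun X => f (sh (zz (n, n)) X)) := by
  intro X Y hXY
  refine h _ _ (fun a h1 h2 => ?_)
  have := hXY (a.1 + n).toNat (a.2 + n).toNat (by omega) (by omega)
  rwa [show (((a.1 + n).toNat : ℕ) : ℤ) = a.1 + n by omega,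
    show (((a.2 + n).toNat : ℕ) : ℤ) = a.2 + n by omega] at this

theorem loc_of_agr {n : ℕ} {f : Cfg → ℝ} (h : ∀ X Y, Agr n X Y → f X = f Y) : Loc f := by
  have := (win_of_agr h).loc.shift (-zz (n, n))
  simpa only [sh_sh, add_neg_cancel, sh_zero] using this

theorem summable_int : Summable (fun z : ℤ => 1 / ((z.natAbs : ℝ) + 1) ^ 2) := by
  have h : Summable (fun n : ℕ => 1 / ((n : ℝ) + 1) ^ 2) := by
    have := (summable_nat_add_iff 1).2 (Real.summable_one_div_nat_pow.2 (show 1 < 2 by norm_num))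
    simpa using this
  exact Summable.of_nat_of_neg (by simpa using h) (by simpa using h)

/-- The summable majorant. -/
noncomputable def ker (a : ℤ × ℤ) : ℝ :=
  1 / ((a.1.natAbs : ℝ) + 1) ^ 2 * (1 / ((a.2.natAbs : ℝ) + 1) ^ 2)

theorem ker_nonneg (a : ℤ × ℤ) : 0 ≤ ker a := by unfold ker; positivity

theorem summable_ker : Summable ker :=
  summable_int.mul_of_nonneg summable_int (fun _ => by positivity) (fun _ => by positivity)

theorem majorant {q : ℕ} (hq : 4 ≤ q) {X Y : Cfg} (hD : {i | Y i ≠ X i}.Finite) :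
    ∃ u : ℤ × ℤ → ℝ, Summable u ∧ ∀ g : Cfg → ℝ,
      (∀ n X Y, Agr n X Y → |g X - g Y| ≤ 1 / ((n : ℝ) + 1) ^ q) →
      ∀ a, |g (sh a Y) - g (sh a X)| ≤ u a := by
  refine ⟨fun a => ∑ d ∈ hD.toFinset, ker (d - a),
    summable_sum (fun d _ => (Equiv.subLeft d).summable_iff.2 summable_ker), fun g hg a => ?_⟩
  rcases hD.toFinset.eq_empty_or_nonempty with he | hne
  · have : Y = X := by
      funext i
      by_contra hc
      have : i ∈ hD.toFinset := hD.mem_toFinset.2 hc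
      rw [he] at this
      exact notMem_empty _ this
    simp [this]
  · obtain ⟨d, hd, hmin⟩ := exists_min_image hD.toFinset
      (fun d => max (d - a).1.natAbs (d - a).2.natAbs) hne
    refine le_trans ?_ (single_le_sum (f := fun d => ker (d - a)) (fun d _ => ker_nonneg _) hd)
    refine (hg (max (d - a).1.natAbs (d - a).2.natAbs) _ _ (fun i h1 h2 => ?_)).trans ?_
    · by_contra hc
      have := hmin (i + a) (hD.mem_toFinset.2 hc)
      simp only [add_sub_cancel_right] at this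
      omega
    · unfold ker
      generalize (d - a).1.natAbs = x
      generalize (d - a).2.natAbs = y
      have hx : (x : ℝ) + 1 ≤ ((max x y : ℕ) : ℝ) + 1 := by
        have : x ≤ max x y := le_max_left _ _
        exact_mod_cast Nat.succ_le_succ this
      have hy : (y : ℝ) + 1 ≤ ((max x y : ℕ) : ℝ) + 1 := by
        have : y ≤ max x y := le_max_right _ _
        exact_mod_cast Nat.succ_le_succ this
      generalize ((max x y : ℕ) : ℝ) + 1 = m at hx hy
      have x0 : (0 : ℝ) ≤ x := Nat.cast_nonneg _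
      have y0 : (0 : ℝ) ≤ y := Nat.cast_nonneg _
      rw [one_div_mul_one_div]
      refine one_div_le_one_div_of_le (by positivity) ?_
      calc ((x : ℝ) + 1) ^ 2 * ((y : ℝ) + 1) ^ 2 ≤ m ^ 2 * m ^ 2 := by gcongr
        _ = m ^ 4 := by ring
        _ ≤ m ^ q := pow_le_pow_right₀ (by linarith) hq

namespace Sim

variable {S : Sim}

/-- The sites where the matching rule is broken. -/
def bad (S : Sim) (Y : Cfg) : Set (ℤ × ℤ) := {a | ¬ S.ok Y a.1 a.2}

theorem bad_finite {X Y : Cfg} (hX : X ∈ S.Om) (hD : {i | Y i ≠ X i}.Finite) :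
    (S.bad Y).Finite := by
  refine ((S.loc_ok 0 0).finite_diff hD).subset (fun a ha he => ha ?_)
  have h1 : S.ok (sh a Y) 0 0 := Eq.mpr he (S.sh_mem hX a 0 0)
  simpa using (S.ok_sh Y a 0 0).1 h1

theorem TQ.sbc {W B : ℝ} {n : ℕ} {f : Cfg → ℝ} (h : S.TQ W n f) (hf : Loc f)
    (hB : ∀ X, |f X| ≤ B) {X Y : Cfg} (hX : X ∈ S.Om) (hD : {i | Y i ≠ X i}.Finite) :
    |∑ᶠ a, (f (sh a Y) - f (sh a X))| ≤ (B + 5 * W) * (2 * n + 1) ^ 2 * (S.bad Y).ncard := by
  classical
  obtain ⟨c, g, k, a1, a2, a3, a4, a5, a6⟩ := h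
  let v : Cfg → ℝ := fun X => f X - (c + (g (sh (1, 0) X) - g X) + (k (sh (0, 1) X) - k X))
  have l1 : Loc (fun X => g (sh (1, 0) X) - g X) := (a1.shift _).map₂ a1 (· - ·)
  have l2 : Loc (fun X => k (sh (0, 1) X) - k X) := (a2.shift _).map₂ a2 (· - ·)
  have l3 : Loc v := hf.map₂ (l1.map₂ l2 (fun a b => c + a + b)) (· - ·)
  have hv : ∀ X, |v X| ≤ B + 5 * W := fun X => by
    have := abs_le.1 (hB X)
    have := abs_le.1 a3
    have := abs_le.1 (a4 X)
    have := abs_le.1 (a4 (sh (1, 0) X))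
    have := abs_le.1 (a5 X)
    have := abs_le.1 (a5 (sh (0, 1) X))
    rw [abs_le]
    constructor <;> simp only [v] <;> linarith
  have hv0 : ∀ X, S.LV n X → v X = 0 := fun X hX => sub_eq_zero.2 (a6 X hX)
  have e : (fun a => f (sh a Y) - f (sh a X)) = fun a => (v (sh a Y) - v (sh a X)) +
      (((g (sh (1, 0) (sh a Y)) - g (sh a Y)) - (g (sh (1, 0) (sh a X)) - g (sh a X))) +
      ((k (sh (0, 1) (sh a Y)) - k (sh a Y)) - (k (sh (0, 1) (sh a X)) - k (sh a X)))) := by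
    funext a; simp only [v]; ring
  have s1 := l1.finite_support hD
  have s2 := l2.finite_support hD
  have s12 := (l1.map₂ l2 (· + ·)).finite_support hD
  rw [e, finsum_add_distrib (l3.finite_support hD) (by
      refine s12.subset (fun a ha => ?_)
      intro he
      apply ha
      simp only at he ⊢
      linarith),
    finsum_add_distrib s1 s2, finsum_cob a1 _ hD, finsum_cob a2 _ hD, add_zero, add_zero]
  have hfin := bad_finite hX hD
  let R : Finset (ℤ × ℤ) := Icc (-(n : ℤ)) n ×ˢ Icc (-(n : ℤ)) n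
  let T : Finset (ℤ × ℤ) := (R ×ˢ hfin.toFinset).image (fun p => p.2 - p.1)
  have hX0 : ∀ a, v (sh a X) = 0 := fun a => hv0 _ (LV.of_mem (S.sh_mem hX a) n)
  have hsupp : Function.support (fun a => v (sh a Y) - v (sh a X)) ⊆ T := by
    intro a ha
    by_contra hc
    apply ha
    have h2 : v (sh a Y) = 0 := by
      refine hv0 _ (fun i j hi hj => ?_)
      by_contra ho
      rw [S.ok_sh] at ho
      refine hc (mem_coe.2 (mem_image.2 ⟨((i, j), (i + a.1, j + a.2)), ?_, by ext <;> simp⟩))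
      refine mem_product.2 ⟨mem_product.2 ⟨mem_Icc.2 ?_, mem_Icc.2 ?_⟩, hfin.mem_toFinset.2 ho⟩
      · simp only; omega
      · simp only; omega
    simp [hX0 a, h2]
  rw [finsum_eq_sum_of_support_subset _ hsupp]
  have hcard : (T.card : ℝ) ≤ (2 * n + 1) ^ 2 * ((S.bad Y).ncard : ℝ) := by
    have h1 : T.card ≤ (R ×ˢ hfin.toFinset).card := card_image_le
    have h2 : (Icc (-(n : ℤ)) n).card = 2 * n + 1 := by rw [Int.card_Icc]; omega
    rw [card_product, ← Set.ncard_eq_toFinset_card _ hfin, card_product, h2, ← sq] at h1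
    exact_mod_cast h1
  have h0 : 0 ≤ B + 5 * W := (abs_nonneg _).trans (hv X)
  calc |∑ a ∈ T, (v (sh a Y) - v (sh a X))| ≤ ∑ a ∈ T, |v (sh a Y) - v (sh a X)| :=
        abs_sum_le_sum_abs _ _
    _ ≤ ∑ _a ∈ T, (B + 5 * W) := by
        refine sum_le_sum (fun a _ => ?_)
        rw [hX0 a, sub_zero]; exact hv _
    _ = (B + 5 * W) * T.card := by rw [sum_const, nsmul_eq_mul, mul_comm]
    _ ≤ (B + 5 * W) * ((2 * n + 1) ^ 2 * ((S.bad Y).ncard : ℝ)) :=
        mul_le_mul_of_nonneg_left hcard h0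
    _ = _ := by ring

/-- Polynomial constants for all functions of a window. -/
theorem sbc_window (S : Sim) : ∃ (p : ℕ) (C : ℝ), 0 ≤ C ∧ ∀ (n : ℕ) (f : Cfg → ℝ) (B : ℝ),
    (∀ X Y, Agr (n + 1) X Y → f X = f Y) → (∀ X, |f X| ≤ B) → ∀ X ∈ S.Om, ∀ Y : Cfg,
      {i | Y i ≠ X i}.Finite →
      |∑ᶠ a, (f (sh a Y) - f (sh a X))| ≤ C * ((n : ℝ) + 1) ^ p * B * (S.bad Y).ncard := by
  obtain ⟨p, h⟩ := TQ.poly S
  refine ⟨3 * p, 54 * 12 ^ (3 * p), by positivity, fun n f B hf hB X hX Y hD => ?_⟩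
  have hB0 : 0 ≤ B := (abs_nonneg _).trans (hB X)
  have hw := win_of_agr hf
  have h1 := (h _ _ B hw (fun _ => hB _)).sbc hw.loc (fun _ => hB _) hX hD
  have e2 : ∑ᶠ a, (f (sh (zz (n + 1, n + 1)) (sh a Y)) - f (sh (zz (n + 1, n + 1)) (sh a X))) =
      ∑ᶠ a, (f (sh a Y) - f (sh a X)) := by
    simp only [sh_sh]
    exact finsum_comp_equiv (f := fun a => f (sh a Y) - f (sh a X)) (Equiv.addLeft _)
  rw [e2] at h1
  refine h1.trans (mul_le_mul_of_nonneg_right ?_ (Nat.cast_nonneg _))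
  have q1 : (((4 * (2 * (n + 1) + 1)) ^ p : ℕ) : ℝ) ≤ (12 * ((n : ℝ) + 1)) ^ p := by
    have : (4 * (2 * (n + 1) + 1)) ^ p ≤ (12 * (n + 1)) ^ p := Nat.pow_le_pow_left (by omega) _
    exact_mod_cast this
  have q2 : (1 : ℝ) ≤ (((4 * (2 * (n + 1) + 1)) ^ p : ℕ) : ℝ) := by
    exact_mod_cast Nat.one_le_pow _ _ (by omega)
  generalize (((4 * (2 * (n + 1) + 1)) ^ p : ℕ) : ℝ) = E at q1 q2
  have q3 : (54 : ℝ) * 12 ^ (3 * p) * ((n : ℝ) + 1) ^ (3 * p) =
      54 * ((12 * ((n : ℝ) + 1)) ^ p) ^ 3 := by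
    rw [← pow_mul, mul_comm p 3, mul_pow, mul_assoc]
  rw [q3]
  generalize (12 * ((n : ℝ) + 1)) ^ p = G at q1
  calc (B + 5 * (E * B)) * (2 * E + 1) ^ 2 = (1 + 5 * E) * (2 * E + 1) ^ 2 * B := by ring
    _ ≤ (6 * G) * (3 * G) ^ 2 * B := by
        have r1 : 1 + 5 * E ≤ 6 * G := by linarith
        have r2 : 2 * E + 1 ≤ 3 * G := by linarith
        have r3 : 0 ≤ 6 * G := by linarith
        have r4 : 0 ≤ 2 * E + 1 := by linarith
        gcongr
    _ = 54 * G ^ 3 * B := by ring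

/-- One constant for all observables with polynomially decaying variations. -/
theorem sbc_all (S : Sim) : ∃ (q : ℕ) (C : ℝ), ∀ g : Cfg → ℝ,
    (∀ n X Y, Agr n X Y → |g X - g Y| ≤ 1 / ((n : ℝ) + 1) ^ q) → ∀ X ∈ S.Om, ∀ Y : Cfg,
      {i | Y i ≠ X i}.Finite → Summable (fun a => g (sh a Y) - g (sh a X)) ∧
        |∑' a, (g (sh a Y) - g (sh a X))| ≤ C * (S.bad Y).ncard := by
  obtain ⟨p, C, hC, h⟩ := S.sbc_window
  have hs : Summable (fun n : ℕ => 1 / ((n : ℝ) + 1) ^ 4) := by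
    have := (summable_nat_add_iff 1).2 (Real.summable_one_div_nat_pow.2 (show 1 < 4 by norm_num))
    simpa using this
  refine ⟨p + 4, C * ∑' n : ℕ, 1 / ((n : ℝ) + 1) ^ 4, fun g hg X hX Y hD => ?_⟩
  obtain ⟨u, hu, hm⟩ := majorant (show 4 ≤ p + 4 by omega) hD
  refine ⟨hu.of_norm_bounded (fun a => hm g hg a), ?_⟩
  have hl : ∀ N, Loc (fun Z => g (tr N Z)) := fun N =>
    loc_of_agr (n := N) (fun X Y hXY => by rw [tr_eq hXY])
  have h1 : ∀ N : ℕ, |∑ᶠ a, (g (tr N (sh a Y)) - g (tr N (sh a X)))| ≤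
      C * (∑ n ∈ range N, 1 / ((n : ℝ) + 1) ^ 4) * (S.bad Y).ncard := by
    intro N
    induction N with
    | zero =>
      have : ∀ a, tr 0 (sh a Y) = tr 0 (sh a X) := fun a => tr_eq (fun _ h _ => by omega)
      simp [this]
    | succ N ih =>
      have h2 := h N (fun Z => g (tr (N + 1) Z) - g (tr N Z)) (1 / ((N : ℝ) + 1) ^ (p + 4))
        (fun X Y hXY => by
          rw [tr_eq hXY, tr_eq (n := N) (fun a h1 h2 => hXY a (by omega) (by omega))])
        (fun Z => hg N _ _ (fun a h1 h2 =>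
          (agr_tr (N + 1) Z a (by omega) (by omega)).trans (agr_tr N Z a h1 h2).symm)) X hX Y hD
      have e : (fun a => g (tr (N + 1) (sh a Y)) - g (tr (N + 1) (sh a X))) = fun a =>
          (g (tr N (sh a Y)) - g (tr N (sh a X))) +
          ((g (tr (N + 1) (sh a Y)) - g (tr N (sh a Y))) -
            (g (tr (N + 1) (sh a X)) - g (tr N (sh a X)))) := by
        funext a; ring
      rw [e, finsum_add_distrib ((hl N).finite_support hD)
        (((hl (N + 1)).map₂ (hl N) (· - ·)).finite_support hD), sum_range_succ]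
      have e3 : C * ((N : ℝ) + 1) ^ p * (1 / ((N : ℝ) + 1) ^ (p + 4)) =
          C * (1 / ((N : ℝ) + 1) ^ 4) := by
        rw [pow_add]; field_simp
      rw [e3] at h2
      refine (abs_add_le _ _).trans ?_
      linarith
  have h3 : Tendsto (fun N : ℕ => ∑' a, (g (tr N (sh a Y)) - g (tr N (sh a X)))) atTop
      (𝓝 (∑' a, (g (sh a Y) - g (sh a X)))) := by
    have hz : Tendsto (fun N : ℕ => 1 / ((N : ℝ) + 1) ^ (p + 4)) atTop (𝓝 0) := by
      have := (tendsto_one_div_add_atTop_nhds_zero_nat (𝕜 := ℝ)).pow (p + 4)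
      simpa using this
    have hp : ∀ Z, Tendsto (fun N : ℕ => g (tr N Z)) atTop (𝓝 (g Z)) := fun Z =>
      tendsto_iff_norm_sub_tendsto_zero.2
        (squeeze_zero (fun _ => norm_nonneg _) (fun N => hg N _ _ (agr_tr N Z)) hz)
    exact tendsto_tsum_of_dominated_convergence hu (fun a => (hp _).sub (hp _))
      (Eventually.of_forall (fun N a =>
        hm (fun Z => g (tr N Z)) (fun n X Y hXY => hg n _ _ (hXY.tr N)) a))
  refine le_of_tendsto' h3.abs (fun N => ?_)
  rw [tsum_eq_finsum ((hl N).finite_support hD)]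
  refine (h1 N).trans (mul_le_mul_of_nonneg_right (mul_le_mul_of_nonneg_left ?_ hC)
    (Nat.cast_nonneg _))
  exact hs.sum_le_tsum _ (fun _ _ => by positivity)

end Sim

end Pool.Agent.Lib.MP_c73c36_mp
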