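import Pool.Agent.Lib.MP_c73c36_mp.Triv

/-!
If every local function is trivial on a subshift of finite type, then the strict boundary
condition holds.
-/

set_option autoImplicit false

namespace Pool.Agent.Lib.MP_c73c36_mp

open Set

variable {ι A κ : Type} [AddCommGroup ι]

/-- Pattern `j` occurs at `a`. -/
def occ (F : κ → Finset ι × (ι → A)) (j : κ) (a : ι) (X : ι → A) : Prop :=
  ∀ i ∈ (F j).1, X (i + a) = (F j).2 i

/-- The subshift of finite type. -/
def sft (F : κ → Finset ι × (ι → A)) : Set (ι → A) := {X | ∀ j a, ¬ occ F j a X}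

theorem occ_sh (F : κ → Finset ι × (ι → A)) (j : κ) (a b : ι) (X : ι → A) :
    occ F j a (sh b X) ↔ occ F j (a + b) X := by
  simp [occ, sh, add_assoc]

theorem sh_mem_sft {F : κ → Finset ι × (ι → A)} {X : ι → A} (hX : X ∈ sft F) (b : ι) :
    sh b X ∈ sft F := fun j a h => hX j (a + b) ((occ_sh F j a b X).1 h)

theorem loc_occ (F : κ → Finset ι × (ι → A)) (j : κ) (a : ι) : Loc (occ F j a) := by
  classical
  refine ⟨(F j).1.image (· + a), fun X Y h => ?_⟩
  apply propext
  unfold occ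
  refine forall₂_congr (fun i hi => ?_)
  rw [h (i + a) (Finset.mem_image_of_mem _ hi)]

theorem isClopen_of_loc [Finite A] [TopologicalSpace A] [DiscreteTopology A]
    {p : (ι → A) → Prop} (hp : Loc p) : IsClopen {X | p X} := by
  classical
  have h1 : Loc (fun X => decide (p X)) := hp.map (fun q => decide q)
  have h2 : Continuous (fun X => decide (p X)) := h1.continuous
  have : {X | p X} = (fun X => decide (p X)) ⁻¹' {true} := by ext X; simp
  rw [this]
  exact (isClopen_discrete _).preimage h2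

theorem van_of_locally_valid [Finite A] (F : κ → Finset ι × (ι → A)) {f : (ι → A) → ℝ}
    (hf : Loc f) (h : ∀ X ∈ sft F, f X = 0) :
    ∃ R : Finset ι, ∀ Y, (∀ j, ∀ a ∈ R, ¬ occ F j a Y) → f Y = 0 := by
  classical
  letI : TopologicalSpace A := ⊥
  haveI : DiscreteTopology A := ⟨rfl⟩
  have hK : IsCompact {Y : ι → A | f Y ≠ 0} :=
    (isClopen_of_loc (hf.map (fun y => y ≠ 0))).isClosed.isCompact
  obtain ⟨t, ht⟩ := hK.elim_finite_subcover (fun q : κ × ι => {Y | occ F q.1 q.2 Y})
    (fun q => (isClopen_of_loc (loc_occ F q.1 q.2)).isOpen) (by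
      intro Y hY
      by_contra hc
      apply hY
      apply h
      intro j a ho
      exact hc (mem_iUnion.2 ⟨(j, a), ho⟩))
  refine ⟨t.image Prod.snd, fun Y hY => ?_⟩
  by_contra hc
  obtain ⟨q, hq, ho⟩ := mem_iUnion₂.1 (ht hc)
  exact hY q.1 q.2 (Finset.mem_image_of_mem _ hq) ho

theorem Loc.finite_diff {β : Type} {f : (ι → A) → β} (hf : Loc f) {X Y : ι → A}
    (hD : {i | Y i ≠ X i}.Finite) : {a | f (sh a Y) ≠ f (sh a X)}.Finite := by
  obtain ⟨s, hs⟩ := hf
  have : {a | f (sh a Y) ≠ f (sh a X)} ⊆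
      (fun p : ι × ι => p.2 - p.1) '' ((s : Set ι) ×ˢ {i | Y i ≠ X i}) := by
    intro a ha
    by_contra hc
    apply ha
    apply hs
    intro i hi
    by_contra hne
    exact hc ⟨(i, i + a), ⟨hi, hne⟩, by simp⟩
  exact ((s.finite_toSet.prod hD).image _).subset this

theorem finite_defects [Finite κ] {F : κ → Finset ι × (ι → A)} {X Y : ι → A} (hX : X ∈ sft F)
    (hD : {i | Y i ≠ X i}.Finite) : {q : κ × ι | occ F q.1 q.2 Y}.Finite := by
  have : {q : κ × ι | occ F q.1 q.2 Y} ⊆
      ⋃ j : κ, (fun a => (j, a)) '' {a | occ F j 0 (sh a Y) ≠ occ F j 0 (sh a X)} := by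
    rintro ⟨j, a⟩ hq
    refine mem_iUnion.2 ⟨j, a, ?_, rfl⟩
    intro he
    have h1 : occ F j 0 (sh a Y) := by rw [occ_sh]; simpa using hq
    rw [he, occ_sh] at h1
    exact hX j _ h1
  exact (finite_iUnion (fun j => ((loc_occ F j 0).finite_diff hD).image _)).subset this

theorem Loc.finite_support {f : (ι → A) → ℝ} (hf : Loc f) {X Y : ι → A}
    (hD : {i | Y i ≠ X i}.Finite) :
    Function.HasFiniteSupport (fun a => f (sh a Y) - f (sh a X)) := by
  refine (hf.finite_diff hD).subset (fun a ha => ?_)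
  intro he
  apply ha
  simp only [he, sub_self]

theorem Triv.sbc [Finite A] [Finite κ] {F : κ → Finset ι × (ι → A)} {f : (ι → A) → ℝ}
    (h : Triv (sft F) f) : ∃ C : ℝ, ∀ X ∈ sft F, ∀ Y, {i | Y i ≠ X i}.Finite →
      |∑ᶠ a, (f (sh a Y) - f (sh a X))| ≤ C * ({q : κ × ι | occ F q.1 q.2 Y}.ncard : ℝ) := by
  classical
  induction h with
  | const c => exact ⟨0, fun X _ Y _ => by simp⟩
  | cob g b hg =>
    refine ⟨0, fun X _ Y hD => ?_⟩
    have h1 := hg.finite_support hD
    have h2 := (hg.shift b).finite_support hD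
    have e1 : (fun a => (g (sh b (sh a Y)) - g (sh a Y)) - (g (sh b (sh a X)) - g (sh a X))) =
        fun a => (g (sh b (sh a Y)) - g (sh b (sh a X))) - (g (sh a Y) - g (sh a X)) := by
      funext a; ring
    rw [e1, finsum_sub_distrib h2 h1]
    have e2 : ∑ᶠ a, (g (sh b (sh a Y)) - g (sh b (sh a X))) =
        ∑ᶠ a, (g (sh a Y) - g (sh a X)) := by
      simp only [sh_sh]
      exact finsum_comp_equiv (f := fun a => g (sh a Y) - g (sh a X)) (Equiv.addLeft b)
    rw [e2]; simp
  | van f hf hv =>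
    obtain ⟨R, hR⟩ := van_of_locally_valid F hf hv
    obtain ⟨K, hK0, hK⟩ := hf.bdd
    refine ⟨K * R.card, fun X hX Y hD => ?_⟩
    have hfin := finite_defects hX hD
    let S : Finset ι := (R ×ˢ hfin.toFinset).image (fun p => p.2.2 - p.1)
    have hsupp : Function.support (fun a => f (sh a Y) - f (sh a X)) ⊆ S := by
      intro a ha
      by_contra hc
      apply ha
      have h1 : f (sh a X) = 0 := hv _ (sh_mem_sft hX a)
      have h2 : f (sh a Y) = 0 := by
        apply hR
        intro j r hr ho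
        rw [occ_sh] at ho
        apply hc
        refine Finset.mem_coe.2 (Finset.mem_image.2 ⟨(r, (j, r + a)), ?_, by simp⟩)
        simp only [Finset.mem_product, Finite.mem_toFinset, mem_setOf_eq]
        exact ⟨hr, ho⟩
      simp [h1, h2]
    rw [finsum_eq_sum_of_support_subset _ hsupp]
    have hcard : (S.card : ℝ) ≤ R.card * ({q : κ × ι | occ F q.1 q.2 Y}.ncard : ℝ) := by
      have h1 : S.card ≤ (R ×ˢ hfin.toFinset).card := Finset.card_image_le
      rw [Finset.card_product, ← Set.ncard_eq_toFinset_card _ hfin] at h1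
      exact_mod_cast h1
    calc |∑ a ∈ S, (f (sh a Y) - f (sh a X))| ≤ ∑ a ∈ S, |f (sh a Y) - f (sh a X)| :=
          Finset.abs_sum_le_sum_abs _ _
      _ ≤ ∑ _a ∈ S, K := by
          refine Finset.sum_le_sum (fun a _ => ?_)
          rw [hv _ (sh_mem_sft hX a), sub_zero]; exact hK _
      _ = K * S.card := by simp [mul_comm]
      _ ≤ K * (R.card * ({q : κ × ι | occ F q.1 q.2 Y}.ncard : ℝ)) :=
          mul_le_mul_of_nonneg_left hcard hK0
      _ = _ := by ring
  | add f g hf hg ihf ihg =>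
    obtain ⟨C1, h1⟩ := ihf
    obtain ⟨C2, h2⟩ := ihg
    refine ⟨C1 + C2, fun X hX Y hD => ?_⟩
    have e1 : (fun a => (f (sh a Y) + g (sh a Y)) - (f (sh a X) + g (sh a X))) =
        fun a => (f (sh a Y) - f (sh a X)) + (g (sh a Y) - g (sh a X)) := by
      funext a; ring
    rw [e1, finsum_add_distrib (hf.loc.finite_support hD) (hg.loc.finite_support hD)]
    have := abs_add_le (∑ᶠ a, (f (sh a Y) - f (sh a X))) (∑ᶠ a, (g (sh a Y) - g (sh a X)))
    have := h1 X hX Y hD
    have := h2 X hX Y hD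
    linarith

theorem finsum_indicator_diff {p : (ι → A) → Prop} (hp : Loc p) {X Y : ι → A}
    (hD : {i | Y i ≠ X i}.Finite) [DecidablePred p] :
    ∑ᶠ a, ((if p (sh a Y) then (1 : ℝ) else 0) - (if p (sh a X) then (1 : ℝ) else 0)) =
      ({a | p (sh a Y) ∧ ¬ p (sh a X)}.ncard : ℝ) - ({a | p (sh a X) ∧ ¬ p (sh a Y)}.ncard : ℝ) := by
  classical
  have hfin := hp.finite_diff hD
  have h1 : {a | p (sh a Y) ∧ ¬ p (sh a X)}.Finite :=
    hfin.subset (fun a ha he => ha.2 (he ▸ ha.1))
  have h2 : {a | p (sh a X) ∧ ¬ p (sh a Y)}.Finite :=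
    hfin.subset (fun a ha he => ha.2 (he ▸ ha.1))
  have e : (fun a => (if p (sh a Y) then (1 : ℝ) else 0) - (if p (sh a X) then (1 : ℝ) else 0)) =
      fun a => ({a | p (sh a Y) ∧ ¬ p (sh a X)}.indicator (fun _ => (1 : ℝ)) a) -
        ({a | p (sh a X) ∧ ¬ p (sh a Y)}.indicator (fun _ => (1 : ℝ)) a) := by
    funext a
    by_cases ha : p (sh a Y) <;> by_cases hb : p (sh a X) <;> simp [indicator, ha, hb]
  have key : ∀ S : Set ι, S.Finite → ∑ᶠ a, S.indicator (fun _ => (1 : ℝ)) a = (S.ncard : ℝ) := by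
    intro S hS
    rw [← finsum_mem_def, finsum_mem_eq_finite_toFinset_sum _ hS, Set.ncard_eq_toFinset_card _ hS]
    simp
  have fs : ∀ S : Set ι, S.Finite →
      Function.HasFiniteSupport (fun a => S.indicator (fun _ => (1 : ℝ)) a) := by
    intro S hS
    exact hS.subset (fun a ha => by
      by_contra hc
      exact ha (indicator_of_notMem hc _))
  rw [e, finsum_sub_distrib (fs _ h1) (fs _ h2), key _ h1, key _ h2]

end Pool.Agent.Lib.MP_c73c36_mp
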