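import Pool.Agent.Lib.MP_c73c36_mp.SBC

/-!
Self-simulating Wang tiles with macro-tiles of size 512 x 65536: the abstract part.
-/

set_option autoImplicit false

namespace Pool.Agent.Lib.MP_c73c36_mp

/-- The four bits on the left, right, bottom and top side of a cell. -/
abbrev St : Type := Bool × Bool × Bool × Bool

/-- A tile knows its position in its macro-tile and carries four bits. -/
abbrev Tile : Type := Fin 512 × Fin 65536 × St

def labOf (H V : ℕ → ℕ → St → ℕ → ℕ → Bool) (qx qy : ℕ) (β : St) (x y : ℕ) : St :=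
  (H qx qy β x y, H qx qy β (x + 1) y, V qx qy β x y, V qx qy β x (y + 1))

/-- The data of the construction and the facts that are needed about it. -/
structure Sim where
  T : ℕ → ℕ → St → Bool
  H : ℕ → ℕ → St → ℕ → ℕ → Bool
  V : ℕ → ℕ → St → ℕ → ℕ → Bool
  idleH : ℕ → Prop
  idleV : ℕ → Prop
  Arr : Finset (ℕ × ℕ)
  base : ∃ qx qy β, qx < 512 ∧ qy < 65536 ∧ T qx qy β = true
  comp : ∀ qx qy β, qx < 512 → qy < 65536 → T qx qy β = true →
    ∀ x y, x < 512 → y < 65536 → T x y (labOf H V qx qy β x y) = true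
  bdH : ∀ qx qy (β β' : St), qx < 512 → qy < 65536 → β'.1 = β.2.1 → ∀ y, y < 65536 →
    H qx qy β 512 y = H ((qx + 1) % 512) qy β' 0 y
  bdV : ∀ qx qy (β β' : St), qx < 512 → qy < 65536 → β'.2.2.1 = β.2.2.2 → ∀ x, x < 512 →
    V qx qy β x 65536 = V qx ((qy + 1) % 65536) β' x 0
  injH : ∀ qx qy qx' qy' (β β' : St), qx < 512 → qy < 65536 → qx' < 512 → qy' < 65536 →
    (∀ y, y < 65536 → H qx qy β 512 y = H qx' qy' β' 0 y) →
    qx' = (qx + 1) % 512 ∧ qy' / 32768 = qy / 32768 ∧ β'.1 = β.2.1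
  injV : ∀ qx qy qx' qy' (β β' : St), qx < 512 → qy < 65536 → qx' < 512 → qy' < 65536 →
    (∀ x, x < 512 → V qx qy β x 65536 = V qx' qy' β' x 0) →
    qy' = (qy + 1) % 65536 ∧ qx' / 256 = qx / 256 ∧ β'.2.2.1 = β.2.2.2
  zH : ∀ y, y < 65536 → idleH y → ∀ s, T 511 y s = true → s.2.1 = false
  zV : ∀ x, x < 512 → idleV x → ∀ s, T x 65535 s = true → s.2.2.2 = false
  sound : ∀ h v : ℕ → ℕ → Bool,
    (∀ x y, x < 512 → y < 65536 → T x y (h x y, h (x + 1) y, v x y, v x (y + 1)) = true) →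
    (∀ y, y < 65536 → idleH y → h 0 y = false) → (∀ x, x < 512 → idleV x → v x 0 = false) →
    ∃ qx qy β, qx < 512 ∧ qy < 65536 ∧ T qx qy β = true ∧ ∀ x y, x < 512 → y < 65536 →
      (h x y, h (x + 1) y, v x y, v x (y + 1)) = labOf H V qx qy β x y
  f1 : ∀ qx qy (β β' : St), β.1 = β'.1 → ∀ y, y < 65536 →
    labOf H V qx qy β 0 y = labOf H V qx qy β' 0 y
  f2 : ∀ qx qy (β β' : St), β.2.2.1 = β'.2.2.1 → ∀ x, x < 512 →
    labOf H V qx qy β x 0 = labOf H V qx qy β' x 0
  pairH : ∀ qx qy (β β' : St) i y, i < 256 → y < 65536 →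
    (H qx qy β (2 * i) y).toNat + (H qx qy β (2 * i + 1) y).toNat =
    (H qx qy β' (2 * i) y).toNat + (H qx qy β' (2 * i + 1) y).toNat
  pairV : ∀ qx qy (β β' : St) x j, x < 512 → j < 32768 →
    (V qx qy β x (2 * j)).toNat + (V qx qy β x (2 * j + 1)).toNat =
    (V qx qy β' x (2 * j)).toNat + (V qx qy β' x (2 * j + 1)).toNat
  arrB : ∀ p ∈ Arr, p.1 < 512 ∧ p.2 < 65536
  cls : ∀ x y, x < 512 → y < 65536 → (x, y) ∉ Arr →
    (∀ qx qy (β β' : St), labOf H V qx qy β x y = labOf H V qx qy β' x y) ∨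
    (∀ qx qx' qy (β β' : St), qx / 2 = qx' / 2 → β.1 = β'.1 →
      labOf H V qx qy β x y = labOf H V qx' qy β' x y) ∨
    (∀ qx qy qy' (β β' : St), qy / 2 = qy' / 2 → β.2.2.1 = β'.2.2.1 →
      labOf H V qx qy β x y = labOf H V qx qy' β' x y) ∨
    (∀ qx qy qx' qy' (β β' : St), β.2.1 = β'.2.1 →
      labOf H V qx qy β x y = labOf H V qx' qy' β' x y) ∨
    (∀ qx qy qx' qy' (β β' : St), β.2.2.2 = β'.2.2.2 →
      labOf H V qx qy β x y = labOf H V qx' qy' β' x y)
  arrT : ∀ p ∈ Arr, ∀ qx qy qx' qy' (β : St), qx < 512 → qy < 65536 → qx' < 512 → qy' < 65536 →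
    T qx qy = T qx' qy' → labOf H V qx qy β p.1 p.2 = labOf H V qx' qy' β p.1 p.2
  arrSum : ∀ (G : (St → Bool) → St → ℝ) qx qy (β β' : St), qx < 512 → qy < 65536 →
    T qx qy β = true → T qx qy β' = true →
    ∑ p ∈ Arr, G (T p.1 p.2) (labOf H V qx qy β p.1 p.2) =
      ∑ p ∈ Arr, G (T p.1 p.2) (labOf H V qx qy β' p.1 p.2)

abbrev Cfg : Type := ℤ × ℤ → Tile

def px (t : Tile) : ℕ := t.1.val
def py (t : Tile) : ℕ := t.2.1.val
def st (t : Tile) : St := t.2.2

theorem px_lt (t : Tile) : px t < 512 := t.1.isLt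
theorem py_lt (t : Tile) : py t < 65536 := t.2.1.isLt

theorem tile_ext {t t' : Tile} (h1 : px t = px t') (h2 : py t = py t') (h3 : st t = st t') :
    t = t' := Prod.ext (Fin.ext h1) (Prod.ext (Fin.ext h2) h3)

def mkT (x y : ℕ) (s : St) : Tile :=
  (⟨x % 512, Nat.mod_lt _ (by norm_num)⟩, ⟨y % 65536, Nat.mod_lt _ (by norm_num)⟩, s)

theorem px_mkT (x y : ℕ) (s : St) : px (mkT x y s) = x % 512 := rfl
theorem py_mkT (x y : ℕ) (s : St) : py (mkT x y s) = y % 65536 := rfl
theorem st_mkT (x y : ℕ) (s : St) : st (mkT x y s) = s := rfl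

/-- The matching rule for a tile, its right neighbour and its upper neighbour. -/
def ok3 (T : ℕ → ℕ → St → Bool) (t0 t1 t2 : Tile) : Prop :=
  T (px t0) (py t0) (st t0) = true ∧
  px t1 = (px t0 + 1) % 512 ∧ py t1 = py t0 ∧ (st t1).1 = (st t0).2.1 ∧
  px t2 = px t0 ∧ py t2 = (py t0 + 1) % 65536 ∧ (st t2).2.2.1 = (st t0).2.2.2

namespace Sim

variable (S : Sim)

def lab (qx qy : ℕ) (β : St) (x y : ℕ) : St := labOf S.H S.V qx qy β x y

def ok (X : Cfg) (i j : ℤ) : Prop := ok3 S.T (X (i, j)) (X (i + 1, j)) (X (i, j + 1))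

def Om : Set Cfg := {X | ∀ i j, S.ok X i j}

def sub (t : Tile) (x y : ℕ) : Tile := mkT x y (S.lab (px t) (py t) (st t) x y)

def Sub (X : Cfg) : Cfg := fun a =>
  S.sub (X (a.1 / 512, a.2 / 65536)) (a.1 % 512).toNat (a.2 % 65536).toNat

def Spec (b : ℕ → ℕ → Tile) (t : Tile) : Prop :=
  S.T (px t) (py t) (st t) = true ∧ ∀ x y, x < 512 → y < 65536 → b x y = S.sub t x y

open Classical in
noncomputable def dec (b : ℕ → ℕ → Tile) : Tile :=
  if h : ∃ t, S.Spec b t then h.choose else mkT 0 0 (false, false, false, false)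

noncomputable def Dec (X : Cfg) : Cfg := fun a =>
  S.dec (fun x y => X (512 * a.1 + x, 65536 * a.2 + y))

theorem dec_congr {b b' : ℕ → ℕ → Tile} (h : ∀ x y, x < 512 → y < 65536 → b x y = b' x y) :
    S.dec b = S.dec b' := by
  have : S.Spec b = S.Spec b' := by
    funext t
    apply propext
    unfold Spec
    refine and_congr_right (fun _ => forall₄_congr (fun x y hx hy => ?_))
    rw [h x y hx hy]
  unfold dec
  rw [this]

theorem dec_spec {b : ℕ → ℕ → Tile} (h : ∃ t, S.Spec b t) : S.Spec b (S.dec b) := by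
  unfold dec
  rw [dif_pos h]
  exact h.choose_spec

theorem sh_mem {X : Cfg} (hX : X ∈ S.Om) (a : ℤ × ℤ) : sh a X ∈ S.Om := by
  intro i j
  have := hX (i + a.1) (j + a.2)
  unfold ok at this ⊢
  have e1 : sh a X (i, j) = X (i + a.1, j + a.2) := rfl
  have e2 : sh a X (i + 1, j) = X (i + a.1 + 1, j + a.2) := by
    unfold sh; congr 1; ext <;> simp; ring
  have e3 : sh a X (i, j + 1) = X (i + a.1, j + a.2 + 1) := by
    unfold sh; congr 1; ext <;> simp; ring
  rw [e1, e2, e3]; exact this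

theorem pos_eq {X : Cfg} (hX : X ∈ S.Om) (i j : ℤ) :
    (px (X (i, j)) : ℤ) = (px (X (0, 0)) + i) % 512 ∧
    (py (X (i, j)) : ℤ) = (py (X (0, 0)) + j) % 65536 := by
  have h1 : ∀ j : ℤ, px (X (0, j)) = px (X (0, 0)) ∧
      (py (X (0, j)) : ℤ) = (py (X (0, 0)) + j) % 65536 := by
    intro j
    induction j using Int.induction_on with
    | zero => have := py_lt (X (0, 0)); exact ⟨rfl, by omega⟩
    | succ k ih =>
      obtain ⟨-, -, -, -, a, b, -⟩ := hX 0 k
      exact ⟨by omega, by omega⟩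
    | pred k ih =>
      obtain ⟨-, -, -, -, a, b, -⟩ := hX 0 (-(k : ℤ) - 1)
      rw [show -(k : ℤ) - 1 + 1 = -k by ring] at a b
      have := py_lt (X (0, -(k : ℤ) - 1))
      exact ⟨by omega, by omega⟩
  induction i using Int.induction_on with
  | zero => have := px_lt (X (0, 0)); have := h1 j; exact ⟨by omega, this.2⟩
  | succ k ih =>
    obtain ⟨-, a, b, -⟩ := hX k j
    exact ⟨by omega, by omega⟩
  | pred k ih =>
    obtain ⟨-, a, b, -⟩ := hX (-(k : ℤ) - 1) j
    rw [show -(k : ℤ) - 1 + 1 = -k by ring] at a b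
    have := px_lt (X (-(k : ℤ) - 1, j))
    exact ⟨by omega, by omega⟩

theorem Sub_apply (X : Cfg) (i j : ℤ) (x y : ℕ) (hx : x < 512) (hy : y < 65536) :
    S.Sub X (512 * i + x, 65536 * j + y) = S.sub (X (i, j)) x y := by
  unfold Sub
  have e1 : (512 * i + x) / 512 = i := by omega
  have e2 : (65536 * j + y) / 65536 = j := by omega
  have e3 : ((512 * i + x) % 512).toNat = x := by omega
  have e4 : ((65536 * j + y) % 65536).toNat = y := by omega
  simp only [e1, e2, e3, e4]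

theorem ok_Sub {X : Cfg} {i j : ℤ} (h : S.ok X i j) (x y : ℕ) (hx : x < 512) (hy : y < 65536) :
    S.ok (S.Sub X) (512 * i + x) (65536 * j + y) := by
  obtain ⟨h0, a1, a2, a3, b1, b2, b3⟩ := h
  have p1 := px_lt (X (i, j))
  have p2 := py_lt (X (i, j))
  unfold ok
  rw [S.Sub_apply X i j x y hx hy]
  have hT : S.T (px (S.sub (X (i, j)) x y)) (py (S.sub (X (i, j)) x y))
      (st (S.sub (X (i, j)) x y)) = true := by
    simp only [sub, px_mkT, py_mkT, st_mkT, Nat.mod_eq_of_lt hx, Nat.mod_eq_of_lt hy]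
    exact S.comp _ _ _ p1 p2 h0 x y hx hy
  have hR : px (S.Sub X (512 * i + x + 1, 65536 * j + y)) = (px (S.sub (X (i, j)) x y) + 1) % 512 ∧
      py (S.Sub X (512 * i + x + 1, 65536 * j + y)) = py (S.sub (X (i, j)) x y) ∧
      (st (S.Sub X (512 * i + x + 1, 65536 * j + y))).1 = (st (S.sub (X (i, j)) x y)).2.1 := by
    by_cases hx' : x + 1 < 512
    · rw [show 512 * i + (x : ℤ) + 1 = 512 * i + ((x + 1 : ℕ) : ℤ) by push_cast; ring,
        S.Sub_apply X i j (x + 1) y hx' hy]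
      simp only [sub, px_mkT, py_mkT, st_mkT, lab, labOf]
      exact ⟨by omega, trivial, trivial⟩
    · have hx2 : x = 511 := by omega
      subst hx2
      rw [show 512 * i + ((511 : ℕ) : ℤ) + 1 = 512 * (i + 1) + ((0 : ℕ) : ℤ) by push_cast; ring,
        S.Sub_apply X (i + 1) j 0 y (by norm_num) hy]
      simp only [sub, px_mkT, py_mkT, st_mkT, lab, labOf]
      refine ⟨trivial, trivial, ?_⟩
      rw [a1, a2]
      exact (S.bdH _ _ _ _ p1 p2 a3 y hy).symm
  have hU : px (S.Sub X (512 * i + x, 65536 * j + y + 1)) = px (S.sub (X (i, j)) x y) ∧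
      py (S.Sub X (512 * i + x, 65536 * j + y + 1)) = (py (S.sub (X (i, j)) x y) + 1) % 65536 ∧
      (st (S.Sub X (512 * i + x, 65536 * j + y + 1))).2.2.1 =
        (st (S.sub (X (i, j)) x y)).2.2.2 := by
    by_cases hy' : y + 1 < 65536
    · rw [show 65536 * j + (y : ℤ) + 1 = 65536 * j + ((y + 1 : ℕ) : ℤ) by push_cast; ring,
        S.Sub_apply X i j x (y + 1) hx hy']
      simp only [sub, px_mkT, py_mkT, st_mkT, lab, labOf]
      exact ⟨trivial, by omega, trivial⟩
    · have hy2 : y = 65535 := by omega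
      subst hy2
      rw [show 65536 * j + ((65535 : ℕ) : ℤ) + 1 = 65536 * (j + 1) + ((0 : ℕ) : ℤ) by
        push_cast; ring, S.Sub_apply X i (j + 1) x 0 hx (by norm_num)]
      simp only [sub, px_mkT, py_mkT, st_mkT, lab, labOf]
      refine ⟨trivial, trivial, ?_⟩
      rw [b1, b2]
      exact (S.bdV _ _ _ _ p1 p2 b3 x hx).symm
  exact ⟨hT, hR.1, hR.2.1, hR.2.2, hU.1, hU.2.1, hU.2.2⟩

theorem exists_spec {X : Cfg} (hX : X ∈ S.Om) (h1 : px (X (0, 0)) = 0) (h2 : py (X (0, 0)) = 0)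
    (i j : ℤ) : ∃ t, S.Spec (fun x y => X (512 * i + x, 65536 * j + y)) t := by
  have hp := S.pos_eq hX
  rw [h1, h2] at hp
  have hst : ∀ x y : ℕ, ((st (X (512 * i + x, 65536 * j + y))).1,
      (st (X (512 * i + (x + 1 : ℕ), 65536 * j + y))).1,
      (st (X (512 * i + x, 65536 * j + y))).2.2.1,
      (st (X (512 * i + x, 65536 * j + (y + 1 : ℕ)))).2.2.1) =
      st (X (512 * i + x, 65536 * j + y)) := by
    intro x y
    obtain ⟨-, -, -, a3, -, -, b3⟩ := hX (512 * i + x) (65536 * j + y)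
    push_cast
    rw [← add_assoc, ← add_assoc, a3, b3]
  obtain ⟨qx, qy, β, hqx, hqy, hT, hl⟩ := S.sound
    (fun x y => (st (X (512 * i + x, 65536 * j + y))).1)
    (fun x y => (st (X (512 * i + x, 65536 * j + y))).2.2.1)
    (by
      intro x y hx hy
      rw [hst x y]
      have h0 := (hX (512 * i + x) (65536 * j + y)).1
      have := hp (512 * i + x) (65536 * j + y)
      have e1 : px (X (512 * i + x, 65536 * j + y)) = x := by omega
      have e2 : py (X (512 * i + x, 65536 * j + y)) = y := by omega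
      rwa [e1, e2] at h0)
    (by
      intro y hy hi
      obtain ⟨h0, -, -, a3, -⟩ := hX (512 * i - 1) (65536 * j + y)
      have := hp (512 * i - 1) (65536 * j + y)
      have e1 : px (X (512 * i - 1, 65536 * j + y)) = 511 := by omega
      have e2 : py (X (512 * i - 1, 65536 * j + y)) = y := by omega
      rw [e1, e2] at h0
      rw [show 512 * i - 1 + 1 = 512 * i + ((0 : ℕ) : ℤ) by push_cast; ring] at a3
      exact a3.trans (S.zH y hy hi _ h0))
    (by
      intro x hx hi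
      obtain ⟨h0, -, -, -, -, -, b3⟩ := hX (512 * i + x) (65536 * j - 1)
      have := hp (512 * i + x) (65536 * j - 1)
      have e1 : px (X (512 * i + x, 65536 * j - 1)) = x := by omega
      have e2 : py (X (512 * i + x, 65536 * j - 1)) = 65535 := by omega
      rw [e1, e2] at h0
      rw [show 65536 * j - 1 + 1 = 65536 * j + ((0 : ℕ) : ℤ) by push_cast; ring] at b3
      exact b3.trans (S.zV x hx hi _ h0))
  refine ⟨mkT qx qy β, ?_, ?_⟩
  · simp only [px_mkT, py_mkT, st_mkT, Nat.mod_eq_of_lt hqx, Nat.mod_eq_of_lt hqy]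
    exact hT
  · intro x y hx hy
    have := hp (512 * i + x) (65536 * j + y)
    apply tile_ext
    · simp only [sub, px_mkT]; omega
    · simp only [sub, py_mkT]; omega
    · simp only [sub, px_mkT, py_mkT, st_mkT, Nat.mod_eq_of_lt hqx, Nat.mod_eq_of_lt hqy, lab]
      rw [← hl x y hx hy]
      exact (hst x y).symm

theorem Dec_spec {X : Cfg} (hX : X ∈ S.Om) (h1 : px (X (0, 0)) = 0) (h2 : py (X (0, 0)) = 0)
    (i j : ℤ) : S.Spec (fun x y => X (512 * i + x, 65536 * j + y)) (S.Dec X (i, j)) :=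
  S.dec_spec (S.exists_spec hX h1 h2 i j)

theorem Sub_Dec {X : Cfg} (hX : X ∈ S.Om) (h1 : px (X (0, 0)) = 0) (h2 : py (X (0, 0)) = 0) :
    S.Sub (S.Dec X) = X := by
  funext ⟨a, b⟩
  have := (S.Dec_spec hX h1 h2 (a / 512) (b / 65536)).2 (a % 512).toNat (b % 65536).toNat
    (by omega) (by omega)
  unfold Sub
  rw [← this]
  have e1 : 512 * (a / 512) + (((a % 512).toNat : ℕ) : ℤ) = a := by omega
  have e2 : 65536 * (b / 65536) + (((b % 65536).toNat : ℕ) : ℤ) = b := by omega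
  simp only [e1, e2]

theorem align (n m : ℕ) (hn : n = 2 * m) (hm : 0 < m) (p p' : ℤ → ℕ) (hp : ∀ i, p i < n)
    (hp' : ∀ i, p' i < n) (s : ∀ i, p (i + 1) = (p i + 1) % n)
    (s' : ∀ i, p' (i + 1) = (p' i + 1) % n) (t : ∀ i, p' i / m = p i / m) (i : ℤ) :
    p' i = p i := by
  have it : ∀ r : ℤ → ℕ, (∀ i, r i < n) → (∀ i, r (i + 1) = (r i + 1) % n) →
      ∀ k : ℕ, r (i + k) = (r i + k) % n := by
    intro r hr hs k
    induction k with
    | zero => simp [Nat.mod_eq_of_lt (hr i)]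
    | succ k ih =>
      rw [show i + ((k + 1 : ℕ) : ℤ) = i + k + 1 by push_cast; ring, hs, ih, Nat.mod_add_mod,
        add_assoc]
  have hlt := hp i
  have hlt' := hp' i
  have key : ∀ k : ℕ, (p' i + k) % n / m = (p i + k) % n / m := by
    intro k
    rw [← it p hp s k, ← it p' hp' s' k]
    exact t _
  have k1 := key (n + m - 1 - p i)
  have k2 := key (n + m - p i)
  have e1 : (p i + (n + m - 1 - p i)) % n = m - 1 := by
    rw [show p i + (n + m - 1 - p i) = n + (m - 1) by omega, Nat.add_mod_left,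
      Nat.mod_eq_of_lt (by omega)]
  have e2 : (p i + (n + m - p i)) % n = m := by
    rw [show p i + (n + m - p i) = n + m by omega, Nat.add_mod_left,
      Nat.mod_eq_of_lt (by omega)]
  rw [e1, Nat.div_eq_of_lt (show m - 1 < m by omega), Nat.div_eq_zero_iff_lt hm] at k1
  rw [e2, Nat.div_self hm] at k2
  have k3 : m ≤ (p' i + (n + m - p i)) % n := by
    by_contra hc
    rw [Nat.div_eq_of_lt (by omega)] at k2
    omega
  by_contra hne
  rcases Nat.lt_or_gt_of_ne hne with hl | hl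
  · by_cases hc : p' i + (n + m - p i) < n
    · rw [Nat.mod_eq_of_lt (by omega)] at k1
      omega
    · rw [show p' i + (n + m - p i) = n + (p' i + m - p i) by omega, Nat.add_mod_left,
        Nat.mod_eq_of_lt (by omega)] at k3
      omega
  · rw [show p' i + (n + m - 1 - p i) = n + (p' i + m - 1 - p i) by omega, Nat.add_mod_left] at k1
    rw [show p' i + (n + m - p i) = n + (p' i + m - p i) by omega, Nat.add_mod_left] at k3
    by_cases hc : p' i + m - 1 - p i < n
    · rw [Nat.mod_eq_of_lt hc] at k1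
      omega
    · rw [show p' i + m - p i = n + (p' i + m - p i - n) by omega, Nat.add_mod_left,
        Nat.mod_eq_of_lt (by omega)] at k3
      omega

theorem Dec_mem {X : Cfg} (hX : X ∈ S.Om) (h1 : px (X (0, 0)) = 0) (h2 : py (X (0, 0)) = 0) :
    S.Dec X ∈ S.Om := by
  have hs := S.Dec_spec hX h1 h2
  have hH : ∀ i j : ℤ, px (S.Dec X (i + 1, j)) = (px (S.Dec X (i, j)) + 1) % 512 ∧
      py (S.Dec X (i + 1, j)) / 32768 = py (S.Dec X (i, j)) / 32768 ∧
      (st (S.Dec X (i + 1, j))).1 = (st (S.Dec X (i, j))).2.1 := by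
    intro i j
    apply S.injH _ _ _ _ _ _ (px_lt _) (py_lt _) (px_lt _) (py_lt _)
    intro y hy
    have e1 := (hs i j).2 511 y (by norm_num) hy
    have e2 := (hs (i + 1) j).2 0 y (by norm_num) hy
    obtain ⟨-, -, -, a3, -⟩ := hX (512 * i + (511 : ℕ)) (65536 * j + y)
    rw [show 512 * i + ((511 : ℕ) : ℤ) + 1 = 512 * (i + 1) + ((0 : ℕ) : ℤ) by push_cast; ring] at a3
    simp only at e1 e2
    rw [e1, e2] at a3
    exact a3.symm
  have hV : ∀ i j : ℤ, py (S.Dec X (i, j + 1)) = (py (S.Dec X (i, j)) + 1) % 65536 ∧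
      px (S.Dec X (i, j + 1)) / 256 = px (S.Dec X (i, j)) / 256 ∧
      (st (S.Dec X (i, j + 1))).2.2.1 = (st (S.Dec X (i, j))).2.2.2 := by
    intro i j
    apply S.injV _ _ _ _ _ _ (px_lt _) (py_lt _) (px_lt _) (py_lt _)
    intro x hx
    have e1 := (hs i j).2 x 65535 hx (by norm_num)
    have e2 := (hs i (j + 1)).2 x 0 hx (by norm_num)
    obtain ⟨-, -, -, -, -, -, b3⟩ := hX (512 * i + x) (65536 * j + (65535 : ℕ))
    rw [show 65536 * j + ((65535 : ℕ) : ℤ) + 1 = 65536 * (j + 1) + ((0 : ℕ) : ℤ) by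
      push_cast; ring] at b3
    simp only at e1 e2
    rw [e1, e2] at b3
    exact b3.symm
  intro i j
  refine ⟨(hs i j).1, (hH i j).1, ?_, (hH i j).2.2, ?_, (hV i j).1, (hV i j).2.2⟩
  · exact align 65536 32768 (by norm_num) (by norm_num) (fun j => py (S.Dec X (i, j)))
      (fun j => py (S.Dec X (i + 1, j))) (fun _ => py_lt _) (fun _ => py_lt _)
      (fun j => (hV i j).1) (fun j => (hV (i + 1) j).1) (fun j => (hH i j).2.1) j
  · exact align 512 256 (by norm_num) (by norm_num) (fun i => px (S.Dec X (i, j)))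
      (fun i => px (S.Dec X (i, j + 1))) (fun _ => px_lt _) (fun _ => px_lt _)
      (fun i => (hH i j).1) (fun i => (hH i (j + 1)).1) (fun i => (hV i j).2.1) i

theorem Dec_sh_aux (N M : ℤ) (D : (ℕ → ℕ → Tile) → Tile) (X : Cfg) (a : ℤ × ℤ) :
    (fun b : ℤ × ℤ => D (fun x y => sh ((N * a.1, M * a.2) : ℤ × ℤ) X (N * b.1 + x, M * b.2 + y))) =
    sh a (fun b : ℤ × ℤ => D (fun x y => X (N * b.1 + x, M * b.2 + y))) := by
  funext b
  unfold sh
  congr 1
  funext x y
  congr 1
  ext <;> simp <;> ring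

theorem Dec_sh (X : Cfg) (a : ℤ × ℤ) :
    S.Dec (sh ((512 * a.1, 65536 * a.2) : ℤ × ℤ) X) = sh a (S.Dec X) :=
  Dec_sh_aux 512 65536 S.dec X a

theorem aperiodic (n : ℕ) : ∀ X ∈ S.Om, ∀ a : ℤ × ℤ, a.1.natAbs + a.2.natAbs ≤ n →
    sh a X = X → a = 0 := by
  induction n with
  | zero => intro X _ a ha _; ext <;> simp <;> omega
  | succ n ih =>
    intro X hX a ha he
    have h0 : X (a.1, a.2) = X (0, 0) := by
      have : X (0 + a.1, 0 + a.2) = X (0, 0) := congrFun he (0, 0)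
      rwa [zero_add, zero_add] at this
    have hp := S.pos_eq hX a.1 a.2
    rw [h0] at hp
    have p1 := px_lt (X (0, 0))
    have p2 := py_lt (X (0, 0))
    let c : ℤ × ℤ := (-(px (X (0, 0)) : ℤ), -(py (X (0, 0)) : ℤ))
    have hX1 : sh c X ∈ S.Om := S.sh_mem hX c
    have hq := S.pos_eq hX c.1 c.2
    have e0 : sh c X (0, 0) = X (c.1, c.2) := by
      show X (0 + c.1, 0 + c.2) = _
      rw [zero_add, zero_add]
    have q1 : px (sh c X (0, 0)) = 0 := by rw [e0]; simp only [c] at hq ⊢; omega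
    have q2 : py (sh c X (0, 0)) = 0 := by rw [e0]; simp only [c] at hq ⊢; omega
    have hD := S.Dec_mem hX1 q1 q2
    have ea : a = (512 * (a.1 / 512), 65536 * (a.2 / 65536)) := by ext <;> simp <;> omega
    have hper : sh ((a.1 / 512, a.2 / 65536) : ℤ × ℤ) (S.Dec (sh c X)) = S.Dec (sh c X) := by
      rw [← S.Dec_sh]
      simp only
      rw [← ea, sh_sh, add_comm, ← sh_sh, he]
    by_contra hne
    have hb := ih _ hD (a.1 / 512, a.2 / 65536) (by
      have : a.1 ≠ 0 ∨ a.2 ≠ 0 := by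
        by_contra hc
        push Not at hc
        exact hne (Prod.ext hc.1 hc.2)
      simp only
      omega) hper
    have b1 : a.1 / 512 = 0 := congrArg Prod.fst hb
    have b2 : a.2 / 65536 = 0 := congrArg Prod.snd hb
    apply hne
    rw [ea, b1, b2]; rfl

theorem loc_ok (i j : ℤ) : Loc (fun X => S.ok X i j) := by
  have := ((Loc.eval (A := Tile) (i, j)).map₂ (Loc.eval (i + 1, j)) Prod.mk).map₂
    (Loc.eval (i, j + 1)) (fun p t => ok3 S.T p.1 p.2 t)
  exact this

theorem nonempty : S.Om.Nonempty := by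
  have h1 : ∀ n : ℕ, ∃ X : Cfg, ∀ i j : ℕ, i ≤ n → j ≤ n → S.ok X i j := by
    intro n
    induction n with
    | zero =>
      obtain ⟨qx, qy, β, hx, hy, hT⟩ := S.base
      refine ⟨fun a => if a = (0, 0) then mkT qx qy β else if a = (1, 0) then
        mkT (qx + 1) qy (β.2.1, false, false, false) else
        mkT qx (qy + 1) (false, false, β.2.2.2, false), fun i j hi hj => ?_⟩
      have hi0 : i = 0 := by omega
      have hj0 : j = 0 := by omega
      subst hi0 hj0
      unfold ok ok3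
      simp [px_mkT, py_mkT, st_mkT, Nat.mod_eq_of_lt hx, Nat.mod_eq_of_lt hy, hT]
    | succ n ih =>
      obtain ⟨X, hX⟩ := ih
      refine ⟨S.Sub X, fun i j hi hj => ?_⟩
      have := S.ok_Sub (hX (i / 512) (j / 65536) (by omega) (by omega)) (i % 512) (j % 65536)
        (by omega) (by omega)
      rwa [show 512 * ((i / 512 : ℕ) : ℤ) + ((i % 512 : ℕ) : ℤ) = i by omega,
        show 65536 * ((j / 65536 : ℕ) : ℤ) + ((j % 65536 : ℕ) : ℤ) = j by omega] at this
  let : TopologicalSpace Tile := ⊥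
  have : DiscreteTopology Tile := ⟨rfl⟩
  let E : ℕ → Set Cfg := fun n => ⋂ i : ℤ, ⋂ j : ℤ, {X | i.natAbs ≤ n → j.natAbs ≤ n → S.ok X i j}
  have hcl : ∀ n, IsClosed (E n) := fun n => isClosed_iInter (fun i => isClosed_iInter (fun j =>
    (isClopen_of_loc ((S.loc_ok i j).map (fun p => i.natAbs ≤ n → j.natAbs ≤ n → p))).isClosed))
  obtain ⟨X, hX⟩ := IsCompact.nonempty_iInter_of_sequence_nonempty_isCompact_isClosed E
    (fun n X hX => by
      simp only [E, Set.mem_iInter, Set.mem_ofPred_eq] at hX ⊢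
      exact fun i j hi hj => hX i j (by omega) (by omega))
    (fun n => by
      obtain ⟨X, hX⟩ := h1 (2 * n)
      refine ⟨sh ((n : ℤ), (n : ℤ)) X, ?_⟩
      simp only [E, Set.mem_iInter, Set.mem_ofPred_eq]
      intro i j hi hj
      have := hX (i + n).toNat (j + n).toNat (by omega) (by omega)
      rw [show (((i + n).toNat : ℕ) : ℤ) = i + n by omega,
        show (((j + n).toNat : ℕ) : ℤ) = j + n by omega] at this
      unfold ok at this ⊢
      simp only [sh, Prod.mk_add_mk]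
      rwa [show i + 1 + (n : ℤ) = i + n + 1 by ring, show j + 1 + (n : ℤ) = j + n + 1 by ring])
    (hcl 0).isCompact hcl
  refine ⟨X, fun i j => ?_⟩
  simp only [E, Set.mem_iInter, Set.mem_ofPred_eq] at hX
  exact hX (i.natAbs + j.natAbs) i j (by omega) (by omega)

end Sim

end Pool.Agent.Lib.MP_c73c36_mp
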