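import Mathlib

/-!
Local functions on a full shift, and the class of functions that are, on a subshift,
a constant plus a finite sum of coboundaries of local functions.
-/

set_option autoImplicit false

namespace Pool.Agent.Lib.MP_c73c36_mp

open Set

variable {ι A : Type}

/-- A function of a configuration that depends on finitely many coordinates. -/
def Loc {β : Type} (f : (ι → A) → β) : Prop :=
  ∃ s : Finset ι, ∀ X Y : ι → A, (∀ i ∈ s, X i = Y i) → f X = f Y

/-- The shift. -/
def sh [Add ι] (a : ι) (X : ι → A) : ι → A := fun i => X (i + a)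

theorem sh_sh [AddCommGroup ι] (a b : ι) (X : ι → A) : sh a (sh b X) = sh (a + b) X := by
  funext i; simp [sh, add_assoc]

theorem sh_zero [AddCommGroup ι] (X : ι → A) : sh (0 : ι) X = X := by
  funext i; simp [sh]

theorem Loc.const {β : Type} (c : β) : Loc (fun _ : ι → A => c) := ⟨∅, fun _ _ _ => rfl⟩

theorem Loc.map₂ {β γ δ : Type} {f : (ι → A) → β} {g : (ι → A) → γ} (hf : Loc f) (hg : Loc g)
    (F : β → γ → δ) : Loc (fun X => F (f X) (g X)) := by
  classical
  obtain ⟨s, hs⟩ := hf
  obtain ⟨t, ht⟩ := hg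
  refine ⟨s ∪ t, fun X Y h => ?_⟩
  have h1 := hs X Y (fun i hi => h i (Finset.mem_union_left _ hi))
  have h2 := ht X Y (fun i hi => h i (Finset.mem_union_right _ hi))
  simp only [h1, h2]

theorem Loc.map {β γ : Type} {f : (ι → A) → β} (hf : Loc f) (F : β → γ) :
    Loc (fun X => F (f X)) := hf.map₂ hf (fun a _ => F a)

theorem Loc.eval (i : ι) : Loc (fun X : ι → A => X i) :=
  ⟨{i}, fun _ _ h => h i (Finset.mem_singleton_self i)⟩

theorem Loc.shift [AddCommGroup ι] {β : Type} {f : (ι → A) → β} (hf : Loc f) (a : ι) :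
    Loc (fun X => f (sh a X)) := by
  classical
  obtain ⟨s, hs⟩ := hf
  refine ⟨s.image (· + a), fun X Y h => hs _ _ (fun i hi => ?_)⟩
  exact h (i + a) (Finset.mem_image_of_mem _ hi)

theorem Loc.sum {κ : Type} (s : Finset κ) {f : κ → (ι → A) → ℝ} (hf : ∀ k ∈ s, Loc (f k)) :
    Loc (fun X => ∑ k ∈ s, f k X) := by
  classical
  induction s using Finset.induction_on with
  | empty => simpa using Loc.const (0 : ℝ)
  | insert a s ha ih =>
    have h1 := hf a (Finset.mem_insert_self _ _)
    have h2 := ih (fun k hk => hf k (Finset.mem_insert_of_mem hk))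
    have := h1.map₂ h2 (fun a b => a + b)
    simpa [Finset.sum_insert ha] using this

theorem Loc.factor {β : Type} [Nonempty β] {f : (ι → A) → β} (hf : Loc f) :
    ∃ (s : Finset ι) (e : (s → A) → β), ∀ X, f X = e (fun i => X i) := by
  classical
  obtain ⟨s, hs⟩ := hf
  refine ⟨s, fun z => if h : ∃ X : ι → A, ∀ i : s, X i = z i then f h.choose
    else Classical.arbitrary β, fun X => ?_⟩
  have h : ∃ X' : ι → A, ∀ i : s, X' i = (fun i : s => X i) i := ⟨X, fun _ => rfl⟩
  simp only [dif_pos h]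
  exact hs _ _ (fun i hi => (h.choose_spec ⟨i, hi⟩).symm)

theorem Loc.bdd [Finite A] {f : (ι → A) → ℝ} (hf : Loc f) : ∃ K : ℝ, 0 ≤ K ∧ ∀ X, |f X| ≤ K := by
  obtain ⟨s, e, he⟩ := hf.factor
  have : (Set.range (fun z => |e z|)).Finite := Set.finite_range _
  obtain ⟨K, hK⟩ := this.bddAbove
  refine ⟨max K 0, le_max_right _ _, fun X => ?_⟩
  rw [he]
  exact le_trans (hK ⟨_, rfl⟩) (le_max_left _ _)

theorem Loc.continuous [Finite A] [TopologicalSpace A] [DiscreteTopology A] {β : Type}
    [Nonempty β] [TopologicalSpace β] {f : (ι → A) → β} (hf : Loc f) : Continuous f := by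
  obtain ⟨s, e, he⟩ := hf.factor
  have : f = e ∘ (fun X : ι → A => fun i : s => X i) := by funext X; exact he X
  rw [this]
  exact continuous_of_discreteTopology.comp (by fun_prop)

/-- Functions that on `Ω` are a constant plus coboundaries of local functions. -/
inductive Triv [Add ι] (Ω : Set (ι → A)) : ((ι → A) → ℝ) → Prop
  | const (c : ℝ) : Triv Ω (fun _ => c)
  | cob (g : (ι → A) → ℝ) (a : ι) (hg : Loc g) : Triv Ω (fun X => g (sh a X) - g X)
  | van (f : (ι → A) → ℝ) (hf : Loc f) (h : ∀ X ∈ Ω, f X = 0) : Triv Ω f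
  | add (f g : (ι → A) → ℝ) (hf : Triv Ω f) (hg : Triv Ω g) : Triv Ω (fun X => f X + g X)

variable [AddCommGroup ι] {Ω : Set (ι → A)}

theorem Triv.loc {f : (ι → A) → ℝ} (h : Triv Ω f) : Loc f := by
  induction h with
  | const c => exact Loc.const c
  | cob g a hg => exact (hg.shift a).map₂ hg (fun a b => a - b)
  | van f hf _ => exact hf
  | add f g _ _ ihf ihg => exact ihf.map₂ ihg (fun a b => a + b)

theorem Triv.smul {f : (ι → A) → ℝ} (h : Triv Ω f) (c : ℝ) : Triv Ω (fun X => c * f X) := by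
  induction h with
  | const d => exact Triv.const (c * d)
  | cob g a hg =>
    have := Triv.cob (Ω := Ω) (fun X => c * g X) a (hg.map (fun y => c * y))
    simpa [mul_sub] using this
  | van f hf h => exact Triv.van _ (hf.map (fun y => c * y)) (fun X hX => by simp [h X hX])
  | add f g _ _ ihf ihg => simpa [mul_add] using Triv.add _ _ ihf ihg

theorem Triv.congr {f g : (ι → A) → ℝ} (hg : Triv Ω g) (hf : Loc f)
    (h : ∀ X ∈ Ω, f X = g X) : Triv Ω f := by
  have h1 : Triv Ω (fun X => f X - g X) :=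
    Triv.van _ (hf.map₂ hg.loc (fun a b => a - b)) (fun X hX => by simp [h X hX])
  simpa using Triv.add _ _ hg h1

theorem Triv.sub {f g : (ι → A) → ℝ} (hf : Triv Ω f) (hg : Triv Ω g) :
    Triv Ω (fun X => f X - g X) := by
  simpa [sub_eq_add_neg] using Triv.add _ _ hf (hg.smul (-1))

theorem Triv.sum {κ : Type} (s : Finset κ) {f : κ → (ι → A) → ℝ} (hf : ∀ k ∈ s, Triv Ω (f k)) :
    Triv Ω (fun X => ∑ k ∈ s, f k X) := by
  classical
  induction s using Finset.induction_on with
  | empty => simpa using Triv.const (Ω := Ω) (0 : ℝ)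
  | insert a s ha ih =>
    have h1 := hf a (Finset.mem_insert_self _ _)
    have h2 := ih (fun k hk => hf k (Finset.mem_insert_of_mem hk))
    simpa [Finset.sum_insert ha] using Triv.add _ _ h1 h2

theorem Triv.shift {f : (ι → A) → ℝ} (h : Triv Ω f) (a : ι) : Triv Ω (fun X => f (sh a X)) := by
  simpa using Triv.add _ _ (Triv.cob f a h.loc) h

theorem Triv.of_shift {f : (ι → A) → ℝ} (hf : Loc f) (a : ι)
    (h : Triv Ω (fun X => f (sh a X))) : Triv Ω f := by
  simpa using h.sub (Triv.cob f a hf)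

/-- Transport along a relabelling of sites and letters. -/
theorem Triv.transport {ι' A' : Type} [AddCommGroup ι'] (φ : ι →+ ι') (e : A' → A)
    {f : (ι → A) → ℝ} (h : Triv Ω f) :
    Triv {X' : ι' → A' | (fun i => e (X' (φ i))) ∈ Ω} (fun X' => f (fun i => e (X' (φ i)))) := by
  classical
  have hl : ∀ g : (ι → A) → ℝ, Loc g → Loc (fun X' : ι' → A' => g (fun i => e (X' (φ i)))) := by
    rintro g ⟨s, hs⟩
    refine ⟨s.image φ, fun X Y h => hs _ _ (fun i hi => ?_)⟩
    simp only [h (φ i) (Finset.mem_image_of_mem _ hi)]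
  induction h with
  | const c => exact Triv.const c
  | cob g a hg =>
    have := Triv.cob (Ω := {X' : ι' → A' | (fun i => e (X' (φ i))) ∈ Ω}) _ (φ a) (hl g hg)
    have e1 : ∀ X' : ι' → A', sh a (fun i => e (X' (φ i))) = fun i => e (sh (φ a) X' (φ i)) := by
      intro X'; funext i; simp [sh]
    simp only [e1]
    exact this
  | van f hf h => exact Triv.van _ (hl f hf) (fun X hX => h _ hX)
  | add f g _ _ ihf ihg => exact Triv.add _ _ ihf ihg

end Pool.Agent.Lib.MP_c73c36_mp
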